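import Pool.Agent.Lib.SubBisE.Defs

/-!
# The anti-noise and the part of low degree
-/

open scoped BigOperators

namespace Pool.Agent.Lib.SubBisE

open Finset SubBis Pool.Agent.Lib.SubBisX.Reg

variable {n m : ℕ} {ε : ℝ}

theorem av_cons (f : (Fin (n + 1) → Fin m) → ℝ) :
    av f = av fun u : Fin m => av fun U : Fin n → Fin m =>
      f (Fin.cons u U : Fin (n + 1) → Fin m) := by
  rw [← av_equiv (Fin.consEquiv (fun _ : Fin (n + 1) => Fin m)) f, av_prod]
  rfl

/-! ### Linearity -/

theorem mn_add (y z : (Fin (n + 1) → Fin m) → ℝ) :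
    mn (fun U => y U + z U) = fun U => mn y U + mn z U := by
  funext U
  unfold mn
  exact av_add _ _

theorem dv_add (y z : (Fin (n + 1) → Fin m) → ℝ) (u : Fin m) :
    dv (fun U => y U + z U) u = fun U => dv y u U + dv z u U := by
  funext U
  unfold dv
  rw [mn_add]
  ring

theorem mn_smul (c : ℝ) (y : (Fin (n + 1) → Fin m) → ℝ) :
    mn (fun U => c * y U) = fun U => c * mn y U := by
  funext U
  unfold mn
  exact av_smul _ _

theorem dv_smul (c : ℝ) (y : (Fin (n + 1) → Fin m) → ℝ) (u : Fin m) :
    dv (fun U => c * y U) u = fun U => c * dv y u U := by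
  funext U
  unfold dv
  rw [mn_smul]
  ring

theorem anti_succ (y : (Fin (n + 1) → Fin m) → ℝ) (u : Fin m) (U : Fin n → Fin m) :
    anti ε (n + 1) y (Fin.cons u U : Fin (n + 1) → Fin m) =
      anti ε n (fun U' => mn y U' + (1 + ε) * dv y u U') U := by
  show anti ε n (fun U' => mn y U' + (1 + ε) * dv y ((Fin.cons u U : Fin (n + 1) → Fin m) 0) U')
    (fun i => (Fin.cons u U : Fin (n + 1) → Fin m) i.succ) = _
  simp only [Fin.cons_zero, Fin.cons_succ]

theorem anti_add (ε : ℝ) : ∀ (n : ℕ) (y z : (Fin n → Fin m) → ℝ),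
    anti ε n (fun U => y U + z U) = fun U => anti ε n y U + anti ε n z U := by
  intro n
  induction n with
  | zero => intro y z; rfl
  | succ n ih =>
    intro y z
    funext U
    rw [← Fin.cons_self_tail U, anti_succ, anti_succ, anti_succ, mn_add, dv_add]
    have h : (fun U' : Fin n → Fin m => mn y U' + mn z U' +
        (1 + ε) * (dv y (U 0) U' + dv z (U 0) U')) =
        fun U' => (mn y U' + (1 + ε) * dv y (U 0) U') + (mn z U' + (1 + ε) * dv z (U 0) U') := by
      funext U'
      ring
    simp only [h]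
    rw [ih]

theorem anti_smul (ε : ℝ) : ∀ (n : ℕ) (c : ℝ) (y : (Fin n → Fin m) → ℝ),
    anti ε n (fun U => c * y U) = fun U => c * anti ε n y U := by
  intro n
  induction n with
  | zero => intro c y; rfl
  | succ n ih =>
    intro c y
    funext U
    rw [← Fin.cons_self_tail U, anti_succ, anti_succ, mn_smul, dv_smul]
    have h : (fun U' : Fin n → Fin m => c * mn y U' + (1 + ε) * (c * dv y (U 0) U')) =
        fun U' => c * (mn y U' + (1 + ε) * dv y (U 0) U') := by
      funext U'
      ring
    simp only [h]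
    rw [ih]

theorem anti_zero (n : ℕ) : anti (m := m) ε n (fun _ => 0) = fun _ => 0 := by
  have h := anti_smul (m := m) ε n 0 (fun _ => 0)
  simpa using h

theorem anti_sum {ι : Type*} (s : Finset ι) (y : ι → (Fin n → Fin m) → ℝ) :
    anti ε n (fun U => ∑ i ∈ s, y i U) = fun U => ∑ i ∈ s, anti ε n (y i) U := by
  classical
  induction s using Finset.induction_on with
  | empty => simp [anti_zero]
  | insert a s ha ih =>
    simp only [Finset.sum_insert ha]
    rw [anti_add, ih]

/-! ### The mean of the deviation -/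

variable [NeZero m]

theorem sum_dv (y : (Fin (n + 1) → Fin m) → ℝ) :
    (fun U : Fin n → Fin m => ∑ u, dv y u U) = fun _ => 0 := by
  funext U
  unfold dv mn av
  rw [Finset.sum_sub_distrib]
  have hm : (m : ℝ) ≠ 0 := by exact_mod_cast NeZero.ne m
  simp only [Finset.sum_const, Finset.card_univ, Fintype.card_fin, nsmul_eq_mul]
  rw [mul_div_cancel₀ _ hm, sub_self]

theorem sum_anti_dv (y : (Fin (n + 1) → Fin m) → ℝ) (U : Fin n → Fin m) :
    ∑ u, anti ε n (dv y u) U = 0 := by
  have h := anti_sum (ε := ε) (Finset.univ : Finset (Fin m)) (fun u => dv y u)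
  rw [sum_dv, anti_zero] at h
  exact (congrFun h U).symm

/-- Pythagoras in the first digit. -/
theorem av_add_sq (a : (Fin n → Fin m) → ℝ) (b : Fin m → (Fin n → Fin m) → ℝ)
    (hb : ∀ U, ∑ u, b u U = 0) :
    (av fun u : Fin m => av fun U : Fin n → Fin m => (a U + b u U) ^ 2) =
      (av fun U => a U ^ 2) + av fun u : Fin m => av fun U : Fin n → Fin m => b u U ^ 2 := by
  rw [av_comm, av_comm (fun u U => b u U ^ 2), ← av_add]
  congr 1
  funext U
  have e1 : (fun u : Fin m => (a U + b u U) ^ 2) =
      fun u => (a U ^ 2 + 2 * a U * b u U) + b u U ^ 2 := by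
    funext u
    ring
  rw [e1, av_add, av_add, av_const, av_smul]
  have e2 : (av fun u : Fin m => b u U) = 0 := by
    unfold av
    rw [hb U, zero_div]
  rw [e2]
  ring

theorem anti_sq (ε : ℝ) (y : (Fin (n + 1) → Fin m) → ℝ) :
    (av fun U => anti ε (n + 1) y U ^ 2) = (av fun U => anti ε n (mn y) U ^ 2) +
      (1 + ε) ^ 2 * av fun u : Fin m => av fun U : Fin n → Fin m => anti ε n (dv y u) U ^ 2 := by
  rw [av_cons]
  have e1 : ∀ (u : Fin m) (U : Fin n → Fin m), anti ε (n + 1) y (Fin.cons u U : Fin (n + 1) → Fin m) =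
      anti ε n (mn y) U + (1 + ε) * anti ε n (dv y u) U := by
    intro u U
    rw [anti_succ, anti_add, anti_smul]
  simp only [e1]
  rw [av_add_sq (fun U => anti ε n (mn y) U) (fun u U => (1 + ε) * anti ε n (dv y u) U)]
  · congr 1
    rw [← av_smul]
    congr 1
    funext u
    rw [← av_smul]
    congr 1
    funext U
    ring
  · intro U
    rw [← Finset.mul_sum, sum_anti_dv, mul_zero]

/-- The square mean splits. -/
theorem av_sq (y : (Fin (n + 1) → Fin m) → ℝ) :
    (av fun U => y U ^ 2) = (av fun U => mn y U ^ 2) +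
      av fun u : Fin m => av fun U : Fin n → Fin m => dv y u U ^ 2 := by
  rw [av_cons]
  have e1 : ∀ (u : Fin m) (U : Fin n → Fin m), y (Fin.cons u U : Fin (n + 1) → Fin m) =
      mn y U + dv y u U := by
    intro u U
    unfold dv
    ring
  simp only [e1]
  exact av_add_sq (fun U => mn y U) (fun u U => dv y u U) fun U => congrFun (sum_dv y) U

/-- The anti-noise increases the norm. -/
theorem anti_ge {ε : ℝ} (h0 : 0 ≤ ε) : ∀ (n : ℕ) (y : (Fin n → Fin m) → ℝ),
    (av fun U => y U ^ 2) ≤ av fun U => anti ε n y U ^ 2 := by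
  intro n
  induction n with
  | zero => intro y; exact le_rfl
  | succ n ih =>
    intro y
    rw [av_sq, anti_sq]
    have h1 := ih (mn y)
    have h2 : (av fun u : Fin m => av fun U : Fin n → Fin m => dv y u U ^ 2) ≤
        av fun u : Fin m => av fun U : Fin n → Fin m => anti ε n (dv y u) U ^ 2 :=
      av_mono fun u => ih (dv y u)
    have h3 : 0 ≤ av fun u : Fin m => av fun U : Fin n → Fin m => anti ε n (dv y u) U ^ 2 :=
      av_nonneg fun u => av_nonneg fun U => sq_nonneg _
    nlinarith [mul_nonneg h0 h3, mul_nonneg (mul_nonneg h0 h0) h3]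

/-! ### Trees -/

theorem tree_mem {ε : ℝ} : ∀ (n : ℕ) (y : (Fin n → Fin m) → ℝ), Tree ε n y → ∀ U, 0 ≤ y U ∧ y U ≤ 1 := by
  intro n
  induction n with
  | zero => intro y h; exact h
  | succ n ih =>
    rintro y ⟨φ, y1, y0, hφ, h1, h0, hy⟩ U
    rw [← Fin.cons_self_tail U, hy]
    have a1 := ih y1 h1 (Fin.tail U)
    have a0 := ih y0 h0 (Fin.tail U)
    have b := hφ.1 (U 0)
    constructor
    · have := mul_nonneg b.1 a1.1
      have := mul_nonneg (sub_nonneg.2 b.2) a0.1
      linarith
    · have := mul_le_mul_of_nonneg_left a1.2 b.1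
      have := mul_le_mul_of_nonneg_left a0.2 (sub_nonneg.2 b.2)
      linarith

/-- THE NOISE LEMMA. -/
theorem anti_tree {ε : ℝ} (_h0 : 0 ≤ ε) : ∀ (n : ℕ) (y : (Fin n → Fin m) → ℝ), Tree ε n y →
    (av fun U => anti ε n y U ^ 2) ≤ av y := by
  intro n
  induction n with
  | zero =>
    intro y h
    apply av_mono
    intro U
    have h1 := h U
    show y U ^ 2 ≤ y U
    nlinarith
  | succ n ih =>
    rintro y ⟨φ, y1, y0, hφ, h1, h0, hy⟩
    set p : ℝ := av φ with hp
    have hmn : ∀ U, mn y U = p * y1 U + (1 - p) * y0 U := by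
      intro U
      unfold mn
      have e1 : (fun x : Fin m => y (Fin.cons x U : Fin (n + 1) → Fin m)) =
          fun x => (y1 U - y0 U) * φ x + y0 U := by
        funext x
        rw [hy]
        ring
      rw [e1, av_add, av_smul, av_const]
      ring
    have hdv : ∀ u U, dv y u U = (φ u - p) * (y1 U - y0 U) := by
      intro u U
      unfold dv
      rw [hmn, hy]
      ring
    have hant : ∀ (u : Fin m) (U : Fin n → Fin m), anti ε (n + 1) y (Fin.cons u U : Fin (n + 1) → Fin m) =
        anti ε n y0 U + (p + (1 + ε) * (φ u - p)) * (anti ε n y1 U - anti ε n y0 U) := by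
      intro u U
      rw [anti_succ]
      have e1 : (fun U' : Fin n → Fin m => mn y U' + (1 + ε) * dv y u U') =
          fun U' => (p + (1 + ε) * (φ u - p)) * y1 U' +
            (1 - (p + (1 + ε) * (φ u - p))) * y0 U' := by
        funext U'
        rw [hmn, hdv]
        ring
      rw [e1, anti_add, anti_smul, anti_smul]
      ring
    rw [av_cons, av_cons]
    simp only [hant, hy]
    rw [av_comm, av_comm (fun u U => φ u * y1 U + (1 - φ u) * y0 U)]
    have hq : (av fun u => (p + (1 + ε) * (φ u - p)) ^ 2) ≤ p := by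
      have e1 : (fun u => (p + (1 + ε) * (φ u - p)) ^ 2) =
          fun u => (1 + ε) ^ 2 * φ u ^ 2 + (2 * (-(ε * p)) * (1 + ε) * φ u + (ε * p) ^ 2) := by
        funext u
        ring
      rw [e1, av_add, av_smul, av_add, av_smul, av_const, ← hp]
      have := hφ.2
      rw [← hp] at this
      nlinarith
    have hlin : (av fun u => (p + (1 + ε) * (φ u - p))) = p := by
      have e1 : (fun u => (p + (1 + ε) * (φ u - p))) = fun u => (1 + ε) * φ u + (-(ε * p)) := by
        funext u
        ring
      rw [e1, av_add, av_smul, av_const, ← hp]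
      ring
    have hp0 : 0 ≤ p := av_nonneg fun u => (hφ.1 u).1
    have hp1 : p ≤ 1 := by
      have := av_mono (f := φ) (g := fun _ => 1) fun u => (hφ.1 u).2
      rwa [av_const] at this
    calc (av fun U => av fun u => (anti ε n y0 U +
          (p + (1 + ε) * (φ u - p)) * (anti ε n y1 U - anti ε n y0 U)) ^ 2)
        ≤ av fun U => p * anti ε n y1 U ^ 2 + (1 - p) * anti ε n y0 U ^ 2 := by
          apply av_mono
          intro U
          set A := anti ε n y1 U
          set B := anti ε n y0 U
          have e1 : (fun u => (B + (p + (1 + ε) * (φ u - p)) * (A - B)) ^ 2) =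
              fun u => (B ^ 2 + (2 * B * (A - B)) * (p + (1 + ε) * (φ u - p))) +
                (A - B) ^ 2 * (p + (1 + ε) * (φ u - p)) ^ 2 := by
            funext u
            ring
          rw [e1, av_add, av_add, av_const, av_smul, av_smul, hlin]
          nlinarith [mul_le_mul_of_nonneg_left hq (sq_nonneg (A - B))]
      _ = p * (av fun U => anti ε n y1 U ^ 2) + (1 - p) * av fun U => anti ε n y0 U ^ 2 := by
          rw [av_add, av_smul, av_smul]
      _ ≤ p * av y1 + (1 - p) * av y0 :=
          add_le_add (mul_le_mul_of_nonneg_left (ih y1 h1) hp0)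
            (mul_le_mul_of_nonneg_left (ih y0 h0) (by linarith))
      _ = av fun U => av fun u => φ u * y1 U + (1 - φ u) * y0 U := by
          rw [← av_smul, ← av_smul, ← av_add]
          congr 1
          funext U
          have e1 : (fun u => φ u * y1 U + (1 - φ u) * y0 U) =
              fun u => (y1 U - y0 U) * φ u + y0 U := by
            funext u
            ring
          rw [e1, av_add, av_smul, av_const]
          ring

end Pool.Agent.Lib.SubBisE
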