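import Pool.Agent.Lib.SubBisE.Anti

/-!
# The part of low degree
-/

open scoped BigOperators

namespace Pool.Agent.Lib.SubBisE

open Finset SubBis Pool.Agent.Lib.SubBisX.Reg

variable {n m : ℕ}

theorem dep_mn {j : ℕ} {y : (Fin (n + 1) → Fin m) → ℝ} (h : Dep (j + 1) y) : Dep j (mn y) := by
  intro U U' hU
  unfold mn
  congr 1
  funext x
  apply h
  intro w hw
  refine Fin.cases (fun _ => ?_) (fun w hw => ?_) w hw
  · simp
  · simp only [Fin.cons_succ]
    apply hU
    simpa using hw

theorem dep_dv {j : ℕ} {y : (Fin (n + 1) → Fin m) → ℝ} (h : Dep (j + 1) y) (u : Fin m) :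
    Dep j (dv y u) := by
  intro U U' hU
  unfold dv
  rw [dep_mn h U U' hU]
  congr 1
  apply h
  intro w hw
  refine Fin.cases (fun _ => ?_) (fun w hw => ?_) w hw
  · simp
  · simp only [Fin.cons_succ]
    apply hU
    simpa using hw

theorem low_nil (j d : ℕ) (y : (Fin 0 → Fin m) → ℝ) : low 0 j d y = y := by
  unfold low
  rfl

theorem low_zero_right (d : ℕ) (y : (Fin (n + 1) → Fin m) → ℝ) : low (n + 1) 0 d y = y := by
  unfold low
  rfl

theorem low_succ_zero (j : ℕ) (y : (Fin (n + 1) → Fin m) → ℝ) (u : Fin m) (U : Fin n → Fin m) :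
    low (n + 1) (j + 1) 0 y (Fin.cons u U : Fin (n + 1) → Fin m) = low n j 0 (mn y) U := by
  show low n j 0 (mn y) (fun i => (Fin.cons u U : Fin (n + 1) → Fin m) i.succ) = _
  simp only [Fin.cons_succ]

theorem low_succ_succ (j d : ℕ) (y : (Fin (n + 1) → Fin m) → ℝ) (u : Fin m) (U : Fin n → Fin m) :
    low (n + 1) (j + 1) (d + 1) y (Fin.cons u U : Fin (n + 1) → Fin m) =
      low n j (d + 1) (mn y) U + low n j d (dv y u) U := by
  show low n j (d + 1) (mn y) (fun i => (Fin.cons u U : Fin (n + 1) → Fin m) i.succ) +
    low n j d (dv y ((Fin.cons u U : Fin (n + 1) → Fin m) 0))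
      (fun i => (Fin.cons u U : Fin (n + 1) → Fin m) i.succ) = _
  simp only [Fin.cons_zero, Fin.cons_succ]

theorem low_add : ∀ (n j d : ℕ) (y z : (Fin n → Fin m) → ℝ),
    low n j d (fun U => y U + z U) = fun U => low n j d y U + low n j d z U := by
  intro n
  induction n with
  | zero => intro j d y z; simp only [low_nil]
  | succ n ih =>
    intro j d y z
    cases j with
    | zero => simp only [low_zero_right]
    | succ j =>
      funext U
      rw [← Fin.cons_self_tail U]
      cases d with
      | zero => rw [low_succ_zero, low_succ_zero, low_succ_zero, mn_add, ih]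
      | succ d =>
        rw [low_succ_succ, low_succ_succ, low_succ_succ, mn_add, dv_add, ih, ih]
        ring

theorem low_smul (c : ℝ) : ∀ (n j d : ℕ) (y : (Fin n → Fin m) → ℝ),
    low n j d (fun U => c * y U) = fun U => c * low n j d y U := by
  intro n
  induction n with
  | zero => intro j d y; simp only [low_nil]
  | succ n ih =>
    intro j d y
    cases j with
    | zero => simp only [low_zero_right]
    | succ j =>
      funext U
      rw [← Fin.cons_self_tail U]
      cases d with
      | zero => rw [low_succ_zero, low_succ_zero, mn_smul, ih]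
      | succ d =>
        rw [low_succ_succ, low_succ_succ, mn_smul, dv_smul, ih, ih]
        ring

theorem low_zero (n j d : ℕ) : low (m := m) n j d (fun _ => 0) = fun _ => 0 := by
  have h := low_smul (m := m) 0 n j d (fun _ => 0)
  simpa using h

theorem low_sum {ι : Type*} (j d : ℕ) (s : Finset ι) (y : ι → (Fin n → Fin m) → ℝ) :
    low n j d (fun U => ∑ i ∈ s, y i U) = fun U => ∑ i ∈ s, low n j d (y i) U := by
  classical
  induction s using Finset.induction_on with
  | empty => simp [low_zero]
  | insert a s ha ih =>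
    simp only [Finset.sum_insert ha]
    rw [low_add, ih]

variable [NeZero m]

theorem sum_low_dv (j d : ℕ) (y : (Fin (n + 1) → Fin m) → ℝ) (U : Fin n → Fin m) :
    ∑ u, low n j d (dv y u) U = 0 := by
  have h := low_sum j d (Finset.univ : Finset (Fin m)) (fun u => dv y u)
  rw [sum_dv, low_zero] at h
  exact (congrFun h U).symm

/-- THE RESIDUAL. -/
theorem residual {ε : ℝ} (h0 : 0 ≤ ε) : ∀ (n j d : ℕ) (y : (Fin n → Fin m) → ℝ),
    (1 + ε) ^ (2 * (d + 1)) * (av fun U => (y U - low n j d y U) ^ 2) ≤
      av fun U => anti ε n y U ^ 2 := by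
  intro n
  induction n with
  | zero =>
    intro j d y
    have : (fun U : Fin 0 → Fin m => (y U - low 0 j d y U) ^ 2) = fun _ => (0 : ℝ) := by
      funext U
      rw [low_nil, sub_self]
      norm_num
    rw [this, av_const, mul_zero]
    exact av_nonneg fun U => sq_nonneg _
  | succ n ih =>
    intro j d y
    have h1 : (1 : ℝ) ≤ (1 + ε) ^ 2 := one_le_pow₀ (by linarith)
    cases j with
    | zero =>
      have : (fun U : Fin (n + 1) → Fin m => (y U - low (n + 1) 0 d y U) ^ 2) = fun _ => (0 : ℝ) := by
        funext U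
        rw [low_zero_right, sub_self]
        norm_num
      rw [this, av_const, mul_zero]
      exact av_nonneg fun U => sq_nonneg _
    | succ j =>
      rw [anti_sq, av_cons]
      cases d with
      | zero =>
        have e1 : ∀ (u : Fin m) (U : Fin n → Fin m), y (Fin.cons u U : Fin (n + 1) → Fin m) -
            low (n + 1) (j + 1) 0 y (Fin.cons u U : Fin (n + 1) → Fin m) =
            (mn y U - low n j 0 (mn y) U) + dv y u U := by
          intro u U
          rw [low_succ_zero]
          unfold dv
          ring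
        simp only [e1]
        rw [av_add_sq (fun U => mn y U - low n j 0 (mn y) U) (fun u U => dv y u U)
          fun U => congrFun (sum_dv y) U, mul_add]
        have h2 := ih j 0 (mn y)
        have h3 : (av fun u : Fin m => av fun U : Fin n → Fin m => dv y u U ^ 2) ≤
            av fun u : Fin m => av fun U : Fin n → Fin m => anti ε n (dv y u) U ^ 2 :=
          av_mono fun u => anti_ge h0 n (dv y u)
        have h4 : (1 + ε) ^ (2 * (0 + 1)) = (1 + ε) ^ 2 := by norm_num
        rw [h4] at h2 ⊢
        exact add_le_add h2 (mul_le_mul_of_nonneg_left h3 (by positivity))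
      | succ d =>
        have e1 : ∀ (u : Fin m) (U : Fin n → Fin m), y (Fin.cons u U : Fin (n + 1) → Fin m) -
            low (n + 1) (j + 1) (d + 1) y (Fin.cons u U : Fin (n + 1) → Fin m) =
            (mn y U - low n j (d + 1) (mn y) U) + (dv y u U - low n j d (dv y u) U) := by
          intro u U
          rw [low_succ_succ]
          unfold dv
          ring
        simp only [e1]
        rw [av_add_sq (fun U => mn y U - low n j (d + 1) (mn y) U)
          (fun u U => dv y u U - low n j d (dv y u) U) (fun U => by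
            rw [Finset.sum_sub_distrib, sum_low_dv, sub_zero]
            exact congrFun (sum_dv y) U), mul_add]
        have h2 := ih j (d + 1) (mn y)
        have h3 : (1 + ε) ^ (2 * (d + 1)) * (av fun u : Fin m => av fun U : Fin n → Fin m =>
            (dv y u U - low n j d (dv y u) U) ^ 2) ≤
            av fun u : Fin m => av fun U : Fin n → Fin m => anti ε n (dv y u) U ^ 2 := by
          rw [← av_smul]
          exact av_mono fun u => ih j d (dv y u)
        have h4 : (1 + ε) ^ (2 * (d + 1 + 1)) = (1 + ε) ^ 2 * (1 + ε) ^ (2 * (d + 1)) := by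
          rw [← pow_add]
          congr 1
          ring
        refine add_le_add h2 ?_
        rw [h4, mul_assoc]
        exact mul_le_mul_of_nonneg_left h3 (by positivity)

/-- The residual. -/
theorem low_res {ε : ℝ} (h0 : 0 ≤ ε) : ∀ (n j d : ℕ) (y : (Fin n → Fin m) → ℝ),
    Dep j y → (1 + ε) ^ (2 * (d + 1)) * (av fun U => (y U - low n j d y U) ^ 2) ≤
      av fun U => anti ε n y U ^ 2 := fun n j d y _ => residual h0 n j d y

/-- The mean of the absolute value. -/
theorem av_abs_le {Ω : Type*} [Fintype Ω] [Nonempty Ω] (f : Ω → ℝ) {r : ℝ} (hr : 0 < r)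
    (h : (av fun w => f w ^ 2) ≤ r ^ 2) : (av fun w => |f w|) ≤ r := by
  have h1 : (av fun w => |f w|) ≤ av fun w => (1 / (2 * r)) * f w ^ 2 + r / 2 := by
    apply av_mono
    intro w
    have h2 : 0 ≤ (|f w| - r) ^ 2 := sq_nonneg _
    have h3 : |f w| ^ 2 = f w ^ 2 := sq_abs _
    have h4 : (1 / (2 * r)) * f w ^ 2 + r / 2 = (f w ^ 2 + r ^ 2) / (2 * r) := by
      field_simp
    rw [h4, le_div_iff₀ (by positivity)]
    nlinarith
  refine h1.trans ?_
  rw [av_add, av_smul, av_const]
  have h5 : (1 / (2 * r)) * (av fun w => f w ^ 2) ≤ (1 / (2 * r)) * r ^ 2 :=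
    mul_le_mul_of_nonneg_left h (by positivity)
  have h6 : (1 / (2 * r)) * r ^ 2 = r / 2 := by
    field_simp
  linarith

/-- the residual in mean, for a process of admissible decisions -/
theorem low_tree {ε : ℝ} (h0 : 0 ≤ ε) {j d : ℕ} {y : (Fin n → Fin m) → ℝ}
    (hy : Tree ε n y) (hd : Dep j y) :
    (av fun U => |low n j d y U - y U|) ≤ 1 / (1 + ε) ^ (d + 1) := by
  have hpos : 0 < (1 + ε) ^ (d + 1) := by positivity
  have h1 : av y ≤ 1 := by
    have := av_mono (f := y) (g := fun _ => 1) fun U => (tree_mem n y hy U).2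
    rwa [av_const] at this
  have h2 := (low_res h0 n j d y hd).trans ((anti_tree h0 n y hy).trans h1)
  have h3 : (1 + ε) ^ (2 * (d + 1)) = ((1 + ε) ^ (d + 1)) ^ 2 := by
    rw [← pow_mul]
    congr 1
    ring
  have h4 : (av fun U => (low n j d y U - y U) ^ 2) = av fun U => (y U - low n j d y U) ^ 2 := by
    congr 1
    funext U
    ring
  apply av_abs_le _ (by positivity)
  rw [h4, div_pow, one_pow, le_div_iff₀ (by positivity), ← h3, mul_comm]
  exact h2

end Pool.Agent.Lib.SubBisE
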