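import Pool.Agent.Lib.SubBisE.Anti
import Pool.Agent.Lib.SubBisE.Low

/-!
# The part of low degree is in a ball of the space with the kernel
-/

set_option autoImplicit false

open scoped BigOperators

namespace Pool.Agent.Lib.SubBisE

open Finset SubBis Pool.Agent.Lib.SubBisX.Reg Pool.Agent.Lib.SubBisX.Core
open Pool.Agent.Lib.SubBisX

variable {n k m : ℕ}

section psd

variable {Ω Ω' β : Type*}

theorem Psd.add {K L : Ω → Ω → ℝ} (hK : Psd K) (hL : Psd L) : Psd fun U U' => K U U' + L U U' := by
  intro T γ U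
  have h : ∑ τ ∈ range T, ∑ σ ∈ range T, γ τ * γ σ * (K (U τ) (U σ) + L (U τ) (U σ)) =
      ∑ τ ∈ range T, ∑ σ ∈ range T, γ τ * γ σ * K (U τ) (U σ) +
        ∑ τ ∈ range T, ∑ σ ∈ range T, γ τ * γ σ * L (U τ) (U σ) := by
    rw [← Finset.sum_add_distrib]
    apply Finset.sum_congr rfl
    intro τ _
    rw [← Finset.sum_add_distrib]
    apply Finset.sum_congr rfl
    intro σ _
    ring
  rw [h]
  exact add_nonneg (hK T γ U) (hL T γ U)

theorem Psd.smul {K : Ω → Ω → ℝ} (hK : Psd K) {c : ℝ} (hc : 0 ≤ c) :
    Psd fun U U' => c * K U U' := by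
  intro T γ U
  have h : ∑ τ ∈ range T, ∑ σ ∈ range T, γ τ * γ σ * (c * K (U τ) (U σ)) =
      c * ∑ τ ∈ range T, ∑ σ ∈ range T, γ τ * γ σ * K (U τ) (U σ) := by
    rw [Finset.mul_sum]
    apply Finset.sum_congr rfl
    intro τ _
    rw [Finset.mul_sum]
    apply Finset.sum_congr rfl
    intro σ _
    ring
  rw [h]
  exact mul_nonneg hc (hK T γ U)

theorem psd_zero : Psd fun (_ _ : Ω) => 0 := by
  intro T γ U
  simp

theorem Psd.sum {ι : Type*} (s : Finset ι) {K : ι → Ω → Ω → ℝ} (hK : ∀ i ∈ s, Psd (K i)) :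
    Psd fun U U' => ∑ i ∈ s, K i U U' := by
  classical
  induction s using Finset.induction_on with
  | empty => simpa using psd_zero
  | insert a s ha ih =>
    simp only [Finset.sum_insert ha]
    exact (hK a (Finset.mem_insert_self a s)).add
      (ih fun i hi => hK i (Finset.mem_insert_of_mem hi))

theorem Psd.comp {K : Ω → Ω → ℝ} (hK : Psd K) (f : Ω' → Ω) : Psd fun U U' => K (f U) (f U') :=
  fun T γ U => hK T γ fun τ => f (U τ)

/-- the sum over the classes of a key -/
theorem sum_key [Fintype β] [DecidableEq β] (K : Ω → Ω → ℝ) (key : Ω → β) (T : ℕ) (γ : ℕ → ℝ)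
    (U : ℕ → Ω) :
    ∑ b, ∑ τ ∈ range T, ∑ σ ∈ range T, (if key (U τ) = b then γ τ else 0) *
        (if key (U σ) = b then γ σ else 0) * K (U τ) (U σ) =
      ∑ τ ∈ range T, ∑ σ ∈ range T, γ τ * γ σ *
        ((if key (U τ) = key (U σ) then 1 else 0) * K (U τ) (U σ)) := by
  rw [Finset.sum_comm]
  apply Finset.sum_congr rfl
  intro τ _
  rw [Finset.sum_comm]
  apply Finset.sum_congr rfl
  intro σ _
  have h : ∀ b : β, (if key (U τ) = b then γ τ else 0) *
        (if key (U σ) = b then γ σ else 0) * K (U τ) (U σ) =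
      if key (U τ) = b then γ τ * γ σ * ((if key (U τ) = key (U σ) then 1 else 0) * K (U τ) (U σ))
      else 0 := by
    intro b
    by_cases h1 : key (U τ) = b
    · subst h1
      by_cases h2 : key (U σ) = key (U τ)
      · simp [h2]
      · have h3 : ¬ key (U τ) = key (U σ) := fun h => h2 h.symm
        simp [h2, h3]
    · simp [h1]
  simp only [h]
  rw [Finset.sum_ite_eq univ (key (U τ))]
  simp

theorem Psd.mul_eq [Fintype β] [DecidableEq β] {K : Ω → Ω → ℝ} (hK : Psd K) (key : Ω → β) :
    Psd fun U U' => (if key U = key U' then 1 else 0) * K U U' := by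
  intro T γ U
  rw [← sum_key K key T γ U]
  exact Finset.sum_nonneg fun b _ => hK T _ U

theorem psd_one : Psd fun (_ _ : Ω) => 1 := by
  intro T γ U
  have h : ∑ τ ∈ range T, ∑ σ ∈ range T, γ τ * γ σ * 1 = (∑ τ ∈ range T, γ τ) ^ 2 := by
    rw [sq, Finset.sum_mul_sum]
    simp
  rw [h]
  positivity

end psd

theorem agr_eq_sum (j : ℕ) (U U' : Fin n → Fin m) :
    (agr j U U' : ℝ) = ∑ w : Fin n, if (w : ℕ) < j then (if U w = U' w then 1 else 0) else 0 := by
  unfold agr
  rw [Finset.card_filter]
  push_cast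
  apply Finset.sum_congr rfl
  intro w _
  by_cases h1 : (w : ℕ) < j <;> by_cases h2 : U w = U' w <;> simp [h1, h2]

theorem psd_ker (j i : ℕ) : Psd fun U U' : Fin n → Fin m => (ker i j U U' : ℝ) := by
  induction i with
  | zero =>
    simp only [ker, pow_zero, Nat.cast_one]
    exact psd_one
  | succ i ih =>
    have h : (fun U U' : Fin n → Fin m => (ker (i + 1) j U U' : ℝ)) = fun U U' =>
        (ker i j U U' : ℝ) + ∑ w : Fin n, (if (w : ℕ) < j then 1 else 0) *
          ((if U w = U' w then 1 else 0) * (ker i j U U' : ℝ)) := by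
      funext U U'
      have h1 : (ker (i + 1) j U U' : ℝ) = (1 + agr j U U') * (ker i j U U' : ℝ) := by
        unfold ker
        push_cast
        ring
      rw [h1, agr_eq_sum, add_mul, one_mul, Finset.sum_mul]
      congr 1
      apply Finset.sum_congr rfl
      intro w _
      by_cases h1 : (w : ℕ) < j <;> by_cases h2 : U w = U' w <;> simp [h1, h2]
    rw [h]
    apply ih.add
    apply Psd.sum
    intro w _
    apply Psd.smul
    · exact ih.mul_eq fun U : Fin n → Fin m => U w
    · split_ifs <;> norm_num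

theorem agr_succ (j : ℕ) (U U' : Fin (n + 1) → Fin m) :
    agr (j + 1) U U' = (if U 0 = U' 0 then 1 else 0) +
      agr j (fun i : Fin n => U i.succ) (fun i : Fin n => U' i.succ) := by
  unfold agr
  rw [Finset.card_filter, Finset.card_filter, Fin.sum_univ_succ]
  simp

theorem agr_zero (U U' : Fin n → Fin m) : agr 0 U U' = 0 := by
  unfold agr
  simp

theorem agr_nil (j : ℕ) (U U' : Fin 0 → Fin m) : agr j U U' = 0 := by
  unfold agr
  simp

/-- a constant is in the ball -/
theorem ball_const {Ω : Type*} {K : Ω → Ω → ℝ} (hK : ∀ U U', K U U' = 1) {a : Ω → ℝ} {c0 R : ℝ}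
    (ha : ∀ U, a U = c0) (hR : c0 ^ 2 ≤ R) : InBall K a R := by
  intro T γ U
  have h : ∑ τ ∈ range T, ∑ σ ∈ range T, γ τ * γ σ * K (U τ) (U σ) = (∑ τ ∈ range T, γ τ) ^ 2 := by
    rw [sq, Finset.sum_mul_sum]
    simp [hK]
  rw [h]
  simp only [ha]
  rw [← Finset.sum_mul]
  nlinarith [sq_nonneg (∑ τ ∈ range T, γ τ - c0)]

/-- The kernel of one more digit. -/
theorem psd_step (j d : ℕ) : Psd fun U U' : Fin (n + 1) → Fin m =>
    (ker (d + 1) (j + 1) U U' : ℝ) -
      ((ker (d + 1) j (fun i : Fin n => U i.succ) (fun i : Fin n => U' i.succ) : ℝ) +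
        (if U 0 = U' 0 then 1 else 0) *
          (ker d j (fun i : Fin n => U i.succ) (fun i : Fin n => U' i.succ) : ℝ)) := by
  have h : (fun U U' : Fin (n + 1) → Fin m =>
    (ker (d + 1) (j + 1) U U' : ℝ) -
      ((ker (d + 1) j (fun i : Fin n => U i.succ) (fun i : Fin n => U' i.succ) : ℝ) +
        (if U 0 = U' 0 then 1 else 0) *
          (ker d j (fun i : Fin n => U i.succ) (fun i : Fin n => U' i.succ) : ℝ))) =
      fun U U' => (if U 0 = U' 0 then 1 else 0) *
        ((∑ i ∈ range d, ((d + 1).choose i : ℝ) *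
          (ker i j (fun i : Fin n => U i.succ) (fun i : Fin n => U' i.succ) : ℝ)) +
          d * (ker d j (fun i : Fin n => U i.succ) (fun i : Fin n => U' i.succ) : ℝ)) := by
    funext U U'
    unfold ker
    rw [agr_succ]
    set a := agr j (fun i : Fin n => U i.succ) (fun i : Fin n => U' i.succ)
    by_cases h0 : U 0 = U' 0
    · simp only [h0, if_true, one_mul]
      push_cast
      have h1 : (1 + (1 + (a : ℝ))) ^ (d + 1) = ∑ i ∈ range (d + 1 + 1),
          (1 + (a : ℝ)) ^ i * ((d + 1).choose i : ℝ) := by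
        rw [add_comm (1 : ℝ) (1 + (a : ℝ)), add_pow]
        simp
      rw [h1, Finset.sum_range_succ, Finset.sum_range_succ, Nat.choose_self, Nat.choose_succ_self_right]
      have h2 : ∑ i ∈ range d, (1 + (a : ℝ)) ^ i * ((d + 1).choose i : ℝ) =
          ∑ i ∈ range d, ((d + 1).choose i : ℝ) * (1 + (a : ℝ)) ^ i :=
        Finset.sum_congr rfl fun i _ => mul_comm _ _
      rw [h2]
      push_cast
      ring
    · simp [h0]
  rw [h]
  apply Psd.mul_eq (β := Fin m) _ (fun U : Fin (n + 1) → Fin m => U 0)
  apply Psd.add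
  · apply Psd.sum
    intro i _
    apply Psd.smul _ (Nat.cast_nonneg _)
    exact (psd_ker j i).comp fun U : Fin (n + 1) → Fin m => fun i : Fin n => U i.succ
  · apply Psd.smul _ (Nat.cast_nonneg _)
    exact (psd_ker j d).comp fun U : Fin (n + 1) → Fin m => fun i : Fin n => U i.succ

/-- **The part of low degree is in the ball.** -/
theorem low_ball [NeZero m] : ∀ (n j d : ℕ) (y : (Fin n → Fin m) → ℝ), Dep j y →
    InBall (fun U U' => (ker d j U U' : ℝ)) (low n j d y) ((m : ℝ) ^ d * av fun U => y U ^ 2) := by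
  intro n
  have hm1 : (1 : ℝ) ≤ m := by
    have : 0 < m := Nat.pos_of_ne_zero (NeZero.ne m)
    exact_mod_cast this
  have hconst : ∀ (n : ℕ) (d : ℕ) (y : (Fin n → Fin m) → ℝ) (c0 : ℝ), (∀ U, y U = c0) →
      c0 ^ 2 ≤ (m : ℝ) ^ d * av fun U => y U ^ 2 := by
    intro n d y c0 h
    simp only [h]
    rw [av_const]
    have := one_le_pow₀ (n := d) hm1
    nlinarith [sq_nonneg c0]
  induction n with
  | zero =>
    intro j d y _
    rw [low_nil]
    have hy : ∀ U, y U = y Fin.elim0 := fun U => by
      congr 1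
      exact Subsingleton.elim _ _
    apply ball_const _ hy (hconst 0 d y _ hy)
    intro U U'
    unfold ker
    rw [agr_nil]
    simp
  | succ n ih =>
    intro j d y hy
    cases j with
    | zero =>
      rw [low_zero_right]
      have hc : ∀ U, y U = y fun _ => 0 := fun U => hy U _ fun w hw => absurd hw (by omega)
      apply ball_const _ hc (hconst (n + 1) d y _ hc)
      intro U U'
      unfold ker
      rw [agr_zero]
      simp
    | succ j =>
      have hlow : ∀ U : Fin (n + 1) → Fin m, (fun i => U i.succ) = Fin.tail U := fun U => rfl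
      have hsq := av_sq y
      have hnn : 0 ≤ av fun u : Fin m => av fun U : Fin n → Fin m => dv y u U ^ 2 :=
        av_nonneg fun u => av_nonneg fun U => sq_nonneg _
      cases d with
      | zero =>
        intro T γ U
        have h1 := ih j 0 (mn y) (dep_mn hy) T γ fun τ => Fin.tail (U τ)
        have h2 : ∀ τ, low (n + 1) (j + 1) 0 y (U τ) = low n j 0 (mn y) (Fin.tail (U τ)) := by
          intro τ
          conv_lhs => rw [← Fin.cons_self_tail (U τ)]
          rw [low_succ_zero]
        simp only [h2]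
        simp only [ker, pow_zero, one_mul, Nat.cast_one] at h1 ⊢
        linarith
      | succ d =>
        intro T γ U
        have h1 := ih j (d + 1) (mn y) (dep_mn hy) T γ fun τ => Fin.tail (U τ)
        have h2 : ∀ τ, low (n + 1) (j + 1) (d + 1) y (U τ) =
            low n j (d + 1) (mn y) (Fin.tail (U τ)) + low n j d (dv y (U τ 0)) (Fin.tail (U τ)) := by
          intro τ
          conv_lhs => rw [← Fin.cons_self_tail (U τ)]
          rw [low_succ_succ]
        have h3 : ∀ u : Fin m, 2 * ∑ τ ∈ range T, (if U τ 0 = u then γ τ else 0) *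
            low n j d (dv y u) (Fin.tail (U τ)) ≤ ((m : ℝ) ^ d * av fun U => dv y u U ^ 2) +
            ∑ τ ∈ range T, ∑ σ ∈ range T, (if U τ 0 = u then γ τ else 0) *
              (if U σ 0 = u then γ σ else 0) * (ker d j (Fin.tail (U τ)) (Fin.tail (U σ)) : ℝ) :=
          fun u => ih j d (dv y u) (dep_dv hy u) T (fun τ => if U τ 0 = u then γ τ else 0)
            fun τ => Fin.tail (U τ)
        have h4 := Finset.sum_le_sum fun u (_ : u ∈ (univ : Finset (Fin m))) => h3 u
        rw [Finset.sum_add_distrib] at h4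
        have h5 : ∑ u : Fin m, 2 * ∑ τ ∈ range T, (if U τ 0 = u then γ τ else 0) *
            low n j d (dv y u) (Fin.tail (U τ)) =
            2 * ∑ τ ∈ range T, γ τ * low n j d (dv y (U τ 0)) (Fin.tail (U τ)) := by
          rw [← Finset.mul_sum, Finset.sum_comm]
          congr 1
          apply Finset.sum_congr rfl
          intro τ _
          have : ∀ u : Fin m, (if U τ 0 = u then γ τ else 0) * low n j d (dv y u) (Fin.tail (U τ)) =
              if U τ 0 = u then γ τ * low n j d (dv y u) (Fin.tail (U τ)) else 0 := by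
            intro u
            split_ifs <;> simp
          simp only [this]
          rw [Finset.sum_ite_eq univ (U τ 0)]
          simp
        have h6 := sum_key (fun U U' : Fin (n + 1) → Fin m =>
          (ker d j (Fin.tail U) (Fin.tail U') : ℝ)) (fun U => U 0) T γ U
        have h7 : ∑ u : Fin m, ((m : ℝ) ^ d * av fun U : Fin n → Fin m => dv y u U ^ 2) =
            (m : ℝ) ^ (d + 1) * av fun u : Fin m => av fun U : Fin n → Fin m => dv y u U ^ 2 := by
          rw [← Finset.mul_sum, pow_succ, mul_assoc]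
          congr 1
          have hm0 : (m : ℝ) ≠ 0 := by linarith
          conv_rhs => rw [av]
          rw [Fintype.card_fin]
          field_simp
        have h8 := psd_step (n := n) (m := m) j d T γ U
        have h9 : ∑ τ ∈ range T, ∑ σ ∈ range T, γ τ * γ σ *
            ((ker (d + 1) (j + 1) (U τ) (U σ) : ℝ) -
              ((ker (d + 1) j (fun i : Fin n => U τ i.succ) (fun i : Fin n => U σ i.succ) : ℝ) +
                (if U τ 0 = U σ 0 then 1 else 0) *
                  (ker d j (fun i : Fin n => U τ i.succ) (fun i : Fin n => U σ i.succ) : ℝ))) =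
            ∑ τ ∈ range T, ∑ σ ∈ range T, γ τ * γ σ * (ker (d + 1) (j + 1) (U τ) (U σ) : ℝ) -
            (∑ τ ∈ range T, ∑ σ ∈ range T, γ τ * γ σ *
              (ker (d + 1) j (Fin.tail (U τ)) (Fin.tail (U σ)) : ℝ) +
            ∑ τ ∈ range T, ∑ σ ∈ range T, γ τ * γ σ * ((if U τ 0 = U σ 0 then 1 else 0) *
                  (ker d j (Fin.tail (U τ)) (Fin.tail (U σ)) : ℝ))) := by
          rw [← Finset.sum_add_distrib, ← Finset.sum_sub_distrib]
          apply Finset.sum_congr rfl
          intro τ _
          rw [← Finset.sum_add_distrib, ← Finset.sum_sub_distrib]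
          apply Finset.sum_congr rfl
          intro σ _
          show γ τ * γ σ * ((ker (d + 1) (j + 1) (U τ) (U σ) : ℝ) -
              ((ker (d + 1) j (Fin.tail (U τ)) (Fin.tail (U σ)) : ℝ) +
                (if U τ 0 = U σ 0 then 1 else 0) *
                  (ker d j (Fin.tail (U τ)) (Fin.tail (U σ)) : ℝ))) = _
          ring
        have h10 : 2 * ∑ τ ∈ range T, γ τ * low (n + 1) (j + 1) (d + 1) y (U τ) =
            2 * ∑ τ ∈ range T, γ τ * low n j (d + 1) (mn y) (Fin.tail (U τ)) +
            2 * ∑ τ ∈ range T, γ τ * low n j d (dv y (U τ 0)) (Fin.tail (U τ)) := by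
          rw [← mul_add, ← Finset.sum_add_distrib]
          congr 1
          apply Finset.sum_congr rfl
          intro τ _
          rw [h2]
          ring
        rw [h9] at h8
        rw [h5, h7, h6] at h4
        rw [h10, hsq, mul_add]
        linarith

end Pool.Agent.Lib.SubBisE
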