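import Pool.Agent.Lib.SubBisE.Site
import Pool.Agent.Lib.SubBisE.Anti

/-!
# The smoothed sampler

`P U s` is the probability of `s` given the digits `U`; the process is built by induction on the
number of sites, first site first.
-/

open scoped BigOperators

namespace Pool.Agent.Lib.SubBisE

open Finset SubBis Pool.Agent.Lib.SubBisX Pool.Agent.Lib.SubBisX.Reg

section cons

variable {α : Type*} [Fintype α] {n : ℕ}

theorem sum_cons {β : Type*} [AddCommMonoid β] (f : (Fin (n + 1) → α) → β) :
    ∑ z, f z = ∑ a, ∑ z : Fin n → α, f (Fin.cons a z) := by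
  rw [← (Fin.consEquiv (fun _ : Fin (n + 1) => α)).sum_comp f, Fintype.sum_prod_type]
  rfl

end cons

variable {m : ℕ} {ε : ℝ}

theorem okd_zero : Okd (m := m) ε fun _ => 0 := by
  refine ⟨fun _ => ⟨le_rfl, zero_le_one⟩, ?_⟩
  simp [av]

theorem tree_const [NeZero m] {ε : ℝ} {b : ℝ} (h0 : 0 ≤ b) (h1 : b ≤ 1) :
    ∀ n : ℕ, Tree (m := m) ε n fun _ => b := by
  intro n
  induction n with
  | zero => exact fun _ => ⟨h0, h1⟩
  | succ n ih =>
    refine ⟨fun _ => 0, fun _ => b, fun _ => b, okd_zero, ih, ih, ?_⟩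
    intro u U
    ring

theorem dep_of_upto {n : ℕ} {v : Fin n} {y : (Fin n → Fin m) → ℝ} (h : Upto v y) :
    Dep ((v : ℕ) + 1) y := fun a b hab =>
  h a b fun w hw => hab w (Nat.lt_succ_of_le (Fin.le_def.1 hw))

/-- THE PROCESS. -/
theorem proc [NeZero m] (c : ℕ) {ε : ℝ} (h0 : 0 ≤ ε) (h1 : ε ≤ 1 / 16) :
    ∀ (n : ℕ) (W : (Fin n → Bool) → ℝ), ∃ P : (Fin n → Fin m) → (Fin n → Bool) → ℝ,
      (∀ U s, 0 ≤ P U s) ∧ (∀ U, ∑ s, P U s = 1) ∧
      (c * Real.logb 2 (∑ s, (2 : ℝ) ^ W s) - n * loss m c ε ≤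
        av fun U => ∑ s, P U s * (∑ v, (ee m c (U v) : ℝ) * bit (s v) + c * W s)) ∧
      (∀ v : Fin n, Tree ε n fun U => ∑ s, P U s * bit (s v)) ∧
      ∀ v : Fin n, Dep ((v : ℕ) + 1) fun U => ∑ s, P U s * bit (s v) := by
  intro n
  induction n with
  | zero =>
    intro W
    refine ⟨fun _ _ => 1, fun _ _ => zero_le_one, fun U => by simp, ?_, fun v => v.elim0,
      fun v => v.elim0⟩
    have hW : ∀ s : Fin 0 → Bool, W s = W Fin.elim0 := fun s => by
      congr 1
      exact Subsingleton.elim _ _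
    simp only [hW, Finset.univ_unique, Finset.sum_singleton, Finset.univ_eq_empty,
      Finset.sum_empty, zero_add, one_mul, Nat.cast_zero, zero_mul, sub_zero, av_const]
    rw [Real.logb_rpow (by norm_num) (by norm_num)]
  | succ n ih =>
    intro W
    obtain ⟨P1, hP1, hs1, hv1, ht1, hd1⟩ := ih fun s => W (Fin.cons true s)
    obtain ⟨P0, hP0, hs0, hv0, ht0, hd0⟩ := ih fun s => W (Fin.cons false s)
    set A := Real.logb 2 (∑ z : Fin n → Bool, (2 : ℝ) ^ W (Fin.cons true z)) with hA
    set B := Real.logb 2 (∑ z : Fin n → Bool, (2 : ℝ) ^ W (Fin.cons false z)) with hB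
    obtain ⟨φ, hφ, hval⟩ := site (m := m) c h0 h1 A B
    have hpos : ∀ b : Bool, 0 < ∑ z : Fin n → Bool, (2 : ℝ) ^ W (Fin.cons b z) := by
      intro b
      exact Finset.sum_pos (fun _ _ => Real.rpow_pos_of_pos (by norm_num) _) ⟨fun _ => true, mem_univ _⟩
    have hZ : ∑ z : Fin (n + 1) → Bool, (2 : ℝ) ^ W z = (2 : ℝ) ^ A + (2 : ℝ) ^ B := by
      rw [sum_cons, Fintype.sum_bool, hA, hB, Real.rpow_logb (by norm_num) (by norm_num) (hpos true),
        Real.rpow_logb (by norm_num) (by norm_num) (hpos false)]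
    set P : (Fin (n + 1) → Fin m) → (Fin (n + 1) → Bool) → ℝ := fun U s =>
      if s 0 then φ (U 0) * P1 (Fin.tail U) (Fin.tail s)
      else (1 - φ (U 0)) * P0 (Fin.tail U) (Fin.tail s) with hP
    have hPt : ∀ u U s, P (Fin.cons u U) (Fin.cons true s) = φ u * P1 U s := by
      intro u U s
      rw [hP]
      simp
    have hPf : ∀ u U s, P (Fin.cons u U) (Fin.cons false s) = (1 - φ u) * P0 U s := by
      intro u U s
      rw [hP]
      simp
    have hsum : ∀ u U (f : (Fin (n + 1) → Bool) → ℝ), ∑ s, P (Fin.cons u U) s * f s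
        = φ u * ∑ s, P1 U s * f (Fin.cons true s) + (1 - φ u) * ∑ s, P0 U s * f (Fin.cons false s) := by
      intro u U f
      rw [sum_cons, Fintype.sum_bool]
      simp only [hPt, hPf]
      rw [Finset.mul_sum, Finset.mul_sum]
      congr 1
      · apply Finset.sum_congr rfl
        intro s _
        ring
      · apply Finset.sum_congr rfl
        intro s _
        ring
    have hf0 : ∀ u U, (∑ s, P (Fin.cons u U) s * bit (s 0)) = φ u := by
      intro u U
      rw [hsum u U fun s => bit (s 0)]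
      simp only [Fin.cons_zero, bit_true, bit_false, mul_one, mul_zero, Finset.sum_const_zero,
        add_zero]
      rw [hs1, mul_one]
    have hfw : ∀ (w : Fin n) u U, (∑ s, P (Fin.cons u U) s * bit (s w.succ))
        = φ u * (∑ s, P1 U s * bit (s w)) + (1 - φ u) * ∑ s, P0 U s * bit (s w) := by
      intro w u U
      rw [hsum u U fun s => bit (s w.succ)]
      simp only [Fin.cons_succ]
    refine ⟨P, ?_, ?_, ?_, ?_, ?_⟩
    · intro U s
      rw [hP]
      simp only
      split_ifs
      · exact mul_nonneg (hφ.1 _).1 (hP1 _ _)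
      · exact mul_nonneg (by linarith [(hφ.1 (U 0)).2]) (hP0 _ _)
    · intro U
      rw [← Fin.cons_self_tail U]
      have h := hsum (U 0) (Fin.tail U) fun _ => 1
      simp only [mul_one] at h
      rw [h, hs1, hs0]
      ring
    · rw [hZ, av_cons]
      have hin : ∀ u : Fin m, (ee m c u : ℝ) * φ u + c * (φ u * A + (1 - φ u) * B) - n * loss m c ε
          ≤ av fun U : Fin n → Fin m => ∑ s, P (Fin.cons u U) s *
            (∑ v, (ee m c ((Fin.cons u U : Fin (n + 1) → Fin m) v) : ℝ) * bit (s v) + c * W s) := by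
        intro u
        have e1 : (fun U : Fin n → Fin m => ∑ s, P (Fin.cons u U) s *
            (∑ v, (ee m c ((Fin.cons u U : Fin (n + 1) → Fin m) v) : ℝ) * bit (s v) + c * W s))
            = fun U => ((ee m c u : ℝ) * φ u + φ u * (∑ s, P1 U s *
              (∑ v, (ee m c (U v) : ℝ) * bit (s v) + c * W (Fin.cons true s))))
              + (1 - φ u) * (∑ s, P0 U s *
              (∑ v, (ee m c (U v) : ℝ) * bit (s v) + c * W (Fin.cons false s))) := by
          funext U
          rw [hsum]
          have e2 : ∀ s : Fin n → Bool, P1 U s * (∑ v, (ee m c ((Fin.cons u U : Fin (n + 1) → Fin m) v) : ℝ)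
              * bit ((Fin.cons true s : Fin (n + 1) → Bool) v) + c * W (Fin.cons true s))
              = (ee m c u : ℝ) * P1 U s + P1 U s *
              (∑ v, (ee m c (U v) : ℝ) * bit (s v) + c * W (Fin.cons true s)) := by
            intro s
            rw [Fin.sum_univ_succ]
            simp only [Fin.cons_zero, Fin.cons_succ, bit_true, mul_one]
            ring
          have e3 : ∀ s : Fin n → Bool, P0 U s * (∑ v, (ee m c ((Fin.cons u U : Fin (n + 1) → Fin m) v) : ℝ)
              * bit ((Fin.cons false s : Fin (n + 1) → Bool) v) + c * W (Fin.cons false s))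
              = P0 U s *
              (∑ v, (ee m c (U v) : ℝ) * bit (s v) + c * W (Fin.cons false s)) := by
            intro s
            rw [Fin.sum_univ_succ]
            simp only [Fin.cons_zero, Fin.cons_succ, bit_false, mul_zero, zero_add]
          simp only [e2, e3]
          rw [Finset.sum_add_distrib, ← Finset.mul_sum, hs1]
          ring
        rw [e1, av_add, av_add, av_const, av_smul, av_smul]
        have g1 := mul_le_mul_of_nonneg_left hv1 (hφ.1 u).1
        have g0 := mul_le_mul_of_nonneg_left hv0 (by linarith [(hφ.1 u).2] : 0 ≤ 1 - φ u)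
        linarith
      have hout := av_mono hin
      refine le_trans ?_ hout
      rw [av_sub, av_const]
      push_cast
      linarith
    · intro v
      refine Fin.cases ?_ (fun w => ?_) v
      · refine ⟨φ, fun _ => 1, fun _ => 0, hφ, tree_const zero_le_one le_rfl n,
          tree_const le_rfl zero_le_one n, ?_⟩
        intro u U
        show (∑ s, P (Fin.cons u U) s * bit (s 0)) = _
        rw [hf0]
        ring
      · exact ⟨φ, _, _, hφ, ht1 w, ht0 w, hfw w⟩
    · intro v
      refine Fin.cases ?_ (fun w => ?_) v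
      · intro a b hab
        show (∑ s, P a s * bit (s 0)) = ∑ s, P b s * bit (s 0)
        rw [← Fin.cons_self_tail a, ← Fin.cons_self_tail b, hf0, hf0, hab 0 (by simp)]
      · intro a b hab
        have hab' : ∀ i : Fin n, (i : ℕ) < (w : ℕ) + 1 → Fin.tail a i = Fin.tail b i := fun i hi =>
          hab i.succ (by simpa using hi)
        have k1 : (∑ s, P1 (Fin.tail a) s * bit (s w)) = ∑ s, P1 (Fin.tail b) s * bit (s w) :=
          hd1 w _ _ hab'
        have k0 : (∑ s, P0 (Fin.tail a) s * bit (s w)) = ∑ s, P0 (Fin.tail b) s * bit (s w) :=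
          hd0 w _ _ hab'
        show (∑ s, P a s * bit (s w.succ)) = ∑ s, P b s * bit (s w.succ)
        rw [← Fin.cons_self_tail a, ← Fin.cons_self_tail b, hfw, hfw, hab 0 (by simp), k1, k0]

theorem comparator [NeZero m] {k : ℕ} (c : ℕ) {ε : ℝ} (h0 : 0 ≤ ε) (h1 : ε ≤ 1 / 16)
    (F : Finset (Fin k) → ℤ) :
    ∃ (ys : Fin k → (Fin k → Fin m) → ℝ) (CV : (Fin k → Fin m) → ℝ),
      (∀ v, Tree ε k (ys v)) ∧ (∀ v : Fin k, Dep ((v : ℕ) + 1) (ys v)) ∧
      (∀ v U, 0 ≤ ys v U ∧ ys v U ≤ 1) ∧
      (c * Bounds.logZ F - k * loss m c ε ≤ av CV) ∧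
      ∀ (U : Fin k → Fin m) (g : Fin k → ℝ),
        (∀ S : Finset (Fin k), ∑ v ∈ S, g v ≤ F S) →
          CV U ≤ ∑ v, ((ee m c (U v) : ℝ) - c * g v) * ys v U := by
  obtain ⟨P, hP, hs, hv, ht, hd⟩ := proc (m := m) c h0 h1 k fun s => -(F (Bounds.setOf s) : ℝ)
  refine ⟨fun v U => ∑ s, P U s * bit (s v), fun U => ∑ s, P U s *
    (∑ v, (ee m c (U v) : ℝ) * bit (s v) + c * -(F (Bounds.setOf s) : ℝ)), ht, hd,
    fun v U => tree_mem k _ (ht v) U, ?_, ?_⟩
  · rw [Bounds.sum_bool_eq] at hv
    exact hv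
  · intro U g hg
    have e1 : ∑ v, ((ee m c (U v) : ℝ) - c * g v) * ∑ s, P U s * bit (s v) =
        ∑ s, P U s * (∑ v, (ee m c (U v) : ℝ) * bit (s v) + c * -∑ v, g v * bit (s v)) := by
      simp only [Finset.mul_sum]
      rw [Finset.sum_comm]
      apply Finset.sum_congr rfl
      intro s _
      rw [← Finset.sum_neg_distrib, Finset.mul_sum, ← Finset.sum_add_distrib, Finset.mul_sum]
      apply Finset.sum_congr rfl
      intro v _
      ring
    rw [e1]
    apply Finset.sum_le_sum
    intro s _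
    apply mul_le_mul_of_nonneg_left _ (hP U s)
    have h2 : ∑ v, g v * bit (s v) ≤ (F (Bounds.setOf s) : ℝ) := by
      refine le_trans (le_of_eq ?_) (hg (Bounds.setOf s))
      unfold Bounds.setOf
      rw [Finset.sum_filter]
      apply Finset.sum_congr rfl
      intro v _
      cases s v <;> simp
    have h3 : (0 : ℝ) ≤ c := Nat.cast_nonneg c
    nlinarith [mul_le_mul_of_nonneg_left h2 h3]

end Pool.Agent.Lib.SubBisE
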