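import Pool.Agent.Lib.SubBisE.Reg
import Pool.Agent.Lib.SubBisE.Proc
import Pool.Agent.Lib.SubBisE.Low
import Pool.Agent.Lib.SubBisE.Ball

/-!
# SubBisE.Core (2 h): the mean value of the method

PROOF. Lower bound: `comparator`, `a v = low k (v+1) d (ys v)`, `R = m^d` (`av ys² ≤ 1`, `low_ball`), `low_tree`; average `vl_ge` over
`W = xt w` (`av_coord`: `av_w CV (w τ) = av CV`).
Upper bound: for each `τ < N`: `Bounds.av_update` (`X = Fin k → Fin m`, coordinate `τ` of `w : Fin N → _`); for fixed `w` the steps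
`st τ` do not depend on the world `τ` (`st_congr`), so `U ↦ cl M (yy ..) v` is a function of the digits `≤ v` (`ker d (v+1)`), with
values in `[0, M]`: `Bounds.upper_int` with `X = Fin m`, `d = id`; `vl = ∑ ee yt - c Fhat` by `FCS.fhat_levels` (as in `CA.Phi_eq`).
-/

set_option autoImplicit false

namespace Pool.Agent.Lib.SubBisE

open Finset SubBis Pool.Agent.Lib.SubBisX.Reg Pool.Agent.Lib.SubBisX.Core
open Pool.Agent.Lib.SubBisX

variable {n k m : ℕ}

/-! ### Upper bound -/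

theorem CU.cl_nonneg (M : ℕ) (y : Fin k → ℤ) (v : Fin k) : 0 ≤ cl M y v := le_max_left _ _

theorem CU.cl_le (M : ℕ) (y : Fin k → ℤ) (v : Fin k) : cl M y v ≤ M :=
  max_le (Int.natCast_nonneg M) (min_le_left _ _)

theorem CU.Up_eq (y : Fin k → ℤ) (v : Fin k) : Up y v = insert v (FCS.bef y v) := by
  ext w
  rw [mem_insert, FCS.mem_bef, Up, mem_filter]
  constructor
  · rintro ⟨_, h | ⟨h, h'⟩⟩
    · exact Or.inr (Or.inl h)
    · rcases lt_or_eq_of_le h' with h'' | h''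
      · exact Or.inr (Or.inr ⟨h, h''⟩)
      · exact Or.inl h''
  · rintro (h | h | ⟨h, h'⟩)
    · exact ⟨mem_univ w, Or.inr ⟨by rw [h], le_of_eq h⟩⟩
    · exact ⟨mem_univ w, Or.inl h⟩
    · exact ⟨mem_univ w, Or.inr ⟨h, h'.le⟩⟩

theorem CU.gr_eq (c : ℕ) (F : Finset (Fin k) → ℤ) (v : Fin k) (u : Fin m) (y : Fin k → ℤ) :
    gr c F v u y = ee m c u - c * FCS.kv F y v := by
  unfold gr FCS.kv
  rw [CU.Up_eq]
  rfl

theorem CU.vl_eq (c M : ℕ) {F : Finset (Fin k) → ℤ} (hF0 : F ∅ = 0) (U : Fin k → Fin m)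
    (y : Fin k → ℤ) :
    vl c M F U y = ∑ v, ee m c (U v) * cl M y v - c * Bounds.Fhat F M (cl M y) := by
  have h1 : Bounds.Fhat F M (cl M y) = FCS.fhat F (cl M y) := by
    rw [FCS.fhat_levels hF0 (cl M y) (CU.cl_nonneg M y) (CU.cl_le M y)]
    rfl
  rw [h1]
  unfold vl FCS.fhat
  rw [mul_sum, ← sum_sub_distrib]
  refine sum_congr rfl fun v _ => ?_
  rw [CU.gr_eq]
  ring

theorem CU.ker_congr (d : ℕ) (v : Fin k) (U x x' : Fin k → Fin m) (h : ∀ w ≤ v, x w = x' w) :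
    ker d ((v : ℕ) + 1) U x = ker d ((v : ℕ) + 1) U x' := by
  unfold ker agr
  have : (univ.filter fun w : Fin k => (w : ℕ) < (v : ℕ) + 1 ∧ U w = x w) =
      univ.filter fun w : Fin k => (w : ℕ) < (v : ℕ) + 1 ∧ U w = x' w := by
    refine filter_congr fun w _ => ?_
    constructor
    · rintro ⟨h1, h2⟩
      exact ⟨h1, by rw [h2, h w (Fin.le_def.2 (by omega))]⟩
    · rintro ⟨h1, h2⟩
      exact ⟨h1, by rw [h2, h w (Fin.le_def.2 (by omega))]⟩
  rw [this]

theorem CU.xt_update_self [NeZero m] {N : ℕ} (w : Fin N → Fin k → Fin m) {τ : ℕ} (h : τ < N)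
    (x : Fin k → Fin m) : xt (Function.update w ⟨τ, h⟩ x) τ = x := by
  funext v
  unfold xt
  rw [dif_pos h, Function.update_self]

theorem CU.xt_update_of_ne [NeZero m] {N : ℕ} (w : Fin N → Fin k → Fin m) {τ σ : ℕ} (h : τ < N)
    (hσ : σ ≠ τ) (x : Fin k → Fin m) : xt (Function.update w ⟨τ, h⟩ x) σ = xt w σ := by
  funext v
  unfold xt
  by_cases h' : σ < N
  · rw [dif_pos h', dif_pos h', Function.update_of_ne]
    intro he
    exact hσ (Fin.mk.inj_iff.1 he)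
  · rw [dif_neg h', dif_neg h']

theorem CU.upper_step [NeZero m] {c M d : ℕ} {F : Finset (Fin k) → ℤ} (hF0 : F ∅ = 0) {N : ℕ}
    {τ : ℕ} (hτ : τ < N) :
    (av fun w : Fin N → Fin k → Fin m =>
        (vl c M F (xt w τ) (yy d (st c M d F (xt w) τ) (xt w) τ) : ℝ)) ≤
      M * (c * Bounds.logZ F + k) := by
  rw [← Bounds.av_update (⟨τ, hτ⟩ : Fin N)]
  have hc : (av fun _ : Fin N → Fin k → Fin m => (M * (c * Bounds.logZ F + k) : ℝ)) =
      M * (c * Bounds.logZ F + k) := av_const _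
  rw [← hc]
  refine av_mono fun w => ?_
  set S := st c M d F (xt w) τ with hS
  set Y : (Fin k → Fin m) → Fin k → ℤ := fun x =>
    cl M fun v => ∑ σ ∈ range τ, S σ v * (ker d ((v : ℕ) + 1) (xt w σ) x : ℤ) with hY
  have hst : ∀ x, st c M d F (xt (Function.update w ⟨τ, hτ⟩ x)) τ = S := by
    intro x
    refine st_congr fun σ hσ => ?_
    exact CU.xt_update_of_ne w hτ (ne_of_lt hσ) x
  have hyy : ∀ x, yy d S (xt (Function.update w ⟨τ, hτ⟩ x)) τ =
      fun v => ∑ σ ∈ range τ, S σ v * (ker d ((v : ℕ) + 1) (xt w σ) x : ℤ) := by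
    intro x
    funext v
    unfold yy
    refine sum_congr rfl fun σ hσ => ?_
    rw [CU.xt_update_self w hτ, CU.xt_update_of_ne w hτ (ne_of_lt (mem_range.1 hσ))]
  have h := Bounds.upper_int (m := m) (n := k) (X := Fin m) c M id (fun f => rfl) F Y
    (fun x v => CU.cl_nonneg M _ v) (fun x v => CU.cl_le M _ v) (by
      intro v a b hab
      show clip (M : ℤ) _ = clip (M : ℤ) _
      congr 1
      refine sum_congr rfl fun σ _ => ?_
      rw [CU.ker_congr d v (xt w σ) a b hab])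
  refine (le_of_eq (congrArg av (funext fun x => ?_))).trans h
  rw [hst x, hyy x, CU.xt_update_self w hτ, CU.vl_eq c M hF0]
  rfl

theorem core_upper [NeZero m] {c M d : ℕ} {F : Finset (Fin k) → ℤ} (hF0 : F ∅ = 0) (N : ℕ) :
    (av fun w : Fin N → Fin k → Fin m => (Vl c M d F N (xt w) : ℝ)) ≤
      N * (M * (c * Bounds.logZ F + k)) := by
  have h1 : (fun w : Fin N → Fin k → Fin m => (Vl c M d F N (xt w) : ℝ)) = fun w =>
      ∑ τ ∈ range N, (vl c M F (xt w τ) (yy d (st c M d F (xt w) τ) (xt w) τ) : ℝ) := by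
    funext w
    unfold Vl
    push_cast
    rfl
  rw [h1, av_sum]
  refine (sum_le_card_nsmul _ _ (M * (c * Bounds.logZ F + k) : ℝ) fun τ hτ =>
    CU.upper_step hF0 (mem_range.1 hτ)).trans (le_of_eq ?_)
  rw [card_range, nsmul_eq_mul]

/-! ### Lower bound -/

theorem CU.av_xt [NeZero m] {N : ℕ} {τ : ℕ} (hτ : τ < N) (f : (Fin k → Fin m) → ℝ) :
    (av fun w : Fin N → Fin k → Fin m => f (xt w τ)) = av f := by
  rw [← av_coord (⟨τ, hτ⟩ : Fin N) f]
  refine congrArg av (funext fun w => congrArg f (funext fun v => ?_))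
  unfold xt
  rw [dif_pos hτ]

theorem core_lower [NeZero m] {c M d : ℕ} (hM : 0 < M) {ε : ℝ} (h0 : 0 ≤ ε) (h1 : ε ≤ 1 / 16)
    {F : Finset (Fin k) → ℤ} (hF : FCS.Subm F) (hF0 : F ∅ = 0) {Γ : ℕ}
    (hΓ : ∀ (U : Fin k → Fin m) (y : Fin k → ℤ) v, |gr c F v (U v) y| ≤ Γ) (N : ℕ) :
    N * (M * (c * Bounds.logZ F - k * loss m c ε)) -
        k * ((M : ℝ) ^ 2 * (m : ℝ) ^ d + N * ((Γ : ℝ) ^ 2 * ((k : ℝ) + 1) ^ d)) / 2 -
        M * Γ * (N * (k / (1 + ε) ^ (d + 1))) ≤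
      av fun w : Fin N → Fin k → Fin m => (Vl c M d F N (xt w) : ℝ) := by
  obtain ⟨ys, CV, hT, hD, hys, hCV, hC⟩ := comparator (m := m) c h0 h1 F
  have hR : ∀ v : Fin k, InBall (fun U U' => (ker d ((v : ℕ) + 1) U U' : ℝ))
      (low k ((v : ℕ) + 1) d (ys v)) ((m : ℝ) ^ d) := by
    intro v T γ U
    have h := low_ball k ((v : ℕ) + 1) d (ys v) (hD v) T γ U
    have h2 : (av fun U => ys v U ^ 2) ≤ 1 := by
      have h3 : (av fun _ : Fin k → Fin m => (1 : ℝ)) = 1 := av_const 1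
      rw [← h3]
      refine av_mono fun U => ?_
      obtain ⟨ha, hb⟩ := hys v U
      nlinarith
    have h4 : (m : ℝ) ^ d * (av fun U => ys v U ^ 2) ≤ (m : ℝ) ^ d := by
      have h5 : (0 : ℝ) ≤ (m : ℝ) ^ d := by positivity
      nlinarith
    linarith
  have hv := fun w : Fin N → Fin k → Fin m =>
    vl_ge (m := m) (c := c) (M := M) (d := d) hM hF hF0 hΓ (ys := ys)
      (a := fun v => low k ((v : ℕ) + 1) d (ys v)) (CV := CV) (R := (m : ℝ) ^ d) hys hC hR N (xt w)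
  refine le_trans ?_ (av_mono hv)
  rw [av_sub, av_sub, av_smul, av_smul, av_const, av_sum, av_sum]
  have e1 : ∑ τ ∈ range N, (av fun w : Fin N → Fin k → Fin m => CV (xt w τ)) = N * av CV := by
    rw [sum_congr rfl fun τ hτ => CU.av_xt (mem_range.1 hτ) CV, sum_const, card_range,
      nsmul_eq_mul]
  have e2 : ∑ τ ∈ range N, (av fun w : Fin N → Fin k → Fin m =>
      ∑ v : Fin k, |low k ((v : ℕ) + 1) d (ys v) (xt w τ) - ys v (xt w τ)|) ≤
        N * (k / (1 + ε) ^ (d + 1)) := by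
    refine (sum_le_card_nsmul _ _ ((k : ℝ) / (1 + ε) ^ (d + 1)) fun τ hτ => ?_).trans
      (le_of_eq (by rw [card_range, nsmul_eq_mul]))
    rw [CU.av_xt (mem_range.1 hτ) fun U =>
      ∑ v : Fin k, |low k ((v : ℕ) + 1) d (ys v) U - ys v U|, av_sum]
    refine (sum_le_card_nsmul _ _ (1 / (1 + ε) ^ (d + 1)) fun v _ =>
      low_tree h0 (hT v) (hD v)).trans (le_of_eq ?_)
    rw [card_univ, Fintype.card_fin, nsmul_eq_mul]
    ring
  rw [e1]
  have hM' : (0 : ℝ) ≤ M := Nat.cast_nonneg M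
  have hN' : (0 : ℝ) ≤ N := Nat.cast_nonneg N
  have hG' : (0 : ℝ) ≤ Γ := Nat.cast_nonneg Γ
  have e3 : (N : ℝ) * (M * (c * Bounds.logZ F - k * loss m c ε)) ≤ M * (N * av CV) := by
    have := mul_le_mul_of_nonneg_left hCV (mul_nonneg hM' hN')
    linarith
  have e4 := mul_le_mul_of_nonneg_left e2 (mul_nonneg hM' hG')
  linarith

end Pool.Agent.Lib.SubBisE
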