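import Pool.Agent.Lib.SubBisX.CoreDefs
import Pool.Agent.Lib.SubBisX.Bounds
import Pool.Agent.Lib.SubBisX.FCSup

/-!
# The method with policies of low degree (MP_a7c826_lc, time `2 ^ (k ^ (1/3) polylog)`)

A world is a vector of digits `U : Fin k → Fin m`. The method is online gradient ascent over the
adapted families of vectors `y(U)` in the space with the reproducing kernel `ker d v`; the weights
are integers, the unit is `1 / M`.
-/

set_option autoImplicit false

namespace Pool.Agent.Lib.SubBisE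

open Finset SubBis Pool.Agent.Lib.SubBisX.Reg Pool.Agent.Lib.SubBisX.Core
open Pool.Agent.Lib.SubBisX

variable {n k m : ℕ}

/-! ### The method -/

/-- the number of the sites `< j` at which two worlds agree -/
def agr (j : ℕ) (U U' : Fin k → Fin m) : ℕ :=
  (univ.filter fun w : Fin k => (w : ℕ) < j ∧ U w = U' w).card

/-- the kernel of degree `d` on the first `j` sites -/
def ker (d j : ℕ) (U U' : Fin k → Fin m) : ℕ := (1 + agr j U U') ^ d

/-- the policy in the world `W τ`, from the steps `g τ'`, `τ' < τ` -/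
def yy (d : ℕ) (g : ℕ → Fin k → ℤ) (W : ℕ → Fin k → Fin m) (τ : ℕ) (v : Fin k) : ℤ :=
  ∑ σ ∈ range τ, g σ v * (ker d (v + 1) (W σ) (W τ) : ℤ)

/-- the vector clipped to `[0, M]` -/
def cl (M : ℕ) (y : Fin k → ℤ) : Fin k → ℤ := fun v => clip (M : ℤ) (y v)

/-- the step: the supergradient at the clipped vector, not further out of the box -/
def gam (c M : ℕ) (F : Finset (Fin k) → ℤ) (U : Fin k → Fin m) (y : Fin k → ℤ) (v : Fin k) : ℤ :=
  if (M : ℤ) < y v then min (gr c F v (U v) (cl M y)) 0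
  else if y v < 0 then max (gr c F v (U v) (cl M y)) 0
  else gr c F v (U v) (cl M y)

/-- the steps number `< T`; the other entries are zero -/
def st (c M d : ℕ) (F : Finset (Fin k) → ℤ) (W : ℕ → Fin k → Fin m) : ℕ → ℕ → Fin k → ℤ
  | 0 => fun _ _ => 0
  | T + 1 => fun τ => if τ = T then gam c M F (W T) (yy d (st c M d F W T) W T)
      else st c M d F W T τ

/-- the value of the clipped vector (the objective for `F - F ∅`) -/
def vl (c M : ℕ) (F : Finset (Fin k) → ℤ) (U : Fin k → Fin m) (y : Fin k → ℤ) : ℤ :=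
  ∑ v, cl M y v * gr c F v (U v) (cl M y)

/-- the sum of the values over the first `N` steps -/
def Vl (c M d : ℕ) (F : Finset (Fin k) → ℤ) (N : ℕ) (W : ℕ → Fin k → Fin m) : ℤ :=
  ∑ τ ∈ range N, vl c M F (W τ) (yy d (st c M d F W τ) W τ)

/-- a finite sequence of worlds, continued by zeros -/
def xt [NeZero m] {N : ℕ} (w : Fin N → Fin k → Fin m) (τ : ℕ) (v : Fin k) : Fin m :=
  if h : τ < N then w ⟨τ, h⟩ v else 0

/-! ### The analysis -/

/-- A decision `φ u` (probability of `1` if the digit is `u`) whose variance is so small that it is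
still a decision after the anti-noise of strength `ε`. -/
def Okd (ε : ℝ) (φ : Fin m → ℝ) : Prop :=
  (∀ u, 0 ≤ φ u ∧ φ u ≤ 1) ∧
    (1 + ε) ^ 2 * (av (fun u => φ u ^ 2) - av φ ^ 2) ≤ av φ * (1 - av φ)

/-- Probabilities of an event in a process of admissible decisions. -/
def Tree (ε : ℝ) : ∀ n : ℕ, ((Fin n → Fin m) → ℝ) → Prop
  | 0, y => ∀ U, 0 ≤ y U ∧ y U ≤ 1
  | n + 1, y => ∃ (φ : Fin m → ℝ) (y1 y0 : (Fin n → Fin m) → ℝ), Okd ε φ ∧ Tree ε n y1 ∧
      Tree ε n y0 ∧ ∀ (u : Fin m) (U : Fin n → Fin m),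
        y (Fin.cons u U : Fin (n + 1) → Fin m) = φ u * y1 U + (1 - φ u) * y0 U

/-- the function depends on the first `j` digits only -/
def Dep (j : ℕ) (y : (Fin n → Fin m) → ℝ) : Prop :=
  ∀ U U' : Fin n → Fin m, (∀ w : Fin n, (w : ℕ) < j → U w = U' w) → y U = y U'

/-- the mean over the first digit -/
noncomputable def mn (y : (Fin (n + 1) → Fin m) → ℝ) : (Fin n → Fin m) → ℝ :=
  fun U => av fun x : Fin m => y (Fin.cons x U : Fin (n + 1) → Fin m)

/-- the deviation from the mean over the first digit -/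
noncomputable def dv (y : (Fin (n + 1) → Fin m) → ℝ) (u : Fin m) : (Fin n → Fin m) → ℝ :=
  fun U => y (Fin.cons u U : Fin (n + 1) → Fin m) - mn y U

/-- the anti-noise of strength `ε` in every digit -/
noncomputable def anti (ε : ℝ) : ∀ n : ℕ, ((Fin n → Fin m) → ℝ) → (Fin n → Fin m) → ℝ
  | 0, y => y
  | n + 1, y => fun U => anti ε n (fun U' => mn y U' + (1 + ε) * dv y (U 0) U')
      (fun i => U i.succ)

/-- the part of degree `≤ d`, for functions of the first `j` digits -/
noncomputable def low : ∀ (n _j _d : ℕ), ((Fin n → Fin m) → ℝ) → (Fin n → Fin m) → ℝ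
  | 0, _, _, y => y
  | _ + 1, 0, _, y => y
  | n + 1, j + 1, 0, y => fun U => low n j 0 (mn y) (fun i => U i.succ)
  | n + 1, j + 1, d + 1, y => fun U =>
      low n j (d + 1) (mn y) (fun i => U i.succ) + low n j d (dv y (U 0)) (fun i => U i.succ)

/-- `a` is in the ball of squared radius `R` of the space with the kernel `K`. -/
def InBall {Ω : Type*} (K : Ω → Ω → ℝ) (a : Ω → ℝ) (R : ℝ) : Prop :=
  ∀ (T : ℕ) (γ : ℕ → ℝ) (U : ℕ → Ω),
    2 * ∑ τ ∈ range T, γ τ * a (U τ) ≤
      R + ∑ τ ∈ range T, ∑ σ ∈ range T, γ τ * γ σ * K (U τ) (U σ)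

/-- the kernel is positive semidefinite -/
def Psd {Ω : Type*} (K : Ω → Ω → ℝ) : Prop :=
  ∀ (T : ℕ) (γ : ℕ → ℝ) (U : ℕ → Ω),
    0 ≤ ∑ τ ∈ range T, ∑ σ ∈ range T, γ τ * γ σ * K (U τ) (U σ)

/-- the loss per site, in units of `1 / c` -/
noncomputable def loss (m c : ℕ) (ε : ℝ) : ℝ :=
  1 + c * (Real.logb 2 ((m : ℝ) + 1) / m + 8 * ε ^ 2 + 4 / m)

end Pool.Agent.Lib.SubBisE
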