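import Pool.Agent.Lib.SubBisE.ParE
import Pool.Agent.Lib.SubBisC.CParS

/-!
The quality as a function of the size `k` of the vertex cover and of the time `t`.
-/

set_option autoImplicit false

namespace Pool.Agent.Lib.SubBisE

open Finset Pool.Agent.Lib.SubBisX Pool.Agent.Lib.P7sG

/-- The quality. -/
def qE (k t : ℕ) : ℕ := max 1 (min (k + 1) (lg t / (784 * (k + 1).size ^ 2)))

theorem one_le_qE (k t : ℕ) : 1 ≤ qE k t := le_max_left _ _

theorem qE_le (k t : ℕ) : qE k t ≤ k + 1 := by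
  unfold qE
  exact max_le (by omega) (min_le_left _ _)

theorem size_mul_le (a b : ℕ) : (a * b).size ≤ a.size + b.size := by
  rw [Nat.size_le, pow_add]
  exact Nat.mul_lt_mul'' (Nat.lt_size_self a) (Nat.lt_size_self b)

theorem mu_le {k q : ℕ} (hq : q ≤ k + 1) : mu q ≤ 7 * (k + 1).size := by
  have h1 : q.size ≤ (k + 1).size := Nat.size_le_size hq
  have h2 : (q ^ 2).size ≤ q.size + q.size := by
    rw [sq]
    exact size_mul_le q q
  have h3 : 1 ≤ (k + 1).size := Nat.size_pos.2 (by omega)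
  unfold mu ParA.mu
  omega

theorem cost {k t : ℕ} (h : qE k t ≠ 1) : 784 * qE k t * (k + 1).size ^ 2 ≤ lg t := by
  have h1 : qE k t = min (k + 1) (lg t / (784 * (k + 1).size ^ 2)) := by
    unfold qE at h ⊢
    omega
  have h2 : qE k t ≤ lg t / (784 * (k + 1).size ^ 2) := by
    rw [h1]
    exact min_le_right _ _
  have h3 : 0 < (k + 1).size := Nat.size_pos.2 (by omega)
  rw [Nat.le_div_iff_mul_le (by positivity)] at h2
  calc 784 * qE k t * (k + 1).size ^ 2 = qE k t * (784 * (k + 1).size ^ 2) := by ring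
    _ ≤ lg t := h2

theorem pow_dg_le (k t : ℕ) : (k + 1) ^ dg (qE k t) ≤ (k + 1) ^ 80 + 2 ^ lg t := by
  rcases eq_or_ne (qE k t) 1 with h | h
  · rw [h]
    have h1 : dg 1 = 80 := by decide
    rw [h1]
    exact Nat.le_add_right _ _
  · refine le_trans ?_ (Nat.le_add_left _ _)
    have h1 := cost h
    have h2 := mu_le (qE_le k t)
    have h3 : (k + 1) ^ dg (qE k t) ≤ (2 ^ (k + 1).size) ^ dg (qE k t) :=
      Nat.pow_le_pow_left (Nat.lt_size_self _).le _
    refine h3.trans ?_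
    rw [← pow_mul]
    refine Nat.pow_le_pow_right (by norm_num) (le_trans ?_ h1)
    unfold dg
    calc (k + 1).size * (16 * qE k t * mu (qE k t)) ≤
          (k + 1).size * (16 * qE k t * (7 * (k + 1).size)) := by gcongr
      _ = 112 * (qE k t * (k + 1).size ^ 2) := by ring
      _ ≤ 784 * (qE k t * (k + 1).size ^ 2) := Nat.mul_le_mul_right _ (by norm_num)
      _ = 784 * qE k t * (k + 1).size ^ 2 := by ring

theorem two_pow_mudg_le (k t : ℕ) :
    2 ^ (mu (qE k t) * dg (qE k t)) ≤ 2 ^ 400 + 2 ^ lg t := by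
  rcases eq_or_ne (qE k t) 1 with h | h
  · rw [h]
    have h1 : mu 1 * dg 1 = 400 := by decide
    rw [h1]
    exact Nat.le_add_right _ _
  · refine le_trans ?_ (Nat.le_add_left _ _)
    have h1 := cost h
    have h2 := mu_le (qE_le k t)
    refine Nat.pow_le_pow_right (by norm_num) (le_trans ?_ h1)
    unfold dg
    calc mu (qE k t) * (16 * qE k t * mu (qE k t)) ≤
          (7 * (k + 1).size) * (16 * qE k t * (7 * (k + 1).size)) := by gcongr
      _ = 784 * qE k t * (k + 1).size ^ 2 := by ring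

/-- the constant in the exponent -/
def cT : ℝ := 2 ^ 13

/-- the exponent -/
noncomputable def expT (k : ℕ) : ℝ :=
  cT * (k : ℝ) ^ (1 / 3 : ℝ) * Real.logb 2 ((k : ℝ) + 1) ^ (4 / 3 : ℝ)

theorem sq_le_two_pow (n : ℕ) : n ^ 2 ≤ 2 ^ (n + 1) := by
  induction n with
  | zero => norm_num
  | succ n ih =>
    have h1 : 2 * n + 1 ≤ 2 ^ (n + 1) := by
      clear ih
      induction n with
      | zero => norm_num
      | succ n ih =>
        rw [pow_succ]
        omega
    calc (n + 1) ^ 2 = n ^ 2 + (2 * n + 1) := by ring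
      _ ≤ 2 ^ (n + 1) + 2 ^ (n + 1) := Nat.add_le_add ih h1
      _ = 2 ^ (n + 1 + 1) := by ring

theorem size_sq_le {k : ℕ} (hk : 1 ≤ k) : (k + 1).size ^ 2 ≤ 8 * k := by
  have h1 : 0 < (k + 1).size := Nat.size_pos.2 (by omega)
  obtain ⟨s, hs⟩ : ∃ s, (k + 1).size = s + 1 := ⟨(k + 1).size - 1, by omega⟩
  have h2 : 2 ^ s ≤ k + 1 := by
    by_contra hcon
    have h3 : (k + 1).size ≤ s := Nat.size_le.2 (by omega)
    omega
  rw [hs]
  calc (s + 1) ^ 2 ≤ 2 ^ (s + 1 + 1) := sq_le_two_pow _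
    _ = 4 * 2 ^ s := by ring
    _ ≤ 4 * (k + 1) := Nat.mul_le_mul_left _ h2
    _ ≤ 8 * k := by omega

theorem size_le_logb (k : ℕ) : ((k + 1).size : ℝ) ≤ Real.logb 2 ((k : ℝ) + 1) + 1 := by
  have h1 : 0 < (k + 1).size := Nat.size_pos.2 (by omega)
  obtain ⟨s, hs⟩ : ∃ s, (k + 1).size = s + 1 := ⟨(k + 1).size - 1, by omega⟩
  have h2 : 2 ^ s ≤ k + 1 := by
    by_contra hcon
    have h3 : (k + 1).size ≤ s := Nat.size_le.2 (by omega)
    omega
  rw [hs]
  have h3 : ((2 : ℝ) ^ s) ≤ (k : ℝ) + 1 := by exact_mod_cast h2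
  have h4 : (s : ℝ) ≤ Real.logb 2 ((k : ℝ) + 1) := by
    rw [Real.le_logb_iff_rpow_le one_lt_two (by positivity), Real.rpow_natCast]
    exact h3
  push_cast
  linarith

theorem par_T {k t : ℕ} (hk : 1 ≤ k) (ht : 1 ≤ t) (h : (2 : ℝ) ^ expT k ≤ t) :
    (400 : ℝ) * k ≤ ((qE k t ^ 2 : ℕ) : ℝ) * Real.logb 2 t ∧
      (400 : ℝ) ≤ Real.logb 2 t ∧ (k : ℝ) ≤ t := by
  have hk1 : (1 : ℝ) ≤ k := by exact_mod_cast hk
  have ht0 : (0 : ℝ) < t := by exact_mod_cast ht
  set L := Real.logb 2 (t : ℝ) with hLd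
  set u := Real.logb 2 ((k : ℝ) + 1) with hu
  have hu1 : 1 ≤ u := by
    rw [hu, Real.le_logb_iff_rpow_le one_lt_two (by linarith), Real.rpow_one]
    linarith
  have hu0 : (0 : ℝ) ≤ u := by linarith
  have hL : expT k ≤ L := by
    rw [hLd, Real.le_logb_iff_rpow_le one_lt_two ht0]
    exact h
  set s0 := (k : ℝ) ^ (1 / 3 : ℝ) with hs0
  set w := u ^ (4 / 3 : ℝ) with hw
  have hs01 : 1 ≤ s0 := Real.one_le_rpow hk1 (by norm_num)
  have hwu : u ≤ w := by
    have h1 : u ^ (1 : ℝ) ≤ u ^ (4 / 3 : ℝ) :=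
      Real.rpow_le_rpow_of_exponent_le hu1 (by norm_num)
    rwa [Real.rpow_one] at h1
  have hw1 : 1 ≤ w := hu1.trans hwu
  have hs3 : s0 ^ 3 = k := by
    rw [hs0, ← Real.rpow_natCast, ← Real.rpow_mul (by linarith)]
    norm_num
  have hw3 : w ^ 3 = u ^ 4 := by
    rw [hw, ← Real.rpow_natCast, ← Real.rpow_mul hu0, ← Real.rpow_natCast u 4]
    norm_num
  have hE : expT k = 2 ^ 13 * s0 * w := rfl
  have hE3 : expT k ^ 3 = 2 ^ 39 * k * u ^ 4 := by
    rw [hE, mul_pow, mul_pow, hs3, hw3]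
    norm_num
  have hEu : 8192 * u ≤ expT k := by
    rw [hE]
    have h1 : u ≤ s0 * w := by nlinarith
    nlinarith
  have hE0 : 0 ≤ expT k := by nlinarith
  have hL3 : 2 ^ 39 * (k : ℝ) * u ^ 4 ≤ L ^ 3 := by
    rw [← hE3]
    exact pow_le_pow_left₀ hE0 hL 3
  have hL400 : (8192 : ℝ) ≤ L := by nlinarith
  refine ⟨?_, by linarith, ?_⟩
  · -- the main inequality
    set s := ((k + 1).size : ℝ) with hs
    have hs1 : (1 : ℝ) ≤ s := by
      have h1 : 1 ≤ (k + 1).size := Nat.size_pos.2 (by omega)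
      rw [hs]
      exact_mod_cast h1
    have hsu : s ≤ 2 * u := by
      have h1 := size_le_logb k
      rw [← hs, ← hu] at h1
      linarith
    have hs4 : s ^ 4 ≤ 16 * u ^ 4 := by
      have h1 := pow_le_pow_left₀ (by linarith) hsu 4
      have h2 : (2 * u) ^ 4 = 16 * u ^ 4 := by ring
      linarith
    have hs2 : s ^ 2 ≤ 8 * k := by
      rw [hs]
      exact_mod_cast size_sq_le hk
    have hL35 : 2 ^ 35 * (k : ℝ) * s ^ 4 ≤ L ^ 3 := by
      refine le_trans ?_ hL3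
      calc 2 ^ 35 * (k : ℝ) * s ^ 4 ≤ 2 ^ 35 * (k : ℝ) * (16 * u ^ 4) :=
            mul_le_mul_of_nonneg_left hs4 (by positivity)
        _ = 2 ^ 39 * (k : ℝ) * u ^ 4 := by ring
    have hLs : 2 * (784 * s ^ 2) ≤ L := by
      have h1 : (2 * (784 * s ^ 2)) ^ 3 ≤ L ^ 3 := by
        refine le_trans ?_ hL35
        have h2 : 2 ^ 32 * (s ^ 2 * s ^ 4) ≤ 2 ^ 35 * (k : ℝ) * s ^ 4 := by
          calc 2 ^ 32 * (s ^ 2 * s ^ 4) ≤ 2 ^ 32 * (8 * k * s ^ 4) := by gcongr
            _ = 2 ^ 35 * (k : ℝ) * s ^ 4 := by ring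
        refine le_trans ?_ h2
        have h3 : (2 * (784 * s ^ 2)) ^ 3 = 3855122432 * (s ^ 2 * s ^ 4) := by ring
        rw [h3]
        refine mul_le_mul_of_nonneg_right (by norm_num) (by positivity)
      exact (pow_le_pow_iff_left₀ (by positivity) (by linarith) (by norm_num)).1 h1
    have hlg : L ≤ lg t := by
      rw [hLd, Real.logb_le_iff_le_rpow one_lt_two ht0, Real.rpow_natCast]
      exact_mod_cast (lt_two_pow_lg t).le
    set D := lg t / (784 * (k + 1).size ^ 2) with hD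
    have hA0 : 0 < 784 * (k + 1).size ^ 2 := by
      have h1 : 0 < (k + 1).size := Nat.size_pos.2 (by omega)
      positivity
    have hD1 : (lg t : ℝ) < (D + 1) * (784 * s ^ 2) := by
      have h1 : lg t < (D + 1) * (784 * (k + 1).size ^ 2) := by
        rw [mul_comm]
        exact Nat.lt_mul_div_succ _ hA0
      rw [hs]
      exact_mod_cast h1
    have hD2 : 1 ≤ D := by
      by_contra hcon
      have h0 : D = 0 := Nat.lt_one_iff.1 (not_le.1 hcon)
      rw [h0] at hD1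
      push_cast at hD1
      nlinarith
    have hD1r : (1 : ℝ) ≤ D := by exact_mod_cast hD2
    have hDL : L ≤ 2 * D * (784 * s ^ 2) := by
      have h1 : ((D : ℝ) + 1) * (784 * s ^ 2) ≤ 2 * D * (784 * s ^ 2) :=
        mul_le_mul_of_nonneg_right (by linarith) (by positivity)
      linarith
    have hq : min (k + 1) D ≤ qE k t := le_max_right _ _
    have hq2 : ((min (k + 1) D : ℕ) : ℝ) ^ 2 ≤ ((qE k t ^ 2 : ℕ) : ℝ) := by
      exact_mod_cast Nat.pow_le_pow_left hq 2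
    refine le_trans ?_ (mul_le_mul_of_nonneg_right hq2 (by linarith))
    rcases le_total (k + 1) D with h5 | h5
    · rw [min_eq_left h5]
      push_cast
      nlinarith [mul_nonneg (sub_nonneg.2 hk1) (sub_nonneg.2 hL400),
        mul_nonneg (sq_nonneg ((k : ℝ) + 1)) (sub_nonneg.2 hL400)]
    · rw [min_eq_right h5]
      -- `L ^ 3 ≤ (2 D 784 s²)² L`
      have h6 : L ^ 3 ≤ (2 * D * (784 * s ^ 2)) ^ 2 * L := by
        calc L ^ 3 = L ^ 2 * L := by ring
          _ ≤ (2 * D * (784 * s ^ 2)) ^ 2 * L :=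
            mul_le_mul_of_nonneg_right (pow_le_pow_left₀ (by linarith) hDL 2) (by linarith)
      have h7 : 2 ^ 35 * (k : ℝ) * s ^ 4 ≤ (2458624 * ((D : ℝ) ^ 2 * L)) * s ^ 4 := by
        calc 2 ^ 35 * (k : ℝ) * s ^ 4 ≤ L ^ 3 := hL35
          _ ≤ (2 * D * (784 * s ^ 2)) ^ 2 * L := h6
          _ = (2458624 * ((D : ℝ) ^ 2 * L)) * s ^ 4 := by ring
      have h8 : 2 ^ 35 * (k : ℝ) ≤ 2458624 * ((D : ℝ) ^ 2 * L) :=
        le_of_mul_le_mul_right h7 (by positivity)
      have h9 : (2458624 * 400 : ℝ) * k ≤ 2 ^ 35 * k :=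
        mul_le_mul_of_nonneg_right (by norm_num) (by linarith)
      linarith
  · -- `k ≤ t`
    have h1 : (2 : ℝ) ^ u = k + 1 := Real.rpow_logb (by norm_num) (by norm_num) (by linarith)
    have h2 : (2 : ℝ) ^ u ≤ (2 : ℝ) ^ expT k :=
      Real.rpow_le_rpow_of_exponent_le (by norm_num) (by linarith)
    linarith

end Pool.Agent.Lib.SubBisE
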