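import Pool.Agent.Lib.SubBisE.Sys
import Pool.Agent.Lib.SubBisE.ParT
import Pool.Agent.Lib.SubBisC.FinS

/-!
**Theorem.** The number of independent sets of every bipartite graph with `n` vertices and vertex
cover number `k` is approximated within a factor `1 ± 1 / t` in randomised time polynomial in
`2 ^ (k ^ (1 / 3) (log k) ^ (4 / 3))`, `n` and `t`.
-/

set_option autoImplicit false

namespace Pool.Agent.Lib.SubBisE

open Finset Pool.Agent.Lib.PolyTime Pool.Agent.Lib.Pa7c826 Pool.Agent.Lib.Pa7c826t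
open Pool.Agent.Lib.SubBisX Pool.Agent.Lib.P8e91ed.PT Pool.Agent.Lib.P7sG
open Pool.Agent.Lib.SubBisB Pool.Agent.Lib.SubBisC Pool.Agent.Lib.SubBisC.PolyAux

namespace FE

/-! ### Machines -/

section

variable {α : Type} {D : α → Prop} {ctx : List (α → List Bool)} {w : α → List Bool}
  {C : α → Finset ℕ}

/-- The parameters of the estimate are computable. -/
structure QComp (D : α → Prop) (ctx : List (α → List Bool)) (k q : α → ℕ) : Prop where
  kk : PolyN D ctx k
  qq : PolyN D ctx q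
  N : PolyN D ctx (fun a => (k a + 1) ^ dg (q a))
  P : PolyN D ctx (fun a => 2 ^ (mu (q a) * dg (q a)))

section par

variable {k q : α → ℕ}

theorem QComp.Q (h : QComp D ctx k q) : PolyN D ctx (fun a => q a ^ 2) :=
  (h.qq.mul h.qq).congr fun a _ => by ring

theorem QComp.mu (h : QComp D ctx k q) : PolyN D ctx (fun a => mu (q a)) :=
  ParB.poly_mu h.Q

theorem QComp.kap (h : QComp D ctx k q) : PolyN D ctx (fun a => kap (q a)) :=
  ParB.poly_kap h.Q

theorem QComp.two_mu (h : QComp D ctx k q) : PolyN D ctx (fun a => 2 ^ SubBisE.mu (q a)) :=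
  ParB.poly_two_mu h.Q

theorem QComp.dg (h : QComp D ctx k q) : PolyN D ctx (fun a => dg (q a)) :=
  ((PolyN.const 16).mul h.qq).mul h.mu

theorem QComp.Gm (h : QComp D ctx k q) : PolyN D ctx (fun a => Gm (q a)) :=
  h.Q.mul (h.mu.add h.kap)

theorem QComp.MM (h : QComp D ctx k q) : PolyN D ctx (fun a => MM (k a) (q a)) :=
  ((h.Gm.mul h.Gm).mul h.N).congr fun a _ => by
    unfold SubBisE.MM
    ring

theorem QComp.NN (h : QComp D ctx k q) : PolyN D ctx (fun a => NN (k a) (q a)) :=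
  h.MM.mul h.P

theorem QComp.DD (h : QComp D ctx k q) : PolyN D ctx (fun a => DD (k a) (q a)) :=
  (h.NN.mul h.MM).mul h.Q

theorem QComp.KC {n : α → ℕ} (h : QComp D ctx k q) (hn : PolyN D ctx n) :
    PolyN D ctx (fun a => KC (n a) (q a ^ 2)) :=
  FS.poly_KC hn h.Q

theorem QComp.DE {n : α → ℕ} (h : QComp D ctx k q) (hn : PolyN D ctx n) :
    PolyN D ctx (fun a => DE (k a) (n a) (q a)) :=
  (h.KC hn).mul h.DD

theorem QComp.off {n : α → ℕ} (h : QComp D ctx k q) (hn : PolyN D ctx n) :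
    PolyN D ctx (fun a => offE (k a) (n a) (q a)) :=
  (h.KC hn).mul (h.NN.mul (h.kk.mul h.mu))

end par

theorem poly_qE {k t : α → ℕ} (hk : PolyN D ctx k) (ht : PolyN D ctx t) :
    PolyN D ctx (fun a => qE (k a) (t a)) := by
  have hs := Par.poly_size hk.succ
  have h2 : PolyN D ctx (fun a => 784 * (k a + 1).size ^ 2) :=
    ((PolyN.const 784).mul (hs.mul hs)).congr fun a _ => by ring
  have h1 : PolyN D ctx (fun a => lg (t a) / (784 * (k a + 1).size ^ 2)) :=
    Tab.TabAux.divz (poly_lg ht) h2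
  have h3 := Mach.min_poly hk.succ h1
  exact ((PolyN.const 1).add (PolyN.sub h3 (PolyN.const 1))).congr
    (fun a _ => by
      unfold qE
      omega)

theorem qcomp_qE {k t : α → ℕ} (hk : PolyN D ctx k) (ht : PolyN D ctx t)
    (h1 : ∀ a, D a → 1 ≤ t a) : QComp D ctx k (fun a => qE (k a) (t a)) := by
  have hq := poly_qE hk ht
  have hQ : PolyN D ctx (fun a => qE (k a) (t a) ^ 2) := (hq.mul hq).congr fun a _ => by ring
  have hmu : PolyN D ctx (fun a => mu (qE (k a) (t a))) := ParB.poly_mu hQ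
  have hdg : PolyN D ctx (fun a => dg (qE (k a) (t a))) := ((PolyN.const 16).mul hq).mul hmu
  obtain ⟨B, hB⟩ := Bdd.ofN (poly_twoLg ht h1)
  refine ⟨hk, hq, n_pow hk.succ hdg ?_, n_pow (PolyN.const 2) (hmu.mul hdg) ?_⟩
  · exact (Bdd.ofN ((PolyN.pow hk.succ 80).add (poly_twoLg ht h1))).le
      fun a _ => pow_dg_le (k a) (t a)
  · refine ⟨Polynomial.C (2 ^ 400) + B, fun a ha => (two_pow_mudg_le (k a) (t a)).trans ?_⟩
    rw [Polynomial.eval_add, Polynomial.eval_C]
    exact Nat.add_le_add_left (hB a ha) _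

/-- the set `C` is a set of sites -/
def CovD (D : α → Prop) (w : α → List Bool) (C : α → Finset ℕ) : Prop :=
  ∀ a, D a → Cov (nOf (w a)) (aOf (w a)) (adjOf (w a)) (C a)

theorem poly_es (hw : PolyC D ctx w) (hC : PolyS D ctx (fun x => nOf (w x)) C)
    (hcov : CovD D w C) {q nW : α → ℕ} {W : α → Finset ℕ} (hnW : PolyN D ctx nW)
    (hW : PolyS D ctx nW W) (hq : QComp D ctx (fun x => (C x).card) q)
    {r : α → List Bool} (hr : PolyC D ctx r) :
    PolyN D ctx (fun x =>
      esT (nOf (w x)) (aOf (w x)) (adjOf (w x)) (C x) (q x) (r x) (W x)) := by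
  have hn := poly_nOf hw
  have h := Mach.poly_eVE (W := W) (C := C) (μ := fun x => mu (q x)) (c := fun x => q x ^ 2)
    (d := fun x => dg (q x)) (Γ := fun x => Gm (q x)) (M := fun x => MM (C x).card (q x))
    (R := fun x => NN (C x).card (q x)) (κ := fun x => kap (q x))
    (K := fun x => KC (nOf (w x)) (q x ^ 2))
    (den := fun x => DE (C x).card (nOf (w x)) (q x))
    hw hC hnW hW hq.mu hq.two_mu hq.Q hq.dg hq.Gm hq.MM hq.NN hq.N hq.kap (hq.KC hn)
    (hq.DE hn) hr (fun a ha v u y =>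
      abs_gr_le (fun S v => FC_insert (hcov a ha) (W a) v S) v u y)
  exact h

theorem EComp_es (hw : PolyC D ctx w) (hC : PolyS D ctx (fun x => nOf (w x)) C)
    (hcov : CovD D w C) {q : α → ℕ} (hq : QComp D ctx (fun x => (C x).card) q)
    {r : α → List Bool} (hr : PolyC D ctx r) :
    EComp D ctx (fun x => nOf (w x) + nOf (w x)) (fun x => (C x).card) (fun x X =>
      esT (nOf (w x)) (aOf (w x)) (adjOf (w x)) (C x) (q x) (r x) X.2) := by
  unfold EComp
  have lft : ∀ {t : α → List Bool}, PolyC D ctx t →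
      PolyC (fun p : α × (ℕ × Finset ℕ) => D p.1 ∧ p.2.1 ≤ (C p.1).card ∧
        p.2.2 ⊆ range (nOf (w p.1) + nOf (w p.1)))
        (PolyTime.lift ctx ++ [fun p => un p.2.1,
          fun p => msk (nOf (w p.1) + nOf (w p.1)) p.2.2])
        (fun p => t p.1) := fun h => (PolyC.lift h (fun p hp => hp.1)).weakenRight _
  exact poly_es (w := fun p : α × (ℕ × Finset ℕ) => w p.1) (C := fun p => C p.1)
    (nW := fun p => nOf (w p.1) + nOf (w p.1))
    (W := fun p => p.2.2) (q := fun p => q p.1) (r := fun p => r p.1) (lft hw)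
    ⟨lft hC.1, fun p hp => hC.2 p.1 hp.1⟩ (fun p hp => hcov p.1 hp.1)
    (lft ((poly_nOf hw).add (poly_nOf hw)))
    ⟨PolyC.var (by simp), fun p hp => hp.2.2⟩ ⟨lft hq.kk, lft hq.qq, lft hq.N, lft hq.P⟩
    (lft hr)

theorem poly_cntT (hw : PolyC D ctx w) (hC : PolyS D ctx (fun x => nOf (w x)) C)
    (hcov : CovD D w C) {q : α → ℕ} (hq : QComp D ctx (fun x => (C x).card) q)
    {r : α → List Bool} (hr : PolyC D ctx r) {K cap : α → ℕ}
    (hK : PolyN D ctx K) (hcap : PolyN D ctx cap) (hKc : ∀ a, D a → K a ≤ cap a) :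
    PolyN D ctx (fun x => cntT (nOf (w x)) (aOf (w x)) (adjOf (w x)) (C x) (q x) (K x) (cap x)
      (r x)) :=
  poly_countD (n := fun x => nOf (w x) + nOf (w x)) (aN := fun x => (C x).card) (cap := cap)
    (dm := fun x => 10 * nOf (w x) + 1) (off := fun x => offE (C x).card (nOf (w x)) (q x))
    (K := K) (ch := fun x => chC (nOf (w x)) (C x) (adjOf (w x))) (tape := r)
    (e := fun x X => esT (nOf (w x)) (aOf (w x)) (adjOf (w x)) (C x) (q x) (r x) X.2)
    ((poly_nOf hw).add (poly_nOf hw)) (PolyS.card (poly_nOf hw) hC) hcap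
    (((PolyN.const 10).mul (poly_nOf hw)).succ) (hq.off (poly_nOf hw))
    hK hr hKc (fun x => down_chC _ _ _) (cComp_chC hw hC _) (EComp_es hw hC hcov hq hr)

/-- The machine's answer. -/
noncomputable def ansE (n a : ℕ) (adj : ℕ → ℕ → Bool) (C : Finset ℕ) (q t : ℕ)
    (l : List Bool) : List Bool :=
  outN (kapS t + n) (esT n a adj C q l (range (n + n)))
    (cntT n a adj C q (2 ^ kapS t) (capS t) l)

/-- the number of random bits needed -/
def needE (n k q t : ℕ) : ℕ := offE k n q + k * capS t * 2 * (10 * n + 1)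

theorem poly_ansE (hw : PolyC D ctx w) (hC : PolyS D ctx (fun x => nOf (w x)) C)
    (hcov : CovD D w C) {q t : α → ℕ} (hq : QComp D ctx (fun x => (C x).card) q)
    (ht : PolyN D ctx t) (h1 : ∀ a, D a → 1 ≤ t a) {r : α → List Bool} (hr : PolyC D ctx r) :
    PolyC D ctx (fun x =>
      ansE (nOf (w x)) (aOf (w x)) (adjOf (w x)) (C x) (q x) (t x) (r x)) :=
  have hn := poly_nOf hw
  poly_outN (((PolyN.const 4).mul (poly_lg ht)).add hn)
    (poly_es hw hC hcov (hn.add hn) (PolyS.range (hn.add hn)) hq hr)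
    (poly_cntT hw hC hcov hq hr (poly_K ht h1) (poly_cap ht h1)
      (fun a _ => two_pow_kap_le_cap (t a)))

theorem poly_needE {n k q t : α → ℕ} (hn : PolyN D ctx n) (hq : QComp D ctx k q)
    (ht : PolyN D ctx t) (h1 : ∀ a, D a → 1 ≤ t a) :
    PolyN D ctx (fun x => needE (n x) (k x) (q x) (t x)) :=
  (hq.off hn).add (((hq.kk.mul (poly_cap ht h1)).mul (PolyN.const 2)).mul
    (((PolyN.const 10).mul hn).succ))

end

/-! ### Probability -/

/-- **The answer is good with probability three quarters.** -/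
theorem goodE {G : BGraph} {t q : ℕ} {C : Finset ℕ}
    (hC : Cov (G.a + G.b) G.a (adjOf (inCode G t)) C) (hq : 1 ≤ q) (ht : 1 ≤ t)
    (h : C.card = 0 ∨ ((400 : ℝ) * C.card ≤ ((q ^ 2 : ℕ) : ℝ) * Real.logb 2 t ∧
      (400 : ℝ) ≤ Real.logb 2 t ∧ (C.card : ℝ) ≤ t))
    {m : ℕ} (hm : needE (G.a + G.b) C.card q t ≤ m) :
    3 * 2 ^ m ≤ 4 * Nat.card {r : Fin m → Bool // Pa7c826.Good G t
      (ansE (G.a + G.b) G.a (adjOf (inCode G t)) C q t (List.ofFn r))} := by
  classical
  obtain ⟨h1, h2⟩ := params (k := C.card) (Nat.one_le_pow 2 q hq) ht h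
  have ht1 : (1 : ℝ) ≤ t := by exact_mod_cast ht
  have ht0 : (0 : ℝ) < t := by linarith
  have key := prob_SE (K := 2 ^ kapS t) (cap := capS t) (m := m) (t := (t : ℝ)) hq hC ht1
    (by positivity) h1 h2 hm
  refine key.trans (Nat.mul_le_mul_left 4 ?_)
  rw [Nat.card_eq_fintype_card, Fintype.card_subtype]
  refine card_le_card ?_
  intro r hr
  rw [mem_filter] at hr ⊢
  refine ⟨mem_univ _, ?_⟩
  have h3 := hr.2
  rw [ind_eq_numIndep] at h3
  unfold Pa7c826.Good ansE
  rw [outVal_outN]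
  set c := cntT (G.a + G.b) G.a (adjOf (inCode G t)) C q (2 ^ kapS t) (capS t) (List.ofFn r)
  set e := esT (G.a + G.b) G.a (adjOf (inCode G t)) C q (List.ofFn r)
    (range (G.a + G.b + (G.a + G.b)))
  set Z := numIndep G.graph
  set n := G.a + G.b
  have h4 : (|(c : ℝ) * 2 ^ e / 2 ^ (kapS t + n) - Z| : ℝ) ≤ Z / t := by
    have hK : (0 : ℝ) < 2 ^ (kapS t + n) := by positivity
    push_cast at h3
    have e1 : (c : ℝ) * 2 ^ e / 2 ^ (kapS t + n) - Z =
        ((c : ℝ) * 2 ^ e - 2 ^ kapS t * (2 ^ n * Z)) / 2 ^ (kapS t + n) := by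
      rw [pow_add]
      field_simp
    rw [e1, abs_div, abs_of_pos hK, div_le_iff₀ hK]
    refine h3.trans (le_of_eq ?_)
    rw [pow_add]
    ring
  have h5 : ((|(c : ℚ) * 2 ^ e / 2 ^ (kapS t + n) - Z| : ℚ) : ℝ) ≤ ((Z / t : ℚ) : ℝ) := by
    push_cast
    exact h4
  exact_mod_cast h5

/-! ### The theorem -/

/-- The promise. -/
def PTC (G : BGraph) (t : ℕ) : Prop := (2 : ℝ) ^ expT (coverNum G) ≤ t

theorem promise {G : BGraph} {t : ℕ} (hP : PTC G t) (ht : 1 ≤ t) :
    coverNum G = 0 ∨ ((400 : ℝ) * coverNum G ≤ ((qE (coverNum G) t ^ 2 : ℕ) : ℝ) *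
      Real.logb 2 t ∧ (400 : ℝ) ≤ Real.logb 2 t ∧ (coverNum G : ℝ) ≤ t) := by
  rcases Nat.eq_zero_or_pos (coverNum G) with h0 | h0
  · exact Or.inl h0
  · exact Or.inr (par_T h0 ht hP)

/-- **Theorem.** From a computable minimum vertex cover. -/
theorem hasRApx_of_cover {cv : List Bool → Finset ℕ}
    (hpoly : ∀ {α : Type} {D : α → Prop} {ctx : List (α → List Bool)} {w : α → List Bool},
      PolyC D ctx w → PolyS D ctx (fun x => nOf (w x)) (fun x => cv (w x)))
    (hcov : ∀ (G : BGraph) (t : ℕ),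
      Cov (G.a + G.b) G.a (adjOf (inCode G t)) (cv (inCode G t)))
    (hcard : ∀ (G : BGraph) (t : ℕ), (cv (inCode G t)).card = coverNum G) :
    Pa7c826m.HasRApx PTC := by
  refine hasRApx_of
    (need := fun G t => needE (G.a + G.b) (cv (inCode G t)).card
      (qE (cv (inCode G t)).card t) t)
    (out := fun G t r => ansE (G.a + G.b) G.a (adjOf (inCode G t)) (cv (inCode G t))
      (qE (cv (inCode G t)).card t) t r)
    ?_ ?_ ?_
  · have hw : PolyC (fun x : BGraph × ℕ => PTC x.1 x.2 ∧ 1 ≤ x.2) [fun x => inCode x.1 x.2]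
        (fun x => inCode x.1 x.2) := PolyC.var (by simp)
    have ht : PolyN (fun x : BGraph × ℕ => PTC x.1 x.2 ∧ 1 ≤ x.2) [fun x => inCode x.1 x.2]
        (fun x => x.2) := (poly_tOf hw).congr (fun x _ => tOf_inCode x.1 x.2)
    have hk := PolyS.card (poly_nOf hw) (hpoly hw)
    refine (poly_needE (poly_nOf hw) (qcomp_qE hk ht fun x hx => hx.2) ht
      (fun x hx => hx.2)).congr (fun x _ => ?_)
    simp only [nOf_inCode]
  · have hw : PolyC (fun x : BGraph × ℕ × List Bool => PTC x.1 x.2.1 ∧ 1 ≤ x.2.1 ∧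
        needE (x.1.a + x.1.b) (cv (inCode x.1 x.2.1)).card
          (qE (cv (inCode x.1 x.2.1)).card x.2.1) x.2.1 ≤ x.2.2.length)
        [fun x => inCode x.1 x.2.1, fun x => x.2.2] (fun x => inCode x.1 x.2.1) :=
      PolyC.var (by simp)
    have hr : PolyC (fun x : BGraph × ℕ × List Bool => PTC x.1 x.2.1 ∧ 1 ≤ x.2.1 ∧
        needE (x.1.a + x.1.b) (cv (inCode x.1 x.2.1)).card
          (qE (cv (inCode x.1 x.2.1)).card x.2.1) x.2.1 ≤ x.2.2.length)
        [fun x => inCode x.1 x.2.1, fun x => x.2.2] (fun x => x.2.2) :=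
      PolyC.var (by simp)
    have ht : PolyN (fun x : BGraph × ℕ × List Bool => PTC x.1 x.2.1 ∧ 1 ≤ x.2.1 ∧
        needE (x.1.a + x.1.b) (cv (inCode x.1 x.2.1)).card
          (qE (cv (inCode x.1 x.2.1)).card x.2.1) x.2.1 ≤ x.2.2.length)
        [fun x => inCode x.1 x.2.1, fun x => x.2.2] (fun x => x.2.1) :=
      (poly_tOf hw).congr (fun x _ => tOf_inCode x.1 x.2.1)
    have hk := PolyS.card (poly_nOf hw) (hpoly hw)
    refine (poly_ansE hw (hpoly hw) (fun x _ => ?_) (qcomp_qE hk ht fun x hx => hx.2.1) ht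
      (fun x hx => hx.2.1) hr).congr (fun x _ => ?_)
    · have h := hcov x.1 x.2.1
      rw [nOf_inCode, aOf_inCode]
      exact h
    · simp only [nOf_inCode, aOf_inCode]
  · intro G t hP ht N hN
    refine goodE (hcov G t) (one_le_qE _ t) ht ?_ hN
    rw [hcard]
    exact promise hP ht

/-- **Theorem.** -/
theorem hasRApx_PTC : Pa7c826m.HasRApx PTC :=
  hasRApx_of_cover (cv := FS.cvW) (fun hw => poly_cv hw) FS.cov_cvW FS.card_cvW

/-- **Theorem.** -/
theorem hasRTimeG_cover : HasRTimeG fun G => (2 : ℝ) ^ expT (coverNum G) :=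
  hasRTimeG_of hasRApx_PTC

end FE

end Pool.Agent.Lib.SubBisE
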