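import Pool.Agent.Lib.SubBisE.MachDefs
import Pool.Agent.Lib.SubBisE.Defs
import Pool.Agent.Lib.SubBisX.TabBridge

/-!
The arrays of `MachDefs` contain the steps of the method of `Defs`, and `posK - negK` is `Vl`.
-/

set_option autoImplicit false

namespace Pool.Agent.Lib.SubBisE.Mach

open Finset SubBis Pool.Agent.Lib.SubBisX.Reg Pool.Agent.Lib.SubBisX.Core
open Pool.Agent.Lib.SubBisX.Tab

variable {n m : ℕ}

theorem agN_eq {D : ℕ → ℕ} {U U' : Fin n → Fin m} {t t' : ℕ}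
    (hU : ∀ v : Fin n, (U v : ℕ) = D (t * n + v)) (hU' : ∀ v : Fin n, (U' v : ℕ) = D (t' * n + v))
    (v : Fin n) : agN n D t t' v = agr (v + 1) U' U := by
  unfold agN agr
  have h : (univ.filter fun w : Fin n => (w : ℕ) < (v : ℕ) + 1 ∧ U' w = U w).map
      Fin.valEmbedding = (range ((v : ℕ) + 1)).filter fun w => D (t * n + w) = D (t' * n + w) := by
    ext w
    simp only [mem_map, mem_filter, mem_univ, true_and, Fin.valEmbedding_apply, mem_range]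
    constructor
    · rintro ⟨x, ⟨hx, hx'⟩, rfl⟩
      refine ⟨hx, ?_⟩
      rw [← hU x, ← hU' x, hx']
    · rintro ⟨hw, hx⟩
      have hwn : w < n := by
        have := v.isLt
        omega
      refine ⟨⟨w, hwn⟩, ⟨hw, ?_⟩, rfl⟩
      apply Fin.ext
      rw [hU ⟨w, hwn⟩, hU' ⟨w, hwn⟩]
      exact hx.symm
  rw [← h, card_map]

theorem kN_eq {D : ℕ → ℕ} {U U' : Fin n → Fin m} {t t' : ℕ}
    (hU : ∀ v : Fin n, (U v : ℕ) = D (t * n + v)) (hU' : ∀ v : Fin n, (U' v : ℕ) = D (t' * n + v))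
    (d : ℕ) (v : Fin n) : kN n d D t t' v = ker d (v + 1) U' U := by
  unfold kN ker
  rw [agN_eq hU hU', add_comm]

section

variable {D : ℕ → ℕ} {W : ℕ → Fin n → Fin m} {R : ℕ}

/-- The iterate. -/
theorem pq_eq (hW : ∀ t < R, ∀ v : Fin n, (W t v : ℕ) = D (t * n + v)) (d Γ : ℕ) {g : ℕ → ℕ}
    {s : ℕ → Fin n → ℤ} {t : ℕ} (ht : t < R)
    (hg : ∀ t' < t, ∀ v : Fin n, (g (t' * n + v) : ℤ) = s t' v + Γ) (v : Fin n) :
    (pN n d D g t v : ℤ) - qN n d Γ D t v = yy d s W t v := by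
  unfold pN qN yy
  push_cast
  rw [mul_sum, ← sum_sub_distrib]
  refine sum_congr rfl fun t' ht' => ?_
  rw [mem_range] at ht'
  rw [hg t' ht' v, kN_eq (fun v => hW t ht v) (fun v => hW t' (ht'.trans ht) v) d v]
  ring

theorem yN_eq (hW : ∀ t < R, ∀ v : Fin n, (W t v : ℕ) = D (t * n + v)) (d Γ M : ℕ) {g : ℕ → ℕ}
    {s : ℕ → Fin n → ℤ} {t : ℕ} (ht : t < R)
    (hg : ∀ t' < t, ∀ v : Fin n, (g (t' * n + v) : ℤ) = s t' v + Γ) (v : Fin n) :
    cl M (yy d s W t) v = (yN n d Γ M D g t v : ℤ) := by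
  unfold cl yN Pool.Agent.Lib.SubBisX.Reg.clip
  rw [← pq_eq hW d Γ ht hg v]
  omega

theorem grN_eq (hW : ∀ t < R, ∀ v : Fin n, (W t v : ℕ) = D (t * n + v)) (c d Γ M : ℕ)
    (G : Finset ℕ → ℕ)
    (hΓ : ∀ (v : Fin n) (u : Fin m) (y : Fin n → ℤ), |gr c (GF G) v u y| ≤ Γ)
    {g : ℕ → ℕ} {s : ℕ → Fin n → ℤ} {t : ℕ} (ht : t < R)
    (hg : ∀ t' < t, ∀ v : Fin n, (g (t' * n + v) : ℤ) = s t' v + Γ) (v : Fin n) :
    (grN n m c d Γ M G D g t v : ℤ) =
      gr c (GF G) v (W t v) (cl M (yy d s W t)) + Γ := by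
  have h := hΓ v (W t v) (cl M (yy d s W t))
  rw [abs_le] at h
  unfold grN
  have hy := yN_eq hW d Γ M ht hg
  have e : gr c (GF G) v (W t v) (cl M (yy d s W t)) =
      ((Nat.log 2 ((m - D (t * n + v)) ^ c) : ℕ) : ℤ) -
        ((Nat.log 2 ((D (t * n + v) + 1) ^ c) : ℕ) : ℤ) -
        (((c * G (upS n (yN n d Γ M D g t) v) : ℕ) : ℤ) -
          ((c * G (upoS n (yN n d Γ M D g t) v) : ℕ) : ℤ)) := by
    unfold gr GF SubBis.ee
    rw [map_Up hy, map_Upo hy, hW t ht v]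
    push_cast
    ring
  rw [e] at h ⊢
  generalize c * G (upS n (yN n d Γ M D g t) v) = a at h ⊢
  generalize c * G (upoS n (yN n d Γ M D g t) v) = b at h ⊢
  generalize Nat.log 2 ((m - D (t * n + v)) ^ c) = P at h ⊢
  generalize Nat.log 2 ((D (t * n + v) + 1) ^ c) = Q at h ⊢
  omega

theorem gaN_eq (hW : ∀ t < R, ∀ v : Fin n, (W t v : ℕ) = D (t * n + v)) (c d Γ M : ℕ)
    (G : Finset ℕ → ℕ)
    (hΓ : ∀ (v : Fin n) (u : Fin m) (y : Fin n → ℤ), |gr c (GF G) v u y| ≤ Γ)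
    {g : ℕ → ℕ} {s : ℕ → Fin n → ℤ} {t : ℕ} (ht : t < R)
    (hg : ∀ t' < t, ∀ v : Fin n, (g (t' * n + v) : ℤ) = s t' v + Γ) (v : Fin n) :
    (gaN n m c d Γ M G D g t v : ℤ) = gam c M (GF G) (W t) (yy d s W t) v + Γ := by
  have h1 := grN_eq hW c d Γ M G hΓ ht hg v
  have h2 := pq_eq hW d Γ ht hg v
  unfold gaN gam
  generalize gr c (GF G) v (W t v) (cl M (yy d s W t)) = X at h1 ⊢
  generalize yy d s W t v = Y at h2 ⊢
  generalize grN n m c d Γ M G D g t v = A at h1 ⊢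
  generalize pN n d D g t v = P at h2 ⊢
  generalize qN n d Γ D t v = Q at h2 ⊢
  split_ifs <;> omega

/-- The array contains the steps. -/
theorem sN_eq (hW : ∀ t < R, ∀ v : Fin n, (W t v : ℕ) = D (t * n + v)) (c d Γ M : ℕ)
    (G : Finset ℕ → ℕ)
    (hΓ : ∀ (v : Fin n) (u : Fin m) (y : Fin n → ℤ), |gr c (GF G) v u y| ≤ Γ) :
    ∀ T ≤ R, ∀ t < T, ∀ v : Fin n,
      (sN n m c d Γ M G D T (t * n + v) : ℤ) = st c M d (GF G) W T t v + Γ
  | 0, _, t, ht, _ => absurd ht (Nat.not_lt_zero t)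
  | T + 1, hT, t, ht, v => by
    have hn : 0 < n := lt_of_le_of_lt (Nat.zero_le _) v.isLt
    have e1 : (t * n + (v : ℕ)) / n = t := by
      rw [mul_comm, Nat.mul_add_div hn, Nat.div_eq_of_lt v.isLt, add_zero]
    have e2 : (t * n + (v : ℕ)) % n = v := by
      rw [mul_comm, Nat.mul_add_mod, Nat.mod_eq_of_lt v.isLt]
    have ih := sN_eq hW c d Γ M G hΓ T (by omega)
    unfold sN st
    rw [e1, e2]
    by_cases h : t = T
    · rw [if_pos h]
      subst h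
      simp only [if_true]
      exact gaN_eq hW c d Γ M G hΓ (by omega) ih v
    · rw [if_neg h]
      simp only [if_neg h]
      exact ih t (by omega) v

theorem st_stable (c M d : ℕ) (F : Finset (Fin n) → ℤ) (W : ℕ → Fin n → Fin m) (T : ℕ) :
    ∀ j, ∀ t < T, st c M d F W (T + j) t = st c M d F W T t
  | 0, _, _ => rfl
  | j + 1, t, ht => by
    show (if t = T + j then _ else st c M d F W (T + j) t) = _
    rw [if_neg (by omega), st_stable c M d F W T j t ht]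

theorem yR_eq (hW : ∀ t < R, ∀ v : Fin n, (W t v : ℕ) = D (t * n + v)) (c d Γ M : ℕ)
    (G : Finset ℕ → ℕ)
    (hΓ : ∀ (v : Fin n) (u : Fin m) (y : Fin n → ℤ), |gr c (GF G) v u y| ≤ Γ) {t : ℕ} (ht : t < R)
    (v : Fin n) :
    cl M (yy d (st c M d (GF G) W t) W t) v = (yR n m c d Γ M R G D t v : ℤ) := by
  refine yN_eq hW d Γ M ht (fun t' ht' v => ?_) v
  rw [sN_eq hW c d Γ M G hΓ R le_rfl t' (ht'.trans ht) v]
  obtain ⟨j, rfl⟩ := Nat.exists_eq_add_of_le ht.le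
  rw [st_stable c M d (GF G) W t j t' ht']

/-- **The machine computes the value.** -/
theorem posK_negK (hW : ∀ t < R, ∀ v : Fin n, (W t v : ℕ) = D (t * n + v)) (c d Γ M : ℕ)
    (G : Finset ℕ → ℕ)
    (hΓ : ∀ (v : Fin n) (u : Fin m) (y : Fin n → ℤ), |gr c (GF G) v u y| ≤ Γ) :
    (posK n m c d Γ M R G D : ℤ) - negK n m c d Γ M R G D = Vl c M d (GF G) R W := by
  unfold posK negK Vl vl
  push_cast
  rw [← sum_sub_distrib]
  refine sum_congr rfl fun t ht => ?_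
  rw [mem_range] at ht
  rw [← sum_sub_distrib, sum_range]
  refine sum_congr rfl fun v _ => ?_
  have hy := yR_eq hW c d Γ M G hΓ ht
  generalize cl M (yy d (st c M d (GF G) W t) W t) = Y at hy ⊢
  rw [hy v]
  unfold gr GF SubBis.ee
  rw [map_Up hy, map_Upo hy, hW t ht v]
  push_cast
  ring

end

end Pool.Agent.Lib.SubBisE.Mach
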