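import Pool.Agent.Lib.SubBisX.TabDefs

/-!
# The kernel method as a computation with arrays of natural numbers

There are `R` worlds, the world `t < R` has the digits `D (t * n + v)`, `v < n`. The array `g` has the
entries `g (t * n + v) = γ + Γ`, `γ` the truncated gradient of the round `t` at `v`, `|γ| ≤ Γ`.
-/

set_option autoImplicit false

namespace Pool.Agent.Lib.SubBisE.Mach

open Finset Pool.Agent.Lib.SubBisX.Tab

/-- the number of agreements of the worlds `t` and `t'` up to `v` -/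
def agN (n : ℕ) (D : ℕ → ℕ) (t t' v : ℕ) : ℕ :=
  ((range (v + 1)).filter fun w => D (t * n + w) = D (t' * n + w)).card

/-- the kernel -/
def kN (n d : ℕ) (D : ℕ → ℕ) (t t' v : ℕ) : ℕ := (agN n D t t' v + 1) ^ d

/-- the iterate of the round `t` plus `qN` -/
def pN (n d : ℕ) (D g : ℕ → ℕ) (t v : ℕ) : ℕ := ∑ t' ∈ range t, g (t' * n + v) * kN n d D t t' v

/-- the shift of the iterate of the round `t` -/
def qN (n d Γ : ℕ) (D : ℕ → ℕ) (t v : ℕ) : ℕ := Γ * ∑ t' ∈ range t, kN n d D t t' v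

/-- the clipped iterate of the round `t` -/
def yN (n d Γ M : ℕ) (D g : ℕ → ℕ) (t v : ℕ) : ℕ := min M (pN n d D g t v - qN n d Γ D t v)

/-- the gradient of the round `t` plus `Γ` -/
def grN (n m c d Γ M : ℕ) (G : Finset ℕ → ℕ) (D g : ℕ → ℕ) (t v : ℕ) : ℕ :=
  min (2 * Γ) ((Γ + Nat.log 2 ((m - D (t * n + v)) ^ c) +
      c * G (upoS n (yN n d Γ M D g t) v)) -
    (Nat.log 2 ((D (t * n + v) + 1) ^ c) + c * G (upS n (yN n d Γ M D g t) v)))

/-- the truncated gradient of the round `t` plus `Γ` -/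
def gaN (n m c d Γ M : ℕ) (G : Finset ℕ → ℕ) (D g : ℕ → ℕ) (t v : ℕ) : ℕ :=
  if qN n d Γ D t v + M < pN n d D g t v then min (grN n m c d Γ M G D g t v) Γ
  else if pN n d D g t v < qN n d Γ D t v then max (grN n m c d Γ M G D g t v) Γ
  else grN n m c d Γ M G D g t v

/-- the array after `t` rounds -/
def sN (n m c d Γ M : ℕ) (G : Finset ℕ → ℕ) (D : ℕ → ℕ) : ℕ → ℕ → ℕ
  | 0, _ => 0
  | t + 1, i => if i / n = t then gaN n m c d Γ M G D (sN n m c d Γ M G D t) t (i % n)
      else sN n m c d Γ M G D t i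

/-- the clipped iterate of the round `t`, from the array after `R` rounds -/
def yR (n m c d Γ M R : ℕ) (G : Finset ℕ → ℕ) (D : ℕ → ℕ) (t v : ℕ) : ℕ :=
  yN n d Γ M D (sN n m c d Γ M G D R) t v

/-- the positive part of the sum of the values -/
def posK (n m c d Γ M R : ℕ) (G : Finset ℕ → ℕ) (D : ℕ → ℕ) : ℕ :=
  ∑ t ∈ range R, ∑ v ∈ range n, yR n m c d Γ M R G D t v *
    (Nat.log 2 ((m - D (t * n + v)) ^ c) + c * G (upoS n (yR n m c d Γ M R G D t) v))

/-- the negative part of the sum of the values -/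
def negK (n m c d Γ M R : ℕ) (G : Finset ℕ → ℕ) (D : ℕ → ℕ) : ℕ :=
  ∑ t ∈ range R, ∑ v ∈ range n, yR n m c d Γ M R G D t v *
    (Nat.log 2 ((D (t * n + v) + 1) ^ c) + c * G (upS n (yR n m c d Γ M R G D t) v))

end Pool.Agent.Lib.SubBisE.Mach
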