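import Pool.Agent.Lib.SubBisE.MachPoly
import Pool.Agent.Lib.SubBisE.MachBridge
import Pool.Agent.Lib.SubBisC.CPoly

/-!
The estimate of the kernel method computed from random bits in polynomial time.
-/

set_option autoImplicit false

namespace Pool.Agent.Lib.SubBisE.Mach

open Finset Pool.Agent.Lib.PolyTime Pool.Agent.Lib.Pa7c826 Pool.Agent.Lib.Pa7c826t
open Pool.Agent.Lib.SubBisX.Tab Pool.Agent.Lib.SubBisX.Tab.TabAux Pool.Agent.Lib.SubBisB.BTab
open Pool.Agent.Lib.SubBisX.Reg Pool.Agent.Lib.SubBisX.Core Pool.Agent.Lib.SubBisX.Seed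
open Pool.Agent.Lib.SubBisC

/-- `K` copies of `R` worlds with `n` digits, read off a bit stream -/
def decE (μ n R K : ℕ) (b : ℕ → Bool) : Fin K → Fin R → Fin n → Fin (2 ^ μ) :=
  fun k t v => rd μ fun i => b (k * (R * (n * μ)) + (t * (n * μ) + (v * μ + i)))

/-- the number of random bits -/
def nbE (μ n R K : ℕ) : ℕ := K * (R * (n * μ))

theorem unif_decE (μ n R K : ℕ) : Unif (nbE μ n R K) (decE μ n R K) :=
  (((unif_rd μ).pow n).pow R).pow K

/-- the digits of the copy `k` -/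
def dkE (μ n R k : ℕ) (b : ℕ → Bool) (j : ℕ) : ℕ := bv μ fun i => b (k * (R * (n * μ)) + (j * μ + i))

theorem xt_decE {μ n R K : ℕ} (b : ℕ → Bool) (k : Fin K) {t : ℕ} (ht : t < R) (v : Fin n) :
    (xt (decE μ n R K b k) t v : ℕ) = dkE μ n R k b (t * n + v) := by
  unfold xt
  rw [dif_pos ht]
  show bv μ _ = bv μ _
  congr 1
  funext i
  congr 1
  ring

/-- The positive part of the sum over the copies. -/
def totPE (n μ c d Γ M R K : ℕ) (G : Finset ℕ → ℕ) (b : ℕ → Bool) : ℕ :=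
  ∑ k ∈ range K, posK n (2 ^ μ) c d Γ M R G (dkE μ n R k b)

/-- The negative part of the sum over the copies. -/
def totNE (n μ c d Γ M R K : ℕ) (G : Finset ℕ → ℕ) (b : ℕ → Bool) : ℕ :=
  ∑ k ∈ range K, negK n (2 ^ μ) c d Γ M R G (dkE μ n R k b)

theorem totE_eq {n μ : ℕ} (c d Γ M R K : ℕ) (G : Finset ℕ → ℕ) (b : ℕ → Bool)
    (hΓ : ∀ (v : Fin n) (u : Fin (2 ^ μ)) (y : Fin n → ℤ), |gr c (GF G) v u y| ≤ Γ) :
    (∑ k : Fin K, Vl c M d (GF G) R (xt (decE μ n R K b k))) =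
      (totPE n μ c d Γ M R K G b : ℤ) - (totNE n μ c d Γ M R K G b : ℤ) := by
  unfold totPE totNE
  push_cast
  rw [← sum_sub_distrib, ← Fin.sum_univ_eq_sum_range (fun k =>
    (posK n (2 ^ μ) c d Γ M R G (dkE μ n R k b) : ℤ) - negK n (2 ^ μ) c d Γ M R G (dkE μ n R k b)) K]
  exact sum_congr rfl fun k _ =>
    (posK_negK (fun t ht v => xt_decE b k ht v) c d Γ M G hΓ).symm

universe u

variable {α : Type u} {Dm : α → Prop} {ctx : List (α → List Bool)}

section general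

variable {n : α → ℕ} {G : α → Finset ℕ → ℕ} {μ c d Γ M R K k : α → ℕ} {r : α → List Bool}

/-- The hypotheses of the estimator, for `n` sites and the set function `G`. -/
structure HE (Dm : α → Prop) (ctx : List (α → List Bool)) (n : α → ℕ)
    (G : α → Finset ℕ → ℕ) (μ c d Γ M R : α → ℕ) (r : α → List Bool) : Prop where
  hn : PolyN Dm ctx n
  hG : PG Dm ctx n G
  hμ : PolyN Dm ctx μ
  hm : PolyN Dm ctx (fun a => 2 ^ μ a)
  hc : PolyN Dm ctx c
  hd : PolyN Dm ctx d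
  hΓ : PolyN Dm ctx Γ
  hM : PolyN Dm ctx M
  hR : PolyN Dm ctx R
  hK : PolyN Dm ctx (fun x => (n x + 1) ^ d x)
  hr : PolyC Dm ctx r

theorem HE.up (h : HE Dm ctx n G μ c d Γ M R r) (k : α → ℕ) :
    HE (fun p : α × ℕ => Dm p.1 ∧ p.2 < k p.1) (PolyTime.lift ctx ++ [fun p => un p.2])
      (fun b => n b.1) (fun b => G b.1) (fun b => μ b.1) (fun b => c b.1) (fun b => d b.1)
      (fun b => Γ b.1) (fun b => M b.1) (fun b => R b.1) (fun b => r b.1) :=
  ⟨upN h.hn, h.hG.lft Prod.fst (fun _ hb => hb.1)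
      (fun _ ht => Pool.Agent.Lib.Pa7c826.up (n := k) ht),
    upN h.hμ, upN h.hm, upN h.hc, upN h.hd, upN h.hΓ, upN h.hM, upN h.hR, upN h.hK,
    Pool.Agent.Lib.Pa7c826.up h.hr⟩

theorem HE.copy (h : HE Dm ctx n G μ c d Γ M R r) (hk : PolyN Dm ctx k) :
    HM Dm ctx n G (fun a => 2 ^ μ a) c d Γ M R
      (fun a => dkE (μ a) (n a) (R a) (k a) fun i => (r a).getD i false) := by
  refine ⟨h.hn, h.hG, h.hm, h.hc, h.hd, h.hΓ, h.hM, h.hR, h.hK, ?_⟩
  refine (SeedAuxB.poly_rdG (o := fun _ => 0) h.hr (h.hR.mul h.hn) h.hμ h.hm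
    (hk.mul (h.hR.mul (h.hn.mul h.hμ))) h.hμ (PolyN.const 0)).congr (fun a _ i _ => ?_)
  unfold dkE
  simp only [Nat.zero_add]

theorem poly_totPE (h : HE Dm ctx n G μ c d Γ M R r) (hK : PolyN Dm ctx K) :
    PolyN Dm ctx (fun a => totPE (n a) (μ a) (c a) (d a) (Γ a) (M a) (R a) (K a) (G a)
      fun i => (r a).getD i false) :=
  P8e91ed.PT.nSum (f := fun a k => posK (n a) (2 ^ μ a) (c a) (d a) (Γ a) (M a) (R a) (G a)
      (dkE (μ a) (n a) (R a) k fun i => (r a).getD i false))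
    hK (poly_posK ((h.up K).copy (last (D := Dm) (ctx := ctx) (n := K))))

theorem poly_totNE (h : HE Dm ctx n G μ c d Γ M R r) (hK : PolyN Dm ctx K) :
    PolyN Dm ctx (fun a => totNE (n a) (μ a) (c a) (d a) (Γ a) (M a) (R a) (K a) (G a)
      fun i => (r a).getD i false) :=
  P8e91ed.PT.nSum (f := fun a k => negK (n a) (2 ^ μ a) (c a) (d a) (Γ a) (M a) (R a) (G a)
      (dkE (μ a) (n a) (R a) k fun i => (r a).getD i false))
    hK (poly_negK ((h.up K).copy (last (D := Dm) (ctx := ctx) (n := K))))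

end general

open PolyAux

/-- The estimate from the positive and the negative part of the numerator. -/
theorem poly_eC {w : α → List Bool} {C W : α → Finset ℕ} {P N den nW : α → ℕ}
    (hw : PolyC Dm ctx w) (hC' : PolyS Dm ctx (fun x => nOf (w x)) C)
    (hnW : PolyN Dm ctx nW) (hW : PolyS Dm ctx nW W) (P' : PolyN Dm ctx P) (N' : PolyN Dm ctx N)
    (hden : PolyN Dm ctx den) :
    PolyN Dm ctx (fun a => eC (C a) (W a) ((P a : ℤ) - N a) (den a)) := by
  have hn := poly_nOf hw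
  have hk := PolyS.card hn hC'
  have c1 := PolyS.card hnW hW
  have L1 := last (D := Dm) (ctx := ctx) (n := nW)
  have F := PolyS.card hnW (PolyS.filter hnW hW (PolyS.mem (hC'.up (m := nW)) L1))
  have B1 := PolyB.natEq F (PolyN.const 0)
  have B2 := PolyB.le N' P'
  have E1 := PolyN.sub (c1.add (divz (PolyN.sub P' N') hden)) hk
  have E2 := PolyN.sub c1 (hk.add (divz (PolyN.sub ((PolyN.sub N' P').add hden)
    (PolyN.const 1)) hden))
  refine (PolyN.ite B1 c1 (PolyN.ite B2 E1 E2)).congr (fun a haD => ?_)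
  rw [eC_nat]
  simp only [decide_eq_true_eq]

/-- The value of the set function at the empty set. -/
theorem pg_empty {n : α → ℕ} {G : α → Finset ℕ → ℕ} (hn : PolyN Dm ctx n) (hG : PG Dm ctx n G) :
    PolyN Dm ctx (fun a => G a ∅) := by
  have h1 : PolyS Dm ctx n (fun _ => ∅) :=
    (PolyS.filter hn (PolyS.range hn) (φ := fun _ => false) (PolyC.const [false])).congr
      (fun a _ => by simp)
  exact hG α Dm ctx id (fun _ => ∅) (fun _ h => h) (fun _ h => h) h1

theorem FC_empty (n a : ℕ) (adj : ℕ → ℕ → Bool) (κ : ℕ) (C W : Finset ℕ) :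
    FC n a adj κ C W ∅ = (cnC n a adj κ C W ∅ : ℤ) := by
  rw [← GF_cnC]
  unfold GF
  rw [Finset.map_empty]

theorem sub_add_mul (P N D E : ℕ) : (P : ℤ) - ((N + D * E : ℕ) : ℤ) = (P : ℤ) - N - D * E := by
  push_cast
  ring

/-- The estimate of the logarithm of the number of independent subsets of `W`, computed from the
random bits `r` in polynomial time. The value `FC .. ∅` is subtracted since the objective is that of
`F - F ∅`. -/
theorem poly_eVE {w : α → List Bool} {C W : α → Finset ℕ} {μ c d Γ M R κ K den nW : α → ℕ}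
    {r : α → List Bool} (hw : PolyC Dm ctx w) (hC' : PolyS Dm ctx (fun x => nOf (w x)) C)
    (hnW : PolyN Dm ctx nW) (hW : PolyS Dm ctx nW W)
    (hμ : PolyN Dm ctx μ) (hm : PolyN Dm ctx (fun a => 2 ^ μ a)) (hc : PolyN Dm ctx c)
    (hd : PolyN Dm ctx d) (hΓ : PolyN Dm ctx Γ) (hM : PolyN Dm ctx M) (hR : PolyN Dm ctx R)
    (hker : PolyN Dm ctx (fun a => ((C a).card + 1) ^ d a))
    (hκ : PolyN Dm ctx κ) (hK : PolyN Dm ctx K) (hden : PolyN Dm ctx den) (hr : PolyC Dm ctx r)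
    (hgr : ∀ a, Dm a → ∀ (v : Fin (C a).card) (u : Fin (2 ^ μ a)) (y : Fin (C a).card → ℤ),
      |gr (c a) (FC (nOf (w a)) (aOf (w a)) (adjOf (w a)) (κ a) (C a) (W a)) v u y| ≤ Γ a) :
    PolyN Dm ctx (fun a => eC (C a) (W a)
      ((∑ k : Fin (K a), Vl (c a) (M a) (d a)
        (FC (nOf (w a)) (aOf (w a)) (adjOf (w a)) (κ a) (C a) (W a)) (R a)
        (xt (decE (μ a) (C a).card (R a) (K a) (fun i => (r a).getD i false) k))) -
        (den a : ℤ) * FC (nOf (w a)) (aOf (w a)) (adjOf (w a)) (κ a) (C a) (W a) ∅) (den a)) := by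
  have hn := poly_nOf hw
  have hk := PolyS.card hn hC'
  have hG := pg_cnC hw hκ hC' hW
  have h : HE Dm ctx (fun a => (C a).card)
      (fun a => cnC (nOf (w a)) (aOf (w a)) (adjOf (w a)) (κ a) (C a) (W a))
      μ c d Γ M R r :=
    ⟨hk, hG, hμ, hm, hc, hd, hΓ, hM, hR, hker, hr⟩
  refine (poly_eC hw hC' hnW hW (poly_totPE h hK)
    ((poly_totNE h hK).add (hden.mul (pg_empty hk hG))) hden).congr (fun a haD => ?_)
  rw [FC_empty, ← GF_cnC, totE_eq _ _ (Γ a) _ _ _ _ _ (hgr a haD), sub_add_mul]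

end Pool.Agent.Lib.SubBisE.Mach
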