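import Pool.Agent.Lib.SubBisE.Core
import Pool.Agent.Lib.SubBisX.ParA
import Pool.Agent.Lib.SubBisX.Core

/-!
# SubBisE.ParE (2 h): the parameters, the mean value and the range for any set function

PROOF. `coreE`: shift to `F - F ∅` (`Vl_shift`, `SubBisC.logZ_shift`), `ε = 1/(16 q)`, `c = q²`, `Γ = Gm q`
(`|gr| ≤ c mu + c kap`, `abs_ee_le`). Divide `core_upper`, `core_lower` by `N M c`; with `Q = q²`:
upper error `k/Q`; lower errors `k (1/Q + log₂(m+1)/m + 8ε² + 4/m)`, `k M m^d/(2 N Q) = k/(2Q)`, `k Γ² (k+1)^d / (2 M Q) = k/(2Q)`,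
`k Γ/(Q (1+ε)^(d+1)) ≤ k (mu + kap) 2^(-mu) ≤ k/Q`: `(1 + 1/(16q))^(16q) ≥ 2` (Bernoulli), `d + 1 ≥ 16 q mu`,
`2^mu ≥ 8 Q²`, `mu + kap = 3 size Q + 4 ≤ 7 Q`; `CA.log_small` for `Q`; `8 ε² = 1/(32 Q)`; `4/m ≤ 1/(2Q)`. Sum `≤ 6 k/Q`.
-/

set_option autoImplicit false

namespace Pool.Agent.Lib.SubBisE

open Finset SubBis Pool.Agent.Lib.SubBisX.Reg Pool.Agent.Lib.SubBisX.Core
open Pool.Agent.Lib.SubBisX

variable {n k m : ℕ}

/-- binary digits of the random numbers -/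
def mu (q : ℕ) : ℕ := ParA.mu (q ^ 2)

/-- binary digits of the quality, plus one -/
def kap (q : ℕ) : ℕ := ParA.kap (q ^ 2)

/-- the degree -/
def dg (q : ℕ) : ℕ := 16 * q * mu q

/-- the bound for the steps; the unit of the energies is `c = q ^ 2` -/
def Gm (q : ℕ) : ℕ := q ^ 2 * (mu q + kap q)

/-- the scale of the vectors -/
def MM (k q : ℕ) : ℕ := Gm q ^ 2 * (k + 1) ^ dg q

/-- the number of steps -/
def NN (k q : ℕ) : ℕ := MM k q * 2 ^ (mu q * dg q)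

namespace ParEAux

theorem gr_shift (c : ℕ) (F : Finset (Fin k) → ℤ) (z : ℤ) :
    (gr c (fun S => F S + z) : Fin k → Fin m → (Fin k → ℤ) → ℤ) = gr c F := by
  funext v u y
  unfold gr
  ring

theorem logZ_shift (F : Finset (Fin k) → ℤ) (z : ℤ) :
    Bounds.logZ (fun S => F S + z) = Bounds.logZ F - z := by
  unfold Bounds.logZ
  have h1 : ∑ S : Finset (Fin k), (2 : ℝ) ^ (-((F S + z : ℤ) : ℝ)) =
      (∑ S : Finset (Fin k), (2 : ℝ) ^ (-(F S : ℝ))) * (2 : ℝ) ^ (-(z : ℝ)) := by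
    rw [sum_mul]
    refine sum_congr rfl fun S _ => ?_
    rw [← Real.rpow_add (by norm_num)]
    congr 1
    push_cast
    ring
  have h2 : (0 : ℝ) < ∑ S : Finset (Fin k), (2 : ℝ) ^ (-(F S : ℝ)) :=
    sum_pos (fun S _ => by positivity) ⟨∅, mem_univ _⟩
  rw [h1, Real.logb_mul h2.ne' (by positivity), Real.logb_rpow (by norm_num) (by norm_num)]
  ring

theorem gam_shift (c M : ℕ) (F : Finset (Fin k) → ℤ) (z : ℤ) (U : Fin k → Fin m) (y : Fin k → ℤ)
    (v : Fin k) : gam c M (fun S => F S + z) U y v = gam c M F U y v := by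
  unfold gam
  rw [gr_shift]

theorem st_shift (c M d : ℕ) (F : Finset (Fin k) → ℤ) (z : ℤ) (W : ℕ → Fin k → Fin m) :
    ∀ T, st c M d (fun S => F S + z) W T = st c M d F W T
  | 0 => rfl
  | T + 1 => by
    funext τ
    show (if τ = T then gam c M (fun S => F S + z) (W T)
        (yy d (st c M d (fun S => F S + z) W T) W T)
      else st c M d (fun S => F S + z) W T τ) = if τ = T then gam c M F (W T)
        (yy d (st c M d F W T) W T) else st c M d F W T τ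
    rw [st_shift c M d F z W T]
    split_ifs
    · funext v
      exact gam_shift c M F z _ _ v
    · rfl

theorem vl_shift (c M : ℕ) (F : Finset (Fin k) → ℤ) (z : ℤ) (U : Fin k → Fin m)
    (y : Fin k → ℤ) : vl c M (fun S => F S + z) U y = vl c M F U y := by
  unfold vl
  rw [gr_shift]

theorem cl_nonneg (M : ℕ) (y : Fin k → ℤ) (v : Fin k) : 0 ≤ cl M y v := le_max_left _ _

theorem cl_le (M : ℕ) (y : Fin k → ℤ) (v : Fin k) : cl M y v ≤ M :=
  max_le (Int.natCast_nonneg M) (min_le_left _ _)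

end ParEAux

theorem Vl_shift {c M d : ℕ} (F : Finset (Fin k) → ℤ) (z : ℤ) (N : ℕ) (W : ℕ → Fin k → Fin m) :
    Vl c M d (fun S => F S + z) N W = Vl c M d F N W := by
  unfold Vl
  refine sum_congr rfl fun τ _ => ?_
  rw [ParEAux.st_shift, ParEAux.vl_shift]

theorem abs_gr_le {q : ℕ} {F : Finset (Fin k) → ℤ}
    (hk : ∀ S v, |F (insert v S) - F S| ≤ kap q) (v : Fin k) (u : Fin (2 ^ mu q))
    (y : Fin k → ℤ) : |gr (q ^ 2) F v u y| ≤ Gm q := by
  unfold gr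
  have h1 : |ee (2 ^ mu q) (q ^ 2) u| ≤ ((q ^ 2 * mu q : ℕ) : ℤ) := by
    have := SubBis.abs_ee_le (mu := mu q) (c := q ^ 2) u.2
    exact_mod_cast this
  have h2 : |((q ^ 2 : ℕ) : ℤ) * (F (Up y v) - F (Upo y v))| ≤ ((q ^ 2 * kap q : ℕ) : ℤ) := by
    rw [abs_mul, abs_of_nonneg (Int.natCast_nonneg _), CA.Up_eq, CA.Upo_eq]
    push_cast
    have := hk (FCS.bef y v) v
    exact mul_le_mul_of_nonneg_left this (by positivity)
  refine (abs_sub _ _).trans ?_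
  unfold Gm
  push_cast at h1 h2 ⊢
  rw [mul_add]
  exact add_le_add h1 h2

namespace ParEAux

theorem Q_pos {q : ℕ} (hq : 1 ≤ q) : 0 < q ^ 2 := Nat.pow_pos hq

theorem Gm_pos {q : ℕ} (hq : 1 ≤ q) : 0 < Gm q := by
  unfold Gm kap ParA.kap
  exact Nat.mul_pos (Q_pos hq) (by omega)

theorem MM_pos (k : ℕ) {q : ℕ} (hq : 1 ≤ q) : 0 < MM k q := by
  unfold MM
  exact Nat.mul_pos (Nat.pow_pos (Gm_pos hq)) (Nat.pow_pos (by omega))

theorem NN_pos (k : ℕ) {q : ℕ} (hq : 1 ≤ q) : 0 < NN k q := by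
  unfold NN
  exact Nat.mul_pos (MM_pos k hq) (by positivity)

/-- `2 ^ mu ≥ 8 Q²` -/
theorem mu_big (q : ℕ) : 8 * ((q : ℝ) ^ 2) ^ 2 ≤ (2 : ℝ) ^ mu q := by
  have h : (q ^ 2) < 2 ^ (q ^ 2).size := Nat.lt_size_self _
  have h1 : ((q : ℝ) ^ 2) ≤ (2 : ℝ) ^ (q ^ 2).size := by exact_mod_cast h.le
  have h2 : ((q : ℝ) ^ 2) ^ 2 ≤ ((2 : ℝ) ^ (q ^ 2).size) ^ 2 := pow_le_pow_left₀ (by positivity) h1 2
  have e : (2 : ℝ) ^ mu q = 8 * ((2 : ℝ) ^ (q ^ 2).size) ^ 2 := by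
    unfold mu ParA.mu
    rw [pow_add, pow_mul, ← pow_mul, mul_comm 2, pow_mul]
    norm_num
    ring
  rw [e]
  linarith

theorem mk_le {q : ℕ} (hq : 1 ≤ q) : (mu q : ℝ) + kap q ≤ 7 * (q : ℝ) ^ 2 := by
  have h3 : Nat.size (q ^ 2) ≤ q ^ 2 := Nat.size_le.2 (q ^ 2).lt_two_pow_self
  have h4 := Q_pos hq
  have h5 : mu q + kap q ≤ 7 * q ^ 2 := by
    unfold mu kap ParA.mu ParA.kap
    omega
  exact_mod_cast h5

/-- the tail is small -/
theorem tail_big {q : ℕ} (hq : 1 ≤ q) :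
    (2 : ℝ) ^ mu q ≤ (1 + 1 / (16 * (q : ℝ))) ^ (dg q + 1) := by
  have hq0 : (0 : ℝ) < q := by exact_mod_cast hq
  have h0 : (0 : ℝ) ≤ 1 / (16 * (q : ℝ)) := by positivity
  have h1 : (2 : ℝ) ≤ (1 + 1 / (16 * (q : ℝ))) ^ (16 * q) := by
    have h2 := one_add_mul_le_pow (a := 1 / (16 * (q : ℝ))) (by linarith) (16 * q)
    refine le_trans (le_of_eq ?_) h2
    push_cast
    field_simp
    norm_num
  calc (2 : ℝ) ^ mu q ≤ ((1 + 1 / (16 * (q : ℝ))) ^ (16 * q)) ^ mu q :=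
        pow_le_pow_left₀ (by norm_num) h1 _
    _ = (1 + 1 / (16 * (q : ℝ))) ^ dg q := by rw [← pow_mul]; rfl
    _ ≤ (1 + 1 / (16 * (q : ℝ))) ^ (dg q + 1) := pow_le_pow_right₀ (by linarith) (Nat.le_succ _)

/-- the budget of the errors -/
theorem budget {q : ℕ} (hq : 1 ≤ q) (k : ℕ) {lZ X : ℝ}
    (hu : X ≤ NN k q * (MM k q * ((q ^ 2 : ℕ) * lZ + k)))
    (hl : NN k q * (MM k q * ((q ^ 2 : ℕ) * lZ -
          k * loss (2 ^ mu q) (q ^ 2) (1 / (16 * (q : ℝ))))) -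
        k * ((MM k q : ℝ) ^ 2 * ((2 ^ mu q : ℕ) : ℝ) ^ dg q +
          NN k q * ((Gm q : ℝ) ^ 2 * ((k : ℝ) + 1) ^ dg q)) / 2 -
        MM k q * Gm q * (NN k q * (k / (1 + 1 / (16 * (q : ℝ))) ^ (dg q + 1))) ≤ X) :
    |X / (NN k q * MM k q * q ^ 2) - lZ| ≤ 6 * k / (q : ℝ) ^ 2 := by
  have hq0 : (0 : ℝ) < q := by exact_mod_cast hq
  have hq1 : (1 : ℝ) ≤ q := by exact_mod_cast hq
  have hM : (0 : ℝ) < MM k q := by exact_mod_cast MM_pos k hq
  have hN : (0 : ℝ) < NN k q := by exact_mod_cast NN_pos k hq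
  have hG : (0 : ℝ) < Gm q := by exact_mod_cast Gm_pos hq
  have hk : (0 : ℝ) ≤ k := Nat.cast_nonneg k
  have hk1 : (0 : ℝ) < ((k : ℝ) + 1) ^ dg q := by positivity
  have hMe : (MM k q : ℝ) = (Gm q : ℝ) ^ 2 * ((k : ℝ) + 1) ^ dg q := by
    unfold MM; push_cast; ring
  have hNe : (NN k q : ℝ) = MM k q * ((2 : ℝ) ^ mu q) ^ dg q := by
    unfold NN; push_cast; rw [pow_mul]
  have hGe : (Gm q : ℝ) = (q : ℝ) ^ 2 * (mu q + kap q) := by
    unfold Gm; push_cast; ring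
  set Q : ℝ := (q : ℝ) ^ 2 with hQ
  have hQ1 : 1 ≤ Q := one_le_pow₀ hq1
  have hQ0 : 0 < Q := by linarith
  set P : ℝ := (2 : ℝ) ^ mu q with hP
  have hP8 : 8 * Q ^ 2 ≤ P := mu_big q
  have hP0 : 0 < P := by positivity
  have hPd : 0 < P ^ dg q := by positivity
  set R : ℝ := (1 + 1 / (16 * (q : ℝ))) ^ (dg q + 1) with hR
  have hRP : P ≤ R := tail_big hq
  have hR0 : 0 < R := by linarith
  have hcast : ((q ^ 2 : ℕ) : ℝ) = Q := by push_cast; rfl
  have hcast2 : ((2 ^ mu q : ℕ) : ℝ) = P := by push_cast; rfl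
  rw [hcast] at hu hl
  rw [hcast2] at hl
  -- the loss
  have hloss : loss (2 ^ mu q) (q ^ 2) (1 / (16 * (q : ℝ))) ≤ 1 + (1 + 1 / 32 + 1 / 2) := by
    unfold loss
    rw [hcast, hcast2]
    have h3 : Real.logb 2 (P + 1) / P ≤ 1 / Q := by
      have := CA.log_small (q := q ^ 2) (Q_pos hq)
      rw [hcast] at this
      exact this
    have h4 : 8 * (1 / (16 * (q : ℝ))) ^ 2 = 1 / (32 * Q) := by
      rw [hQ]
      field_simp
      norm_num
    have h5 : 4 / P ≤ 1 / (2 * Q) := by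
      rw [div_le_div_iff₀ hP0 (by positivity)]
      nlinarith
    have h6 : Q * (Real.logb 2 (P + 1) / P + 8 * (1 / (16 * (q : ℝ))) ^ 2 + 4 / P) ≤
        Q * (1 / Q + 1 / (32 * Q) + 1 / (2 * Q)) := by
      refine mul_le_mul_of_nonneg_left ?_ hQ0.le
      rw [h4]
      linarith
    have h7 : Q * (1 / Q + 1 / (32 * Q) + 1 / (2 * Q)) = 1 + 1 / 32 + 1 / 2 := by
      field_simp
    linarith
  have hD : 0 < (NN k q : ℝ) * MM k q * Q := by positivity
  -- the tail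
  have htail : (Gm q : ℝ) * (k / R) ≤ k := by
    have h3 : (Gm q : ℝ) ≤ R := by
      rw [hGe]
      have h4 := mk_le hq
      rw [← hQ] at h4
      have h5 := mul_le_mul_of_nonneg_left h4 hQ0.le
      nlinarith
    rw [← mul_div_assoc, div_le_iff₀ hR0]
    nlinarith
  have t1 : (k : ℝ) * ((MM k q : ℝ) ^ 2 * P ^ dg q +
      NN k q * ((Gm q : ℝ) ^ 2 * ((k : ℝ) + 1) ^ dg q)) / 2 = k * (NN k q * MM k q) := by
    rw [← hMe, hNe]
    ring
  have t2 : (MM k q : ℝ) * Gm q * (NN k q * (k / R)) ≤ NN k q * MM k q * k := by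
    have h3 := mul_le_mul_of_nonneg_left htail (by positivity : (0 : ℝ) ≤ NN k q * MM k q)
    nlinarith
  have t3 : (NN k q : ℝ) * (MM k q * (Q * lZ - k * (1 + (1 + 1 / 32 + 1 / 2)))) ≤
      NN k q * (MM k q * (Q * lZ - k * loss (2 ^ mu q) (q ^ 2) (1 / (16 * (q : ℝ))))) := by
    refine mul_le_mul_of_nonneg_left (mul_le_mul_of_nonneg_left ?_ hM.le) hN.le
    have := mul_le_mul_of_nonneg_left hloss hk
    linarith
  rw [t1] at hl
  have e6 : (6 : ℝ) * k / Q = 6 * (k / Q) := by ring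
  rw [e6, abs_le]
  constructor
  · have h3 : lZ - 6 * (k / Q) ≤ X / (NN k q * MM k q * Q) := by
      rw [le_div_iff₀ hD]
      have h4 : (lZ - 6 * (k / Q)) * (NN k q * MM k q * Q) =
          NN k q * (MM k q * (Q * lZ)) - 6 * (NN k q * MM k q * k) := by
        field_simp
      rw [h4]
      have h5 : (0 : ℝ) ≤ NN k q * MM k q * k := by positivity
      nlinarith
    linarith
  · have h3 : X / (NN k q * MM k q * Q) ≤ lZ + k / Q := by
      rw [div_le_iff₀ hD]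
      refine hu.trans (le_of_eq ?_)
      field_simp
    have h4 : (0 : ℝ) ≤ k / Q := by positivity
    linarith

end ParEAux

/-- **The mean value.** -/
theorem coreE {q : ℕ} (hq : 1 ≤ q) {F : Finset (Fin k) → ℤ} (hF : FCS.Subm F)
    (hk : ∀ S v, |F (insert v S) - F S| ≤ kap q) :
    |(av fun w : Fin (NN k q) → Fin k → Fin (2 ^ mu q) =>
        (Vl (q ^ 2) (MM k q) (dg q) F (NN k q) (xt w) : ℝ)) / (NN k q * MM k q * q ^ 2) -
      (Bounds.logZ F + F ∅)| ≤ 6 * k / (q : ℝ) ^ 2 := by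
  have hF' : FCS.Subm fun S => F S + -F ∅ := fun S S' => by
    have := hF S S'
    show F (S ∪ S') + -F ∅ + (F (S ∩ S') + -F ∅) ≤ F S + -F ∅ + (F S' + -F ∅)
    linarith
  have hk' : ∀ S v, |(fun S => F S + -F ∅) (insert v S) - (fun S => F S + -F ∅) S| ≤ kap q :=
    fun S v => by
      show |F (insert v S) + -F ∅ - (F S + -F ∅)| ≤ _
      have e : F (insert v S) + -F ∅ - (F S + -F ∅) = F (insert v S) - F S := by ring
      rw [e]
      exact hk S v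
  have hq1 : (1 : ℝ) ≤ q := by exact_mod_cast hq
  have h1 := core_upper (m := 2 ^ mu q) (c := q ^ 2) (M := MM k q) (d := dg q)
    (F := fun S => F S + -F ∅) (by ring) (NN k q)
  have h2 := core_lower (m := 2 ^ mu q) (c := q ^ 2) (M := MM k q) (d := dg q)
    (ParEAux.MM_pos k hq) (ε := 1 / (16 * (q : ℝ))) (by positivity)
    (by
      rw [div_le_div_iff₀ (by positivity) (by norm_num)]
      linarith)
    (F := fun S => F S + -F ∅) hF' (by ring) (Γ := Gm q)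
    (fun U y v => abs_gr_le hk' v (U v) y) (NN k q)
  have e1 : (fun w : Fin (NN k q) → Fin k → Fin (2 ^ mu q) =>
      (Vl (q ^ 2) (MM k q) (dg q) (fun S => F S + -F ∅) (NN k q) (xt w) : ℝ)) =
      fun w => (Vl (q ^ 2) (MM k q) (dg q) F (NN k q) (xt w) : ℝ) := by
    funext w
    rw [Vl_shift]
  have e2 : Bounds.logZ (fun S => F S + -F ∅) = Bounds.logZ F + F ∅ := by
    rw [ParEAux.logZ_shift]
    push_cast
    ring
  rw [e1, e2] at h1 h2
  exact ParEAux.budget hq k h1 h2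

/-- **The range.** -/
theorem range_Vl {q : ℕ} {F : Finset (Fin k) → ℤ} (hk : ∀ S v, |F (insert v S) - F S| ≤ kap q)
    (W : ℕ → Fin k → Fin (2 ^ mu q)) :
    |Vl (q ^ 2) (MM k q) (dg q) F (NN k q) W| ≤
      (NN k q : ℤ) * MM k q * (q : ℤ) ^ 2 * (k * (mu q + kap q)) := by
  unfold Vl
  refine (abs_sum_le_sum_abs _ _).trans ?_
  have h1 : ∀ τ ∈ range (NN k q), |vl (q ^ 2) (MM k q) F (W τ)
      (yy (dg q) (st (q ^ 2) (MM k q) (dg q) F W τ) W τ)| ≤ (k : ℤ) * ((MM k q : ℤ) * Gm q) := by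
    intro τ _
    unfold vl
    refine (abs_sum_le_sum_abs _ _).trans ?_
    refine (sum_le_card_nsmul univ _ ((MM k q : ℤ) * Gm q) fun v _ => ?_).trans (le_of_eq ?_)
    · rw [abs_mul]
      refine mul_le_mul ?_ (abs_gr_le hk v _ _) (abs_nonneg _) (Int.natCast_nonneg _)
      rw [abs_of_nonneg (ParEAux.cl_nonneg _ _ _)]
      exact ParEAux.cl_le _ _ _
    · rw [card_univ, Fintype.card_fin, nsmul_eq_mul]
  refine (sum_le_card_nsmul _ _ _ h1).trans (le_of_eq ?_)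
  rw [card_range, nsmul_eq_mul]
  unfold Gm
  push_cast
  ring

end Pool.Agent.Lib.SubBisE
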