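import Pool.Agent.Lib.SubBisE.Defs
import Pool.Agent.Lib.SubBisX.Core

/-!
# SubBisE.Reg (2 h): the regret, for every sequence of worlds

PROOF. `st_lt`: the entries `τ < T` of `st T` are final; `yy` uses only the entries `σ < τ` (`yy_congr`).
`conv`: fixed `U`, `y`; `yt = cl M y ∈ [0, M]`, `g v = FCS.kv F yt v` (`CA.gr_eq`), `∑_(v ∈ S) g v ≤ F S` (`FCS.sum_kv_le`), so
`∑ gr v (M ys v - yt v) ≥ M CV - vl` (`gr = ee - c g`). Then `gam v (M ys v - y v) ≥ gr v (M ys v - yt v)` in each of the three cases.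
`regret`: `InBall` for `γ = gam / M` (if `M ≥ 1`), times `M²`; `∑_τ ∑_σ G τ G σ K = ∑_τ (2 G τ y^τ + (G τ)² K(τ,τ))` (symmetry),
`K(τ,τ) ≤ (k+1)^d`, `|gam| ≤ Γ`.
-/

set_option autoImplicit false

namespace Pool.Agent.Lib.SubBisE

open Finset SubBis Pool.Agent.Lib.SubBisX.Reg Pool.Agent.Lib.SubBisX.Core
open Pool.Agent.Lib.SubBisX

variable {n k m : ℕ}

theorem yy_congr {d : ℕ} {g g' : ℕ → Fin k → ℤ} {W W' : ℕ → Fin k → Fin m} {τ : ℕ}
    (h : ∀ σ < τ, g σ = g' σ) (h' : ∀ σ ≤ τ, W σ = W' σ) : yy d g W τ = yy d g' W' τ := by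
  funext v
  unfold yy
  refine sum_congr rfl fun σ hσ => ?_
  have hσ' := mem_range.1 hσ
  rw [h σ hσ', h' σ hσ'.le, h' τ le_rfl]

/-- The steps `< T` depend on the worlds `< T` only. -/
theorem st_congr {c M d : ℕ} {F : Finset (Fin k) → ℤ} {W W' : ℕ → Fin k → Fin m} {T : ℕ}
    (h : ∀ σ < T, W σ = W' σ) : st c M d F W T = st c M d F W' T := by
  induction T with
  | zero => rfl
  | succ T ih =>
    have e1 : st c M d F W T = st c M d F W' T := ih fun σ hσ => h σ (hσ.trans (Nat.lt_succ_self T))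
    have e2 : yy d (st c M d F W T) W T = yy d (st c M d F W' T) W' T :=
      yy_congr (fun σ _ => by rw [e1]) fun σ hσ => h σ (Nat.lt_succ_of_le hσ)
    funext τ
    show (if τ = T then gam c M F (W T) (yy d (st c M d F W T) W T) else st c M d F W T τ) =
      (if τ = T then gam c M F (W' T) (yy d (st c M d F W' T) W' T) else st c M d F W' T τ)
    rw [e2, e1, h T (Nat.lt_succ_self T)]

theorem st_lt {c M d : ℕ} {F : Finset (Fin k) → ℤ} {W : ℕ → Fin k → Fin m} {T τ : ℕ}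
    (h : τ < T) : st c M d F W T τ = gam c M F (W τ) (yy d (st c M d F W τ) W τ) := by
  induction T with
  | zero => exact absurd h (Nat.not_lt_zero _)
  | succ T ih =>
    show (if τ = T then gam c M F (W T) (yy d (st c M d F W T) W T) else st c M d F W T τ) = _
    rcases Nat.lt_succ_iff_lt_or_eq.1 h with h1 | h1
    · rw [if_neg h1.ne, ih h1]
    · subst h1
      rw [if_pos rfl]

theorem abs_gam_le {c M : ℕ} {F : Finset (Fin k) → ℤ} {Γ : ℕ} {U : Fin k → Fin m}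
    (hΓ : ∀ (y : Fin k → ℤ) v, |gr c F v (U v) y| ≤ Γ) (y : Fin k → ℤ) (v : Fin k) :
    |gam c M F U y v| ≤ Γ := by
  have h := hΓ (cl M y) v
  rw [abs_le] at h
  have hΓ0 : (0 : ℤ) ≤ Γ := Int.natCast_nonneg Γ
  unfold gam
  split_ifs
  · rw [abs_le]
    exact ⟨le_min h.1 (by linarith), (min_le_right _ _).trans hΓ0⟩
  · rw [abs_le]
    exact ⟨le_trans (by linarith) (le_max_right _ _), max_le h.2 hΓ0⟩
  · rw [abs_le]
    exact h

theorem conv {c M : ℕ} {F : Finset (Fin k) → ℤ} (hF : FCS.Subm F) (hF0 : F ∅ = 0)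
    {U : Fin k → Fin m} {ys : Fin k → ℝ} {CV : ℝ} (hys : ∀ v, 0 ≤ ys v ∧ ys v ≤ 1)
    (hCV : ∀ g : Fin k → ℝ, (∀ S : Finset (Fin k), ∑ v ∈ S, g v ≤ F S) →
      CV ≤ ∑ v, ((ee m c (U v) : ℝ) - c * g v) * ys v) (y : Fin k → ℤ) :
    M * CV - vl c M F U y ≤ ∑ v, (gam c M F U y v : ℝ) * (M * ys v - y v) := by
  have hM0 : (0 : ℝ) ≤ (M : ℝ) := Nat.cast_nonneg M
  have hgr : ∀ v, gr c F v (U v) (cl M y) = ee m c (U v) - c * FCS.kv F (cl M y) v := by
    intro v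
    rw [CA.gr_eq]
    rfl
  have h1 : CV ≤ ∑ v, ((gr c F v (U v) (cl M y) : ℤ) : ℝ) * ys v := by
    refine (hCV (fun v => ((FCS.kv F (cl M y) v : ℤ) : ℝ)) fun S => ?_).trans (le_of_eq ?_)
    · exact_mod_cast FCS.sum_kv_le hF hF0 (cl M y) S.card S rfl
    · refine sum_congr rfl fun v _ => ?_
      rw [hgr v]
      push_cast
      ring
  have h2 : ((vl c M F U y : ℤ) : ℝ) =
      ∑ v, ((cl M y v : ℤ) : ℝ) * ((gr c F v (U v) (cl M y) : ℤ) : ℝ) := by
    unfold vl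
    push_cast
    rfl
  have h3 : ∀ v, ((gr c F v (U v) (cl M y) : ℤ) : ℝ) * (M * ys v - (cl M y v : ℤ)) ≤
      (gam c M F U y v : ℝ) * (M * ys v - y v) := by
    intro v
    obtain ⟨g, hg⟩ : ∃ g : ℤ, g = gr c F v (U v) (cl M y) := ⟨_, rfl⟩
    have hy1 : (M : ℝ) * ys v ≤ M := mul_le_of_le_one_right hM0 (hys v).2
    have hy0 : 0 ≤ (M : ℝ) * ys v := mul_nonneg hM0 (hys v).1
    unfold gam
    rw [← hg]
    split_ifs with hc1 hc2
    · have hcl : cl M y v = M := by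
        unfold cl clip
        rw [min_eq_left hc1.le]
        exact max_eq_right (Int.natCast_nonneg M)
      rw [hcl]
      have e1 : ((min g 0 : ℤ) : ℝ) ≤ 0 := by exact_mod_cast min_le_right g 0
      have e2 : ((min g 0 : ℤ) : ℝ) ≤ g := by exact_mod_cast min_le_left g 0
      have e3 : (M : ℝ) ≤ y v := by exact_mod_cast hc1.le
      have e4 : (g : ℝ) * (M * ys v - M) ≤ ((min g 0 : ℤ) : ℝ) * (M * ys v - M) :=
        mul_le_mul_of_nonpos_right e2 (by linarith)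
      have e5 : ((min g 0 : ℤ) : ℝ) * (M * ys v - M) ≤ ((min g 0 : ℤ) : ℝ) * (M * ys v - y v) :=
        mul_le_mul_of_nonpos_left (by linarith) e1
      push_cast at e4 e5 ⊢
      linarith
    · have hcl : cl M y v = 0 := by
        unfold cl clip
        exact max_eq_left ((min_le_right _ _).trans hc2.le)
      rw [hcl]
      have e1 : 0 ≤ ((max g 0 : ℤ) : ℝ) := by exact_mod_cast le_max_right g 0
      have e2 : (g : ℝ) ≤ ((max g 0 : ℤ) : ℝ) := by exact_mod_cast le_max_left g 0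
      have e3 : (y v : ℝ) ≤ 0 := by exact_mod_cast hc2.le
      have e4 : (g : ℝ) * (M * ys v) ≤ ((max g 0 : ℤ) : ℝ) * (M * ys v) :=
        mul_le_mul_of_nonneg_right e2 hy0
      have e5 : ((max g 0 : ℤ) : ℝ) * (M * ys v) ≤ ((max g 0 : ℤ) : ℝ) * (M * ys v - y v) :=
        mul_le_mul_of_nonneg_left (by linarith) e1
      rw [Int.cast_zero, sub_zero]
      exact e4.trans e5
    · have hcl : cl M y v = y v := by
        unfold cl clip
        rw [min_eq_right (not_lt.1 hc1)]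
        exact max_eq_right (not_lt.1 hc2)
      rw [hcl]
  calc (M : ℝ) * CV - vl c M F U y
      ≤ M * (∑ v, ((gr c F v (U v) (cl M y) : ℤ) : ℝ) * ys v) - vl c M F U y := by
        have := mul_le_mul_of_nonneg_left h1 hM0
        linarith
    _ = ∑ v, ((gr c F v (U v) (cl M y) : ℤ) : ℝ) * (M * ys v - (cl M y v : ℤ)) := by
        rw [h2, mul_sum, ← sum_sub_distrib]
        exact sum_congr rfl fun v _ => by ring
    _ ≤ _ := sum_le_sum fun v _ => h3 v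

theorem regret {c M d : ℕ} (hM : 0 < M) {F : Finset (Fin k) → ℤ} {Γ : ℕ}
    (hΓ : ∀ (U : Fin k → Fin m) (y : Fin k → ℤ) v, |gr c F v (U v) y| ≤ Γ) {v : Fin k}
    {a : (Fin k → Fin m) → ℝ} {R : ℝ}
    (ha : InBall (fun U U' => (ker d ((v : ℕ) + 1) U U' : ℝ)) a R) (N : ℕ)
    (W : ℕ → Fin k → Fin m) :
    2 * ∑ τ ∈ range N, (gam c M F (W τ) (yy d (st c M d F W τ) W τ) v : ℝ) *
        (M * a (W τ) - yy d (st c M d F W τ) W τ v) ≤
      (M : ℝ) ^ 2 * R + N * ((Γ : ℝ) ^ 2 * ((k : ℝ) + 1) ^ d) := by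
  have hMr : (0 : ℝ) < M := by exact_mod_cast hM
  obtain ⟨G, hG⟩ : ∃ G : ℕ → ℝ, ∀ τ, G τ =
      ((gam c M F (W τ) (yy d (st c M d F W τ) W τ) v : ℤ) : ℝ) := ⟨_, fun _ => rfl⟩
  obtain ⟨K, hK⟩ : ∃ K : ℕ → ℕ → ℝ, ∀ τ σ, K τ σ = ((ker d ((v : ℕ) + 1) (W τ) (W σ) : ℕ) : ℝ) :=
    ⟨_, fun _ _ => rfl⟩
  have hKs : ∀ τ σ, K τ σ = K σ τ := by
    intro τ σ
    rw [hK, hK]
    have : agr ((v : ℕ) + 1) (W τ) (W σ) = agr ((v : ℕ) + 1) (W σ) (W τ) := by
      unfold agr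
      congr 1
      ext w
      simp only [mem_filter, mem_univ, true_and]
      exact and_congr_right fun _ => eq_comm
    unfold ker
    rw [this]
  have hKd : ∀ τ, K τ τ ≤ ((k : ℝ) + 1) ^ d := by
    intro τ
    rw [hK]
    unfold ker
    push_cast
    apply pow_le_pow_left₀ (by positivity)
    have : agr ((v : ℕ) + 1) (W τ) (W τ) ≤ k := by
      unfold agr
      exact (card_le_univ _).trans (by rw [Fintype.card_fin])
    have : ((agr ((v : ℕ) + 1) (W τ) (W τ) : ℕ) : ℝ) ≤ k := by exact_mod_cast this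
    linarith
  have hyy : ∀ τ, ((yy d (st c M d F W τ) W τ v : ℤ) : ℝ) = ∑ σ ∈ range τ, G σ * K σ τ := by
    intro τ
    unfold yy
    push_cast
    refine sum_congr rfl fun σ hσ => ?_
    rw [st_lt (mem_range.1 hσ), hG, hK]
  have hsym : ∀ N : ℕ, ∑ τ ∈ range N, ∑ σ ∈ range N, G τ * G σ * K τ σ =
      ∑ τ ∈ range N, (2 * (G τ * ∑ σ ∈ range τ, G σ * K σ τ) + G τ ^ 2 * K τ τ) := by
    intro N
    induction N with
    | zero => simp
    | succ N ih =>
      rw [sum_range_succ, sum_range_succ (fun τ => 2 * (G τ * ∑ σ ∈ range τ, G σ * K σ τ) +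
        G τ ^ 2 * K τ τ) N, ← ih]
      have e1 : ∑ τ ∈ range N, ∑ σ ∈ range (N + 1), G τ * G σ * K τ σ =
          ∑ τ ∈ range N, ∑ σ ∈ range N, G τ * G σ * K τ σ + ∑ τ ∈ range N, G τ * G N * K τ N := by
        rw [← sum_add_distrib]
        exact sum_congr rfl fun τ _ => by rw [sum_range_succ]
      have e2 : ∑ σ ∈ range (N + 1), G N * G σ * K N σ =
          ∑ σ ∈ range N, G σ * G N * K σ N + G N ^ 2 * K N N := by
        rw [sum_range_succ]
        congr 1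
        · exact sum_congr rfl fun σ _ => by rw [hKs N σ]; ring
        · ring
      have e3 : G N * ∑ σ ∈ range N, G σ * K σ N = ∑ σ ∈ range N, G σ * G N * K σ N := by
        rw [mul_sum]
        exact sum_congr rfl fun σ _ => by ring
      rw [e1, e2, e3]
      ring
  have h1 := ha N (fun τ => G τ / M) W
  have h2 : ∑ τ ∈ range N, G τ / M * a (W τ) = (∑ τ ∈ range N, G τ * a (W τ)) / M := by
    rw [sum_div]
    exact sum_congr rfl fun τ _ => by ring
  have h3 : ∑ τ ∈ range N, ∑ σ ∈ range N, G τ / M * (G σ / M) *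
      ((ker d ((v : ℕ) + 1) (W τ) (W σ) : ℕ) : ℝ) =
      (∑ τ ∈ range N, ∑ σ ∈ range N, G τ * G σ * K τ σ) / (M : ℝ) ^ 2 := by
    rw [sum_div]
    refine sum_congr rfl fun τ _ => ?_
    rw [sum_div]
    refine sum_congr rfl fun σ _ => ?_
    rw [← hK]
    field_simp
  simp only at h1
  rw [h2, h3, hsym] at h1
  have h4 : 2 * (M * ∑ τ ∈ range N, G τ * a (W τ)) ≤ (M : ℝ) ^ 2 * R +
      ∑ τ ∈ range N, (2 * (G τ * ∑ σ ∈ range τ, G σ * K σ τ) + G τ ^ 2 * K τ τ) := by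
    have h5 := mul_le_mul_of_nonneg_left h1 (by positivity : (0 : ℝ) ≤ (M : ℝ) ^ 2)
    have h6 : (M : ℝ) ^ 2 * (2 * ((∑ τ ∈ range N, G τ * a (W τ)) / M)) =
        2 * (M * ∑ τ ∈ range N, G τ * a (W τ)) := by
      field_simp
    have h7 : ∀ S : ℝ, (M : ℝ) ^ 2 * (R + S / (M : ℝ) ^ 2) = (M : ℝ) ^ 2 * R + S := by
      intro S
      field_simp
    rw [h6, h7] at h5
    exact h5
  have h8 : ∑ τ ∈ range N, G τ ^ 2 * K τ τ ≤ N * ((Γ : ℝ) ^ 2 * ((k : ℝ) + 1) ^ d) := by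
    calc ∑ τ ∈ range N, G τ ^ 2 * K τ τ ≤ ∑ τ ∈ range N, (Γ : ℝ) ^ 2 * ((k : ℝ) + 1) ^ d := by
          refine sum_le_sum fun τ _ => ?_
          have e1 : |G τ| ≤ Γ := by
            rw [hG]
            have := abs_gam_le (M := M) (U := W τ) (fun y v => hΓ (W τ) y v)
              (yy d (st c M d F W τ) W τ) v
            exact_mod_cast this
          have e2 : G τ ^ 2 ≤ (Γ : ℝ) ^ 2 := by
            rw [← sq_abs]
            exact pow_le_pow_left₀ (abs_nonneg _) e1 2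
          have e3 : 0 ≤ K τ τ := by
            rw [hK]
            exact Nat.cast_nonneg _
          exact mul_le_mul e2 (hKd τ) e3 (by positivity)
      _ = _ := by rw [sum_const, card_range, nsmul_eq_mul]
  have h9 : ∑ τ ∈ range N, ((gam c M F (W τ) (yy d (st c M d F W τ) W τ) v : ℤ) : ℝ) *
        (M * a (W τ) - yy d (st c M d F W τ) W τ v) =
      M * ∑ τ ∈ range N, G τ * a (W τ) -
        ∑ τ ∈ range N, G τ * ∑ σ ∈ range τ, G σ * K σ τ := by
    rw [mul_sum, ← sum_sub_distrib]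
    refine sum_congr rfl fun τ _ => ?_
    rw [← hG, hyy]
    ring
  rw [h9]
  rw [sum_add_distrib, ← mul_sum] at h4
  linarith

/-- **The value of the method, for every sequence of worlds.** -/
theorem vl_ge {c M d : ℕ} (hM : 0 < M) {F : Finset (Fin k) → ℤ} (hF : FCS.Subm F)
    (hF0 : F ∅ = 0) {Γ : ℕ}
    (hΓ : ∀ (U : Fin k → Fin m) (y : Fin k → ℤ) v, |gr c F v (U v) y| ≤ Γ)
    {ys a : Fin k → (Fin k → Fin m) → ℝ} {CV : (Fin k → Fin m) → ℝ} {R : ℝ}
    (hys : ∀ v U, 0 ≤ ys v U ∧ ys v U ≤ 1)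
    (hCV : ∀ (U : Fin k → Fin m) (g : Fin k → ℝ),
      (∀ S : Finset (Fin k), ∑ v ∈ S, g v ≤ F S) →
        CV U ≤ ∑ v, ((ee m c (U v) : ℝ) - c * g v) * ys v U)
    (ha : ∀ v : Fin k, InBall (fun U U' => (ker d ((v : ℕ) + 1) U U' : ℝ)) (a v) R) (N : ℕ)
    (W : ℕ → Fin k → Fin m) :
    M * ∑ τ ∈ range N, CV (W τ) -
        k * ((M : ℝ) ^ 2 * R + N * ((Γ : ℝ) ^ 2 * ((k : ℝ) + 1) ^ d)) / 2 -
        M * Γ * ∑ τ ∈ range N, ∑ v, |a v (W τ) - ys v (W τ)| ≤ (Vl c M d F N W : ℝ) := by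
  have hMr : (0 : ℝ) < M := by exact_mod_cast hM
  obtain ⟨G, hG⟩ : ∃ G : ℕ → Fin k → ℝ, ∀ τ v, G τ v =
      ((gam c M F (W τ) (yy d (st c M d F W τ) W τ) v : ℤ) : ℝ) := ⟨_, fun _ _ => rfl⟩
  obtain ⟨Y, hY⟩ : ∃ Y : ℕ → Fin k → ℝ, ∀ τ v, Y τ v =
      ((yy d (st c M d F W τ) W τ v : ℤ) : ℝ) := ⟨_, fun _ _ => rfl⟩
  have h1 : ∀ τ, M * CV (W τ) - (vl c M F (W τ) (yy d (st c M d F W τ) W τ) : ℤ) ≤
      ∑ v, G τ v * (M * a v (W τ) - Y τ v) + M * Γ * ∑ v, |a v (W τ) - ys v (W τ)| := by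
    intro τ
    have e1 := conv (c := c) (M := M) hF hF0 (U := W τ) (ys := fun v => ys v (W τ))
      (fun v => hys v (W τ)) (hCV (W τ)) (yy d (st c M d F W τ) W τ)
    refine e1.trans ?_
    rw [mul_sum, ← sum_add_distrib]
    refine sum_le_sum fun v _ => ?_
    rw [← hG, ← hY]
    have e2 : |G τ v| ≤ Γ := by
      rw [hG]
      have := abs_gam_le (M := M) (U := W τ) (fun y v => hΓ (W τ) y v)
        (yy d (st c M d F W τ) W τ) v
      exact_mod_cast this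
    have e3 : G τ v * (ys v (W τ) - a v (W τ)) ≤ Γ * |a v (W τ) - ys v (W τ)| := by
      refine (le_abs_self _).trans ?_
      rw [abs_mul, abs_sub_comm (ys v (W τ))]
      exact mul_le_mul_of_nonneg_right e2 (abs_nonneg _)
    have e4 : G τ v * (M * ys v (W τ) - Y τ v) =
        G τ v * (M * a v (W τ) - Y τ v) + M * (G τ v * (ys v (W τ) - a v (W τ))) := by ring
    rw [e4]
    have e5 := mul_le_mul_of_nonneg_left e3 hMr.le
    have e6 : (M : ℝ) * Γ * |a v (W τ) - ys v (W τ)| = M * (Γ * |a v (W τ) - ys v (W τ)|) := by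
      ring
    rw [e6]
    linarith
  have h2 : ((Vl c M d F N W : ℤ) : ℝ) =
      ∑ τ ∈ range N, ((vl c M F (W τ) (yy d (st c M d F W τ) W τ) : ℤ) : ℝ) := by
    unfold Vl
    push_cast
    rfl
  have h3 : ∑ τ ∈ range N, ∑ v, G τ v * (M * a v (W τ) - Y τ v) ≤
      k * ((M : ℝ) ^ 2 * R + N * ((Γ : ℝ) ^ 2 * ((k : ℝ) + 1) ^ d)) / 2 := by
    rw [sum_comm]
    have e1 : ∀ v ∈ (univ : Finset (Fin k)), ∑ τ ∈ range N, G τ v * (M * a v (W τ) - Y τ v) ≤
        ((M : ℝ) ^ 2 * R + N * ((Γ : ℝ) ^ 2 * ((k : ℝ) + 1) ^ d)) / 2 := by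
      intro v _
      have := regret hM hΓ (ha v) N W
      have e2 : ∑ τ ∈ range N, G τ v * (M * a v (W τ) - Y τ v) =
          ∑ τ ∈ range N, ((gam c M F (W τ) (yy d (st c M d F W τ) W τ) v : ℤ) : ℝ) *
            (M * a v (W τ) - (yy d (st c M d F W τ) W τ v : ℤ)) :=
        sum_congr rfl fun τ _ => by rw [hG, hY]
      rw [e2]
      linarith
    refine (sum_le_sum e1).trans (le_of_eq ?_)
    rw [sum_const, card_univ, Fintype.card_fin, nsmul_eq_mul]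
    ring
  have h4 := sum_le_sum fun τ (_ : τ ∈ range N) => h1 τ
  rw [sum_sub_distrib, sum_add_distrib, ← mul_sum, ← mul_sum, ← h2] at h4
  linarith

end Pool.Agent.Lib.SubBisE
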