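import Pool.Agent.Lib.SubBisE.Defs

/-!
# One site of the smoothed sampler

The digit function `phi` of a site has two thresholds `k - b ≤ k + b` (values `1`, `1/2`, `0`).
-/

open scoped BigOperators

namespace Pool.Agent.Lib.SubBisE

open Finset SubBis Pool.Agent.Lib.SubBisX.Reg

namespace Site

/-- the step function -/
def st (t u : ℕ) : ℝ := if u < t then 1 else 0

theorem sum_st {m t : ℕ} (ht : t ≤ m) (f : ℕ → ℝ) :
    ∑ u : Fin m, st t u * f u = ∑ u ∈ range t, f u := by
  rw [Fin.sum_univ_eq_sum_range (fun u => st t u * f u) m]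
  have h : ∀ u ∈ range m, st t u * f u = if u < t then f u else 0 := by
    intro u _
    unfold st
    split_ifs <;> simp
  rw [Finset.sum_congr rfl h, ← Finset.sum_filter]
  congr 1
  ext u
  simp only [mem_filter, mem_range]
  omega

/-- the digit function -/
noncomputable def ph (k b u : ℕ) : ℝ := (st (k - b) u + st (k + b) u) / 2

theorem ph_nonneg (k b u : ℕ) : 0 ≤ ph k b u := by
  unfold ph st
  split_ifs <;> norm_num

theorem ph_le_one (k b u : ℕ) : ph k b u ≤ 1 := by
  unfold ph st
  split_ifs <;> norm_num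

theorem ph_sq (k b u : ℕ) : ph k b u ^ 2 = (3 * st (k - b) u + st (k + b) u) / 4 := by
  unfold ph st
  split_ifs with h1 h2 h2
  · norm_num
  · omega
  · norm_num
  · norm_num

theorem sum_ph_mul {m k b : ℕ} (hb : b ≤ k) (hkm : k + b ≤ m) (f : ℕ → ℝ) :
    ∑ u : Fin m, ph k b u * f u
      = (∑ u ∈ range (k - b), f u + ∑ u ∈ range (k + b), f u) / 2 := by
  rw [← sum_st (m := m) (t := k - b) (by omega) f, ← sum_st (m := m) (t := k + b) hkm f,
    ← Finset.sum_add_distrib, Finset.sum_div]
  apply Finset.sum_congr rfl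
  intro u _
  unfold ph
  ring

theorem sum_ph {m k b : ℕ} (hb : b ≤ k) (hkm : k + b ≤ m) :
    ∑ u : Fin m, ph k b u = k := by
  have h := sum_ph_mul hb hkm (fun _ => 1)
  simp only [mul_one, Finset.sum_const, Finset.card_range, nsmul_eq_mul] at h
  rw [h, Nat.cast_sub hb]
  push_cast
  ring

theorem sum_ph_sq {m k b : ℕ} (hb : b ≤ k) (hkm : k + b ≤ m) :
    ∑ u : Fin m, ph k b u ^ 2 = k - b / 2 := by
  have h1 := sum_st (m := m) (t := k - b) (by omega) (fun _ => 1)
  have h2 := sum_st (m := m) (t := k + b) hkm (fun _ => 1)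
  simp only [mul_one, Finset.sum_const, Finset.card_range, nsmul_eq_mul] at h1 h2
  have h3 : ∀ u : Fin m, ph k b u ^ 2 = (3 / 4) * st (k - b) u + (1 / 4) * st (k + b) u := by
    intro u
    rw [ph_sq]
    ring
  simp only [h3]
  rw [Finset.sum_add_distrib, ← Finset.mul_sum, ← Finset.mul_sum, h1, h2, Nat.cast_sub hb]
  push_cast
  ring

/-- The second differences of the partial sums. -/
theorem diff_le {m k : ℕ} {a : ℝ} (ha0 : 0 ≤ a) (ha1 : a ≤ 1 / 4) (hk0 : 0 < k) (hkm : k < m) :
    ∀ b : ℕ, (∀ i : ℕ, i < b → (i : ℝ) < a * (k * (m - k) / m)) → b ≤ k → k + b ≤ m →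
      2 * ∑ u ∈ range k, dd m u - ∑ u ∈ range (k - b), dd m u - ∑ u ∈ range (k + b), dd m u
        ≤ 2 * ((b : ℝ) ^ 2 * (m / (k * (m - k)))) := by
  have hk0' : (0 : ℝ) < k := by exact_mod_cast hk0
  have hkm' : (0 : ℝ) < (m : ℝ) - k := by
    have : (k : ℝ) < m := by exact_mod_cast hkm
    linarith
  have hm' : (0 : ℝ) < m := by linarith
  have hl2 : (0.6931471803 : ℝ) < Real.log 2 := Real.log_two_gt_d9
  intro b
  induction b with
  | zero => intro _ _ _; simp; ring_nf; simp
  | succ b ih =>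
    intro hi hb hkb
    have ih' := ih (fun i h => hi i (by omega)) (by omega) (by omega)
    have hbX := hi b (by omega)
    have e1 : ∑ u ∈ range (k - b), dd m u = ∑ u ∈ range (k - (b + 1)), dd m u + dd m (k - (b + 1)) := by
      rw [← Finset.sum_range_succ]
      congr 2
      omega
    have e2 : ∑ u ∈ range (k + (b + 1)), dd m u = ∑ u ∈ range (k + b), dd m u + dd m (k + b) := by
      rw [← add_assoc, Finset.sum_range_succ]
    -- bounds for k - b and m - k - b
    have hX1 : (k : ℝ) * (m - k) / m ≤ k := by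
      rw [div_le_iff₀ hm']
      nlinarith
    have hX2 : (k : ℝ) * (m - k) / m ≤ m - k := by
      rw [div_le_iff₀ hm']
      nlinarith
    have hb1 : (b : ℝ) ≤ a * k := hbX.le.trans (mul_le_mul_of_nonneg_left hX1 ha0)
    have hb2 : (b : ℝ) ≤ a * (m - k) := hbX.le.trans (mul_le_mul_of_nonneg_left hX2 ha0)
    have hc1 : 3 / 4 * (k : ℝ) ≤ k - b := by nlinarith
    have hc2 : 3 / 4 * ((m : ℝ) - k) ≤ m - k - b := by nlinarith
    have hkb1 : (0 : ℝ) < k - b := by linarith [mul_pos (by norm_num : (0 : ℝ) < 3 / 4) hk0']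
    have hkb2 : (0 : ℝ) < m - k - b := by linarith [mul_pos (by norm_num : (0 : ℝ) < 3 / 4) hkm']
    -- logarithms
    have hlog : ∀ x y : ℝ, 0 < y → 3 / 4 * x ≤ y → 0 < x →
        Real.logb 2 ((y + (2 * b + 1)) / y) ≤ 2 * ((2 * b + 1) * (1 / x)) := by
      intro x y hy hxy hx
      have hpos : (0 : ℝ) < (y + (2 * b + 1)) / y := by positivity
      have h1 : Real.log ((y + (2 * b + 1)) / y) ≤ (2 * b + 1) / y := by
        have := Real.log_le_sub_one_of_pos hpos
        refine this.trans (le_of_eq ?_)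
        field_simp
        ring
      have h2 : (2 * (b : ℝ) + 1) / y ≤ (2 * b + 1) * ((4 / 3) * (1 / x)) := by
        rw [div_eq_mul_one_div]
        apply mul_le_mul_of_nonneg_left _ (by positivity)
        rw [one_div, one_div]
        have : (4 / 3 : ℝ) * x⁻¹ = (3 / 4 * x)⁻¹ := by
          rw [mul_inv]
          norm_num
        rw [this]
        exact inv_anti₀ (by positivity) hxy
      unfold Real.logb
      rw [div_le_iff₀ (by linarith)]
      have h3 : 0 ≤ (2 * (b : ℝ) + 1) * (1 / x) := by positivity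
      nlinarith
    have hd : dd m (k - (b + 1)) - dd m (k + b) ≤
        2 * ((2 * b + 1) * (1 / (k : ℝ))) + 2 * ((2 * b + 1) * (1 / ((m : ℝ) - k))) := by
      have f1 : ((m - (k - (b + 1)) : ℕ) : ℝ) = (m - k - b) + (2 * b + 1) := by
        rw [Nat.cast_sub (by omega), Nat.cast_sub (by omega)]
        push_cast
        ring
      have f2 : ((k - (b + 1) + 1 : ℕ) : ℝ) = k - b := by
        have : k - (b + 1) + 1 = k - b := by omega
        rw [this, Nat.cast_sub (by omega)]
      have f3 : ((m - (k + b) : ℕ) : ℝ) = m - k - b := by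
        rw [Nat.cast_sub (by omega)]
        push_cast
        ring
      have f4 : ((k + b + 1 : ℕ) : ℝ) = (k - b) + (2 * b + 1) := by
        push_cast
        ring
      have g1 := hlog k (k - b) hkb1 hc1 hk0'
      have g2 := hlog (m - k) (m - k - b) hkb2 hc2 hkm'
      rw [Real.logb_div (by positivity) (by positivity)] at g1 g2
      unfold dd
      rw [f1, f2, f3, f4, Real.logb_div (by positivity) (by positivity),
        Real.logb_div (by positivity) (by positivity)]
      linarith
    have hsum : (1 : ℝ) / k + 1 / (m - k) = m / (k * (m - k)) := by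
      field_simp
      ring
    have hfin : 2 * (((b : ℝ) + 1) ^ 2 * (m / (k * (m - k)))) =
        2 * ((b : ℝ) ^ 2 * (m / (k * (m - k)))) +
          (2 * ((2 * b + 1) * (1 / (k : ℝ))) + 2 * ((2 * b + 1) * (1 / ((m : ℝ) - k)))) := by
      rw [← hsum]
      ring
    push_cast
    rw [hfin, e2]
    linarith [e1]

end Site

/-- The site lemma for at least two digits. -/
theorem site_two {m : ℕ} (c : ℕ) (hm : 2 ≤ m) {ε : ℝ} (h0 : 0 ≤ ε) (h1 : ε ≤ 1 / 16) (A B : ℝ) :
    ∃ φ : Fin m → ℝ, Okd ε φ ∧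
      c * Real.logb 2 ((2 : ℝ) ^ A + (2 : ℝ) ^ B)
          - (1 + c * (Real.logb 2 ((m : ℝ) + 1) / m + 8 * ε ^ 2 + 4 / m))
        ≤ av fun u : Fin m => (ee m c u : ℝ) * φ u + c * (φ u * A + (1 - φ u) * B) := by
  obtain ⟨k, hk, hval⟩ := lower_dd (m := m) (by omega) A B
  have hm' : (0 : ℝ) < m := by
    have : 0 < m := by omega
    exact_mod_cast this
  have hm2 : (2 : ℝ) ≤ m := by exact_mod_cast hm
  have hkm' : (k : ℝ) ≤ m := by exact_mod_cast hk
  set X : ℝ := (k : ℝ) * (m - k) / m with hX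
  have hX0 : 0 ≤ X := by
    rw [hX]
    apply div_nonneg (mul_nonneg (by positivity) (by linarith)) hm'.le
  have hX1 : X ≤ k := by
    rw [hX, div_le_iff₀ hm']
    nlinarith [(Nat.cast_nonneg k : (0 : ℝ) ≤ k)]
  have hX2 : X ≤ m - k := by
    rw [hX, div_le_iff₀ hm']
    nlinarith [(Nat.cast_nonneg k : (0 : ℝ) ≤ k)]
  have hX4 : X ≤ m / 4 := by
    rw [hX, div_le_iff₀ hm']
    nlinarith [sq_nonneg ((m : ℝ) - 2 * k)]
  set b : ℕ := ⌈4 * ε * X⌉₊ with hb
  have ha0 : 0 ≤ 4 * ε * X := by positivity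
  have hbge : 4 * ε * X ≤ b := Nat.le_ceil _
  have hblt : (b : ℝ) < 4 * ε * X + 1 := Nat.ceil_lt_add_one ha0
  have hbk : b ≤ k := by
    rw [hb, Nat.ceil_le]
    nlinarith
  have hbm : k + b ≤ m := by
    have : b ≤ m - k := by
      rw [hb, Nat.ceil_le, Nat.cast_sub hk]
      nlinarith
    omega
  have hsum := Site.sum_ph hbk hbm
  have hsq := Site.sum_ph_sq hbk hbm
  -- the loss
  have hloss : ∑ u ∈ range k, dd m u -
      (∑ u ∈ range (k - b), dd m u + ∑ u ∈ range (k + b), dd m u) / 2 ≤ m * (8 * ε ^ 2) + 4 := by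
    rcases Nat.eq_zero_or_pos b with hb0 | hb0
    · rw [hb0]
      simp only [Nat.sub_zero, Nat.add_zero]
      have : 0 ≤ (m : ℝ) * (8 * ε ^ 2) := by positivity
      linarith
    · have hk0 : 0 < k := by omega
      have hkm : k < m := by omega
      have hd := Site.diff_le (m := m) (k := k) (a := 4 * ε) (by positivity) (by linarith) hk0 hkm b
        (fun i hi => by
          have h2 : i + 1 ≤ b := hi
          by_contra hcon
          push Not at hcon
          have h3 : ⌈4 * ε * X⌉₊ ≤ i := by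
            rw [Nat.ceil_le]
            exact hcon
          omega) hbk hbm
      have hXh : 1 / 2 ≤ X := by
        rw [hX, le_div_iff₀ hm']
        have h2 : (1 : ℝ) ≤ k := by exact_mod_cast hk0
        have h3 : (1 : ℝ) ≤ m - k := by
          have : (k : ℝ) + 1 ≤ m := by exact_mod_cast hkm
          linarith
        nlinarith [mul_nonneg (by linarith : (0 : ℝ) ≤ (k : ℝ) - 1) (by linarith : (0 : ℝ) ≤ (m : ℝ) - k - 1)]
      have hXpos : 0 < X := by linarith
      have hinv : (m : ℝ) / (k * (m - k)) = 1 / X := by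
        rw [hX]
        have h2 : (0 : ℝ) < k := by exact_mod_cast hk0
        have h3 : (0 : ℝ) < m - k := by
          have : (k : ℝ) < m := by exact_mod_cast hkm
          linarith
        field_simp
      rw [hinv] at hd
      have h4 : (b : ℝ) ^ 2 * (1 / X) ≤ m * (8 * ε ^ 2) + 4 := by
        rw [mul_one_div, div_le_iff₀ hXpos]
        have h5 : (b : ℝ) ^ 2 ≤ (4 * ε * X + 1) ^ 2 := by
          apply pow_le_pow_left₀ (by positivity) hblt.le
        have h6 : (4 * ε * X + 1) ^ 2 ≤ 2 * (4 * ε * X) ^ 2 + 2 := by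
          nlinarith [sq_nonneg (4 * ε * X - 1)]
        have h7 : 2 * (4 * ε * X) ^ 2 ≤ m * (8 * ε ^ 2) * X := by
          have h8 : (0 : ℝ) ≤ 32 * ε ^ 2 * X := by positivity
          nlinarith [mul_le_mul_of_nonneg_left hX4 h8]
        nlinarith
      linarith
  refine ⟨fun u => Site.ph k b u, ⟨fun u => ⟨Site.ph_nonneg _ _ _, Site.ph_le_one _ _ _⟩, ?_⟩, ?_⟩
  · unfold av
    rw [hsum, hsq, Fintype.card_fin]
    have hv : ((k : ℝ) - b / 2) / m - (k / m) ^ 2 = X / m - b / (2 * m) := by
      rw [hX]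
      field_simp
      ring
    have hp : (k : ℝ) / m * (1 - k / m) = X / m := by
      rw [hX]
      field_simp
    rw [hv, hp]
    have h2 : X / m - b / (2 * m) ≤ X / m * (1 - 2 * ε) := by
      have h3 : X / m * (2 * ε) ≤ b / (2 * m) := by
        rw [div_mul_eq_mul_div, div_le_div_iff₀ hm' (by positivity)]
        nlinarith
      linarith
    have hXm : 0 ≤ X / m := by positivity
    calc (1 + ε) ^ 2 * (X / m - b / (2 * m)) ≤ (1 + ε) ^ 2 * (X / m * (1 - 2 * ε)) :=
          mul_le_mul_of_nonneg_left h2 (by positivity)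
      _ = X / m * ((1 + ε) ^ 2 * (1 - 2 * ε)) := by ring
      _ ≤ X / m * 1 := by
          apply mul_le_mul_of_nonneg_left _ hXm
          nlinarith [pow_nonneg h0 3, pow_nonneg h0 2]
      _ = X / m := mul_one _
  · have hmean : (av fun u : Fin m => (ee m c u : ℝ) * Site.ph k b u
        + c * (Site.ph k b u * A + (1 - Site.ph k b u) * B)) * m
        = ∑ u : Fin m, Site.ph k b u * (ee m c u : ℝ) + c * (k * A + (m - k) * B) := by
      unfold av
      rw [Fintype.card_fin, div_mul_cancel₀ _ hm'.ne']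
      have : ∀ u : Fin m, (ee m c u : ℝ) * Site.ph k b u
          + c * (Site.ph k b u * A + (1 - Site.ph k b u) * B)
          = Site.ph k b u * (ee m c u : ℝ) + c * ((A - B) * Site.ph k b u + B) := by
        intro u
        ring
      simp only [this]
      rw [Finset.sum_add_distrib, ← Finset.mul_sum, Finset.sum_add_distrib, ← Finset.mul_sum, hsum]
      simp only [Finset.sum_const, Finset.card_univ, Fintype.card_fin, nsmul_eq_mul]
      ring
    have hee : c * ((∑ u ∈ range (k - b), dd m u + ∑ u ∈ range (k + b), dd m u) / 2) - k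
        ≤ ∑ u : Fin m, Site.ph k b u * (ee m c u : ℝ) := by
      rw [← Site.sum_ph_mul hbk hbm (fun u => dd m u), ← hsum, Finset.mul_sum,
        ← Finset.sum_sub_distrib]
      apply Finset.sum_le_sum
      intro u _
      have h2 := le_ee (c := c) u.2
      have h3 := Site.ph_nonneg k b u
      nlinarith
    have hstep : ∑ u ∈ range m, (dd m u * (if u < k then 1 else 0) + (if u < k then 1 else 0) * A
        + (1 - (if u < k then 1 else 0)) * B) = ∑ u ∈ range k, dd m u + k * A + (m - k) * B := by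
      have h2 : ∀ u ∈ range m, dd m u * (if u < k then (1 : ℝ) else 0)
          + (if u < k then (1 : ℝ) else 0) * A + (1 - (if u < k then (1 : ℝ) else 0)) * B
          = (if u < k then dd m u + (A - B) else 0) + B := by
        intro u _
        split_ifs <;> ring
      rw [Finset.sum_congr rfl h2, Finset.sum_add_distrib, ← Finset.sum_filter]
      have h3 : (range m).filter (fun u => u < k) = range k := by
        ext u
        simp only [mem_filter, mem_range]
        omega
      rw [h3, Finset.sum_add_distrib]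
      simp only [Finset.sum_const, Finset.card_range, nsmul_eq_mul]
      ring
    rw [hstep] at hval
    have hc : (0 : ℝ) ≤ c := Nat.cast_nonneg c
    have hmul := mul_le_mul_of_nonneg_left hval hc
    have hmul2 := mul_le_mul_of_nonneg_left hloss hc
    have hfin : (c * Real.logb 2 ((2 : ℝ) ^ A + (2 : ℝ) ^ B)
          - (1 + c * (Real.logb 2 ((m : ℝ) + 1) / m + 8 * ε ^ 2 + 4 / m))) * m
        ≤ (av fun u : Fin m => (ee m c u : ℝ) * Site.ph k b u
        + c * (Site.ph k b u * A + (1 - Site.ph k b u) * B)) * m := by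
      rw [hmean]
      have e1 : (c * Real.logb 2 ((2 : ℝ) ^ A + (2 : ℝ) ^ B)
          - (1 + c * (Real.logb 2 ((m : ℝ) + 1) / m + 8 * ε ^ 2 + 4 / m))) * m
          = c * (m * Real.logb 2 ((2 : ℝ) ^ A + (2 : ℝ) ^ B) - Real.logb 2 ((m : ℝ) + 1)) - m
            - c * (m * (8 * ε ^ 2) + 4) := by
        field_simp
        ring
      rw [e1]
      nlinarith
    exact le_of_mul_le_mul_right hfin hm'

/-- **The site lemma.** -/
theorem site {m : ℕ} [NeZero m] (c : ℕ) {ε : ℝ} (h0 : 0 ≤ ε) (h1 : ε ≤ 1 / 16) (A B : ℝ) :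
    ∃ φ : Fin m → ℝ, Okd ε φ ∧
      c * Real.logb 2 ((2 : ℝ) ^ A + (2 : ℝ) ^ B) - loss m c ε ≤
        av fun u : Fin m => (ee m c u : ℝ) * φ u + c * (φ u * A + (1 - φ u) * B) := by
  have hm0 : 0 < m := Nat.pos_of_ne_zero (NeZero.ne m)
  rcases Nat.lt_or_ge 1 m with hm | hm
  · exact site_two c hm h0 h1 A B
  · obtain rfl : m = 1 := by omega
    have hc : (0 : ℝ) ≤ c := Nat.cast_nonneg c
    have hA : (0 : ℝ) < (2 : ℝ) ^ A := Real.rpow_pos_of_pos (by norm_num) _
    have hB : (0 : ℝ) < (2 : ℝ) ^ B := Real.rpow_pos_of_pos (by norm_num) _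
    have hlog : Real.logb 2 ((2 : ℝ) ^ A + (2 : ℝ) ^ B) ≤ max A B + 1 := by
      rw [Real.logb_le_iff_le_rpow (by norm_num) (by positivity), Real.rpow_add (by norm_num),
        Real.rpow_one]
      have e1 : (2 : ℝ) ^ A ≤ (2 : ℝ) ^ max A B :=
        Real.rpow_le_rpow_of_exponent_le (by norm_num) (le_max_left _ _)
      have e2 : (2 : ℝ) ^ B ≤ (2 : ℝ) ^ max A B :=
        Real.rpow_le_rpow_of_exponent_le (by norm_num) (le_max_right _ _)
      linarith
    have hee : ∀ u : Fin 1, ee 1 c u = 0 := by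
      intro u
      have hu : (u : ℕ) = 0 := by omega
      rw [hu]
      simp [ee]
    have hav : ∀ f : Fin 1 → ℝ, av f = f 0 := by
      intro f
      simp [av]
    have hl : c * max A B + c - loss 1 c ε ≤ c * max A B := by
      have h2 : (0 : ℝ) ≤ c * (Real.logb 2 2 + 8 * ε ^ 2 + 4 - 1) := by
        refine mul_nonneg hc ?_
        rw [Real.logb_self_eq_one (by norm_num)]
        nlinarith [sq_nonneg ε]
      unfold loss
      norm_num at h2 ⊢
      nlinarith
    rcases le_total B A with h | h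
    · refine ⟨fun _ => 1, ⟨fun _ => ⟨zero_le_one, le_rfl⟩, ?_⟩, ?_⟩
      · simp [av]
      · rw [hav, hee]
        rw [max_eq_left h] at hlog hl
        have h3 := mul_le_mul_of_nonneg_left hlog hc
        push_cast
        linarith
    · refine ⟨fun _ => 0, ⟨fun _ => ⟨le_rfl, zero_le_one⟩, ?_⟩, ?_⟩
      · simp [av]
      · rw [hav, hee]
        rw [max_eq_right h] at hlog hl
        have h3 := mul_le_mul_of_nonneg_left hlog hc
        push_cast
        linarith

end Pool.Agent.Lib.SubBisE
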