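import Pool.Agent.Lib.SubBisE.ParE
import Pool.Agent.Lib.SubBisE.MachSeed
import Pool.Agent.Lib.SubBisC.CSys

/-!
The sites of a vertex cover `C` with `k` vertices and the kernel method: for seven eighths of the
seeds all estimates are good; the success probability over uniform random bits.
-/

set_option autoImplicit false

open Finset
open scoped BigOperators

namespace Pool.Agent.Lib.SubBisE

open Pool.Agent.Lib.Pa7c826 Pool.Agent.Lib.Pa7c826t Pool.Agent.Lib.SubBisX Pool.Agent.Lib.SubBisC
  Pool.Agent.Lib.SubBisX.Node Pool.Agent.Lib.SubBisX.Prob P7sG SubBis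

/-- the denominator of the value of one copy -/
def DD (k q : ℕ) : ℕ := NN k q * MM k q * q ^ 2

/-- the denominator of the sum over the copies -/
def DE (k n q : ℕ) : ℕ := KC n (q ^ 2) * DD k q

/-- the worlds of one copy -/
abbrev Cp (k q : ℕ) : Type := Fin (NN k q) → Fin k → Fin (2 ^ mu q)

/-- a seed: independent copies with `k` sites -/
abbrev SeedE (k n q : ℕ) : Type := Fin (KC n (q ^ 2)) → Cp k q

/-- the random value of a copy for the mask `W` -/
def VE (n a : ℕ) (adj : ℕ → ℕ → Bool) (C : Finset ℕ) (q : ℕ) (W : Finset ℕ)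
    (w : Cp C.card q) : ℤ :=
  Vl (q ^ 2) (MM C.card q) (dg q) (FC n a adj (kap q) C W) (NN C.card q) (xt w) -
    DD C.card q * FC n a adj (kap q) C W ∅

/-- the estimate of the binary logarithm of the number of independent subsets of `W` -/
def esE (n a : ℕ) (adj : ℕ → ℕ → Bool) (C : Finset ℕ) (q : ℕ) (s : SeedE C.card n q)
    (W : Finset ℕ) : ℕ :=
  eC C W ((∑ k : Fin (KC n (q ^ 2)), Vl (q ^ 2) (MM C.card q) (dg q)
      (FC n a adj (kap q) C W) (NN C.card q) (xt (s k))) -
    (DE C.card n q : ℤ) * FC n a adj (kap q) C W ∅) (DE C.card n q)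

variable {n a : ℕ} {adj : ℕ → ℕ → Bool} {C : Finset ℕ} {q : ℕ}

theorem esE_eq (s : SeedE C.card n q) (W : Finset ℕ) : esE n a adj C q s W =
    eC C W (∑ k, VE n a adj C q W (s k)) (KC n (q ^ 2) * DD C.card q) := by
  unfold esE VE DE
  rw [sum_sub_distrib, sum_const, card_univ, Fintype.card_fin, nsmul_eq_mul]
  congr 1
  push_cast
  ring

theorem kap_eq (q : ℕ) : kap q = (q ^ 2).size + 1 := rfl

theorem MM_pos (hq : 1 ≤ q) (k : ℕ) : 0 < MM k q := by
  unfold MM Gm
  have h1 : 0 < mu q + kap q := by
    rw [kap_eq]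
    omega
  positivity

theorem DD_pos (hq : 1 ≤ q) (k : ℕ) : 0 < DD k q := by
  have h1 := MM_pos hq k
  unfold DD NN
  positivity

open Classical in
/-- **Most seeds are good.** -/
theorem good_seedsE (hq : 1 ≤ q) (h : Cov n a adj C) :
    8 * (univ.filter fun s : SeedE C.card n q =>
      ¬ GoodC (n + n) adj C (dl C.card (q ^ 2)) (esE n a adj C q s)).card ≤
      Fintype.card (SeedE C.card n q) := by
  have hQ : 1 ≤ q ^ 2 := Nat.one_le_pow _ _ hq
  have hq0 : (0 : ℝ) < (q : ℝ) ^ 2 := by positivity
  have hD := DD_pos hq C.card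
  have hleaf : ∀ (s : SeedE C.card n q) (W : Finset ℕ), W ∩ C = ∅ →
      ind adj W = 2 ^ esE n a adj C q s W := fun s W hW => eC_leaf h hW _ _
  rcases Nat.eq_zero_or_pos C.card with hk | hk
  · have h1 : (univ.filter fun s : SeedE C.card n q =>
        ¬ GoodC (n + n) adj C (dl C.card (q ^ 2)) (esE n a adj C q s)) = ∅ := by
      rw [filter_eq_empty_iff]
      intro s _
      rw [not_not]
      refine ⟨fun W _ => ?_, fun W _ hW => hleaf s W hW⟩
      have hC : C = ∅ := card_eq_zero.1 hk
      have h2 := hleaf s W (by rw [hC, inter_empty])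
      rw [h2]
      push_cast
      rw [Real.logb_pow, Real.logb_self_eq_one (by norm_num), mul_one, sub_self, abs_zero]
      unfold dl
      positivity
    rw [h1, card_empty]
    exact Nat.zero_le _
  · have hk0 : (0 : ℝ) < C.card := by exact_mod_cast hk
    have key := good_seedsG (N := n + n) (D := DD C.card q) (K := KC n (q ^ 2))
      (V := VE n a adj C q) (L := fun W => Bounds.logZ (FC n a adj (kap q) C W))
      (tgt := fun W => Real.logb 2 (ind adj W)) (est := eC C) hD
      (by
        unfold KC
        positivity) (δ₁ := 6 * C.card / (q : ℝ) ^ 2) (δ₂ := C.card / (q : ℝ) ^ 2)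
      (B := C.card * (4 * (q ^ 2).size + 6)) (x := C.card * (2 / 2 ^ kap q) + 1)
      (δ := dl C.card (q ^ 2)) (by positivity) (div_pos hk0 hq0) ?_ ?_ ?_ ?_ ?_
    · refine le_trans (Nat.mul_le_mul_left 8 (card_le_card ?_)) key
      intro s hs
      rw [mem_filter] at hs ⊢
      refine ⟨mem_univ _, fun hcon => hs.2 ⟨fun W hW => ?_, fun W _ hW => hleaf s W hW⟩⟩
      rw [esE_eq]
      exact hcon W hW
    · intro W _
      have h1 := coreE hq (F := FC n a adj (kap q) C W)
        (fun S S' => FC_sub h W S S') (fun S v => FC_insert h W v S)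
      have hDr : (0 : ℝ) < DD C.card q := by exact_mod_cast hD
      have hDe : ((NN C.card q : ℝ) * MM C.card q * (q : ℝ) ^ 2) = DD C.card q := by
        unfold DD
        push_cast
        ring
      rw [hDe] at h1
      have h3 : (Reg.av fun w : Cp C.card q => (VE n a adj C q W w : ℝ)) =
          (Reg.av fun w : Cp C.card q => (Vl (q ^ 2) (MM C.card q) (dg q)
            (FC n a adj (kap q) C W) (NN C.card q) (xt w) : ℝ)) +
            -((DD C.card q : ℝ) * FC n a adj (kap q) C W ∅) := by
        rw [← Reg.av_const (Ω := Cp C.card q) (-((DD C.card q : ℝ) * FC n a adj (kap q) C W ∅)),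
          ← Reg.av_add]
        congr 1
        funext w
        unfold VE
        push_cast
        ring
      rw [h3, add_div, neg_div, mul_div_cancel_left₀ _ hDr.ne']
      refine le_trans (le_of_eq ?_) h1
      congr 1
      ring
    · intro W _ w
      have h0 : |FC n a adj (kap q) C W ∅| ≤ ((kap q * C.card : ℕ) : ℤ) := by
        rw [abs_of_nonneg (FC_nonneg W ∅)]
        push_cast
        exact FC_le h W ∅
      have h1 := range_Vl (q := q) (F := FC n a adj (kap q) C W)
        (fun S v => FC_insert h W v S) (xt w)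
      have h4 : |VE n a adj C q W w| ≤ (NN C.card q : ℤ) * MM C.card q * (q : ℤ) ^ 2 *
          (C.card * (mu q + kap q)) + DD C.card q * ((kap q * C.card : ℕ) : ℤ) := by
        unfold VE
        refine (abs_sub _ _).trans (add_le_add h1 ?_)
        rw [abs_mul, abs_of_nonneg (show (0 : ℤ) ≤ DD C.card q by positivity)]
        exact mul_le_mul_of_nonneg_left h0 (by positivity)
      have h2 : |(VE n a adj C q W w : ℝ)| ≤
          (((NN C.card q : ℤ) * MM C.card q * (q : ℤ) ^ 2 *
          (C.card * (mu q + kap q)) + DD C.card q * ((kap q * C.card : ℕ) : ℤ) : ℤ) : ℝ) := by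
        exact_mod_cast h4
      refine h2.trans ?_
      have h5 : (mu q : ℝ) + 2 * kap q ≤ 4 * (q ^ 2).size + 6 := by
        have h6 : mu q + 2 * kap q ≤ 4 * (q ^ 2).size + 6 := by
          unfold mu kap ParA.mu ParA.kap
          omega
        exact_mod_cast h6
      have h7 : (((NN C.card q : ℤ) * MM C.card q * (q : ℤ) ^ 2 *
          (C.card * (mu q + kap q)) + DD C.card q * ((kap q * C.card : ℕ) : ℤ) : ℤ) : ℝ) =
          DD C.card q * (C.card * ((mu q : ℝ) + 2 * kap q)) := by
        unfold DD
        push_cast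
        ring
      rw [h7]
      exact mul_le_mul_of_nonneg_left (mul_le_mul_of_nonneg_left h5 hk0.le) (by positivity)
    · unfold KC
      push_cast
      apply le_of_eq
      field_simp
      ring
    · intro W _ tot den hden d hd
      have h1 := eC_err h (show 0 < kap q by rw [kap_eq]; omega) W hden hd
      linarith
    · have h9 : (C.card : ℝ) * (2 / 2 ^ kap q) ≤ C.card / (q : ℝ) ^ 2 := by
        have h10 : ((q ^ 2 : ℕ) : ℝ) ≤ 2 ^ (q ^ 2).size := by
          exact_mod_cast (Nat.lt_size_self (q ^ 2)).le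
        have h11 : (2 : ℝ) / 2 ^ kap q = 1 / 2 ^ (q ^ 2).size := by
          rw [kap_eq, pow_succ]
          field_simp
        rw [h11, mul_one_div]
        refine div_le_div_of_nonneg_left hk0.le hq0 ?_
        push_cast at h10
        exact h10
      have h12 : (8 : ℝ) * C.card / (q : ℝ) ^ 2 = 6 * C.card / (q : ℝ) ^ 2 +
          C.card / (q : ℝ) ^ 2 + C.card / (q : ℝ) ^ 2 := by ring
      unfold dl
      push_cast
      linarith

/-! ### Random bits -/

/-- the number of bits of the seed -/
def offE (k n q : ℕ) : ℕ := Mach.nbE (mu q) k (NN k q) (KC n (q ^ 2))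

/-- the seed read off a stream of bits -/
def decS (k n q : ℕ) (b : ℕ → Bool) : SeedE k n q :=
  Mach.decE (mu q) k (NN k q) (KC n (q ^ 2)) b

theorem unif_decS (k n q : ℕ) : SubBisX.Seed.Unif (offE k n q) (decS k n q) :=
  Mach.unif_decE _ _ _ _

/-- the estimate of the tape -/
def esT (n a : ℕ) (adj : ℕ → ℕ → Bool) (C : Finset ℕ) (q : ℕ) (l : List Bool)
    (W : Finset ℕ) : ℕ :=
  esE n a adj C q (decS C.card n q (str l)) W

/-- the final size of the population -/
def cntT (n a : ℕ) (adj : ℕ → ℕ → Bool) (C : Finset ℕ) (q K cap : ℕ) (l : List Bool) : ℕ :=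
  (runC (chC n C adj) (fun X => esT n a adj C q l X.2) cap
    (coinT l (offE C.card n q) cap (10 * n + 1)) (List.replicate K (0, range (n + n)))
      C.card).length

open Classical in
/-- **The success probability of the approximation scheme.** -/
theorem prob_SE (hq : 1 ≤ q) (h : Cov n a adj C) {K cap m : ℕ} {t : ℝ} (ht : 1 ≤ t)
    (hK0 : 0 < K) (hK : 8 * (C.card * ((2 : ℝ) ^ dl C.card (q ^ 2)) ^ 2 * t ^ 2) ≤ K)
    (hcap : 2 * ((2 : ℝ) ^ dl C.card (q ^ 2)) ^ 2 * K ≤ cap)
    (hm : offE C.card n q + C.card * cap * 2 * (10 * n + 1) ≤ m) :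
    3 * 2 ^ m ≤ 4 * (univ.filter fun τ : Fin m → Bool =>
      |(cntT n a adj C q K cap (List.ofFn τ) : ℝ) *
          2 ^ esT n a adj C q (List.ofFn τ) (range (n + n)) -
        K * (2 ^ n * ind adj (range n) : ℕ)| ≤ K * (2 ^ n * ind adj (range n) : ℕ) / t).card := by
  have hQ : 1 ≤ q ^ 2 := Nat.one_le_pow _ _ hq
  have hkn : C.card ≤ n := by simpa using card_le_card h.sub
  have key := prob_SG (unif_decS C.card n q) (bad := fun s : SeedE C.card n q =>
      ¬ GoodC (n + n) adj C (dl C.card (q ^ 2)) (esE n a adj C q s))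
    (by
      have h1 := good_seedsE (q := q) hq h
      convert h1) (ch := chC n C adj)
    (e := fun s X => esE n a adj C q s X.2) (Z := fun X => (ind adj X.2 : ℝ)) (ok := okC n C)
    (lev := C.card) (dm := 10 * n + 1) (α := (2 : ℝ) ^ dl C.card (q ^ 2))
    (fun s hs => good_systemC h (not_not.1 hs) (dl_le hQ hkn)) (root := (0, range (n + n)))
    (okC_root h) ht hK0 hK hcap hm
  have hr := h.ind_range n
  simp only [hr] at key
  exact key

open Classical in
/-- **The success probability of the estimate of the logarithm.** -/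
theorem prob_PE (hq : 1 ≤ q) (h : Cov n a adj C) {m : ℕ} (hm : offE C.card n q ≤ m) :
    3 * 2 ^ m ≤ 4 * (univ.filter fun τ : Fin m → Bool =>
      |(esT n a adj C q (List.ofFn τ) (range n) : ℝ) - Real.logb 2 (ind adj (range n))| ≤
        8 * C.card / (q : ℝ) ^ 2 + 1).card := by
  exact prob_PG (unif_decS C.card n q) (bad := fun s : SeedE C.card n q =>
      ¬ GoodC (n + n) adj C (dl C.card (q ^ 2)) (esE n a adj C q s))
    (good := fun s => |(esE n a adj C q s (range n) : ℝ) - Real.logb 2 (ind adj (range n))| ≤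
        8 * C.card / (q : ℝ) ^ 2 + 1)
    (by
      have h1 := good_seedsE (q := q) hq h
      convert h1)
    (fun s hs => by
      have h2 := (not_not.1 hs).1 (range n) (range_subset_range.2 (by omega))
      unfold dl at h2
      push_cast at h2
      exact h2) hm

end Pool.Agent.Lib.SubBisE
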